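import Mathlib

set_option autoImplicit false

namespace Pool.Agent.Helper964.Ros

open Set

/-- algebraic part of a symmetric bilinear form, with bound -/
structure Form2 {X : Type*} [NormedAddCommGroup X] [NormedSpace ℝ X] (M : ℝ) (B : X → X → ℝ) :
    Prop where
  add : ∀ a a' b, B (a + a') b = B a b + B a' b
  smul : ∀ (r : ℝ) (a b : X), B (r • a) b = r * B a b
  symm : ∀ a b, B a b = B b a
  bd : ∀ a b, |B a b| ≤ M * (‖a‖ * ‖b‖)

/-- symmetric four-linear form, algebraic part -/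
structure Alg4 {X : Type*} [AddCommGroup X] [Module ℝ X] (A : X → X → X → X → ℝ) : Prop where
  add : ∀ a a' b c d, A (a + a') b c d = A a b c d + A a' b c d
  smul : ∀ (r : ℝ) (a b c d : X), A (r • a) b c d = r * A a b c d
  s12 : ∀ a b c d, A a b c d = A b a c d
  s23 : ∀ a b c d, A a b c d = A a c b d
  s34 : ∀ a b c d, A a b c d = A a b d c

/-- symmetric four-linear form with bound -/
structure Form4 {X : Type*} [NormedAddCommGroup X] [NormedSpace ℝ X] (M : ℝ)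
    (A : X → X → X → X → ℝ) : Prop where
  alg : Alg4 A
  bd : ∀ a b c d, |A a b c d| ≤ M * (‖a‖ * ‖b‖ * ‖c‖ * ‖d‖)

/-- the symmetrised four jet of `G` at `z` with explicit forms -/
def JetW {X : Type*} [NormedAddCommGroup X] [NormedSpace ℝ X] (G : X → ℝ) (M r : ℝ) (z : X)
    (B : X → X → ℝ) (A : X → X → X → X → ℝ) : Prop :=
  Form2 M B ∧ Form4 M A ∧ ∀ h, ‖h‖ ≤ r →
    |G (z + h) + G (z - h) - 2 * G z - B h h - (1 / 12) * A h h h h| ≤ M * ‖h‖ ^ 5

def Jet {X : Type*} [NormedAddCommGroup X] [NormedSpace ℝ X] (G : X → ℝ) (M r : ℝ) (z : X) :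
    Prop :=
  ∃ (B : X → X → ℝ) (A : X → X → X → X → ℝ), JetW G M r z B A

def GoodAt {X : Type*} [NormedAddCommGroup X] [NormedSpace ℝ X] (f : X → ℝ) (p : X) (r : ℝ) :
    Prop :=
  ∀ q, ‖q - p‖ ≤ r → Jet f (1 / r) r q

/-- averaging of translates -/
noncomputable def Tav {X : Type*} [NormedAddCommGroup X] [NormedSpace ℝ X] (y : X) (G : X → ℝ) :
    X → ℝ := fun z => (G (z + y) + G (z - y)) / 2

/-- an abstract `ℓ₄` support structure -/
structure L4Sys (X : Type*) [NormedAddCommGroup X] [NormedSpace ℝ X] (I : Type*) where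
  H : Finset I → Submodule ℝ X
  T : Finset I → Submodule ℝ X
  H_mono : ∀ S S' : Finset I, S ⊆ S' → H S ≤ H S'
  T_anti : ∀ S S' : Finset I, S ⊆ S' → T S' ≤ T S
  add4 : ∀ S : Finset I, ∀ p ∈ H S, ∀ z ∈ T S, ‖p + z‖ ^ 4 = ‖p‖ ^ 4 + ‖z‖ ^ 4

/-- a sequence of isometric copies of `E` in far apart blocks of `X` -/
structure Copies {X : Type*} [NormedAddCommGroup X] [NormedSpace ℝ X] {I : Type*}
    (Y : L4Sys X I) (E : Type*) [NormedAddCommGroup E] [NormedSpace ℝ E] where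
  e : ℕ → E →ₗᵢ[ℝ] X
  φ : ℕ → I
  inj : Function.Injective φ
  memH : ∀ c z, e c z ∈ Y.H {φ c}
  memT : ∀ c z (S : Finset I), φ c ∉ S → e c z ∈ Y.T S

/-- what is extracted on a space `E` -/
def Ext (E : Type*) [NormedAddCommGroup E] [NormedSpace ℝ E] (M c₁ : ℝ) : Prop :=
  ∀ η : ℝ, 0 < η → ∃ A : E → E → E → E → ℝ, Form4 M A ∧
    (∀ x y, ‖x‖ = 1 → ‖y‖ = 1 → -η ≤ A x x y y) ∧
    (∀ z, ‖z‖ = 1 → c₁ ≤ A z z z z)

/-! kernels -/

section Ker

variable {V : Type*} [Fintype V]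

/-- bilinear energy of a kernel -/
def kform (k : V → V → ℝ) (μ ν : V → ℝ) : ℝ := ∑ u, ∑ v, k u v * (μ u * ν v)

/-- quartic form of a kernel -/
def Qk (k : V → V → ℝ) (x : V → ℝ) : ℝ := ∑ u, ∑ v, k u v * (x u ^ 2 * x v ^ 2)

/-- kernels with the cone Cauchy-Schwarz inequality -/
structure IsKer (k : V → V → ℝ) : Prop where
  symm : ∀ u v, k u v = k v u
  nonneg : ∀ u v, 0 ≤ k u v
  le_one : ∀ u v, k u v ≤ 1
  diag : ∀ u, k u u = 1
  cs : ∀ μ ν : V → ℝ, (∀ u, 0 ≤ μ u) → (∀ u, 0 ≤ ν u) →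
    kform k μ ν ^ 2 ≤ 64 * (kform k μ μ * kform k ν ν)

/-- the sign-averaged quartic form with coefficients `θ` -/
def Th (θ : V → V → ℝ) (x y : V → ℝ) : ℝ :=
  (∑ a, ∑ b, (x a ^ 2 * y b ^ 2 + 2 * (x a * y a) * (x b * y b)) * θ a b) -
    2 * ∑ a, x a ^ 2 * y a ^ 2 * θ a a

/-- signs -/
def sg (b : Bool) : ℝ := if b then 1 else -1

end Ker

end Pool.Agent.Helper964.Ros
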