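import Mathlib
import Pool.Agent.Helper964.Ros.Defs

set_option autoImplicit false

namespace Pool.Agent.Helper964.Ros

open Set

/-- jets are stable under averaging -/
theorem jet_tav {X : Type*} [NormedAddCommGroup X] [NormedSpace ℝ X] (G : X → ℝ) (M r : ℝ)
    (z y : X) (h1 : Jet G M r (z + y)) (h2 : Jet G M r (z - y)) : Jet (Tav y G) M r z := by
  obtain ⟨B1, A1, hB1, hA1, hG1⟩ := h1
  obtain ⟨B2, A2, hB2, hA2, hG2⟩ := h2
  have avg : ∀ u v K : ℝ, |u| ≤ K → |v| ≤ K → |(u + v) / 2| ≤ K := by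
    intro u v K hu hv
    rw [abs_le] at *
    constructor <;> linarith [hu.1, hu.2, hv.1, hv.2]
  refine ⟨fun a b => (B1 a b + B2 a b) / 2, fun a b c d => (A1 a b c d + A2 a b c d) / 2,
    ⟨?_, ?_, ?_, ?_⟩, ⟨⟨?_, ?_, ?_, ?_, ?_⟩, ?_⟩, ?_⟩
  · intro a a' b
    rw [hB1.add, hB2.add]; ring
  · intro s a b
    rw [hB1.smul, hB2.smul]; ring
  · intro a b
    rw [hB1.symm a b, hB2.symm a b]
  · intro a b
    exact avg _ _ _ (hB1.bd a b) (hB2.bd a b)
  · intro a a' b c d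
    rw [hA1.alg.add, hA2.alg.add]; ring
  · intro s a b c d
    rw [hA1.alg.smul, hA2.alg.smul]; ring
  · intro a b c d
    rw [hA1.alg.s12 a b c d, hA2.alg.s12 a b c d]
  · intro a b c d
    rw [hA1.alg.s23 a b c d, hA2.alg.s23 a b c d]
  · intro a b c d
    rw [hA1.alg.s34 a b c d, hA2.alg.s34 a b c d]
  · intro a b c d
    exact avg _ _ _ (hA1.bd a b c d) (hA2.bd a b c d)
  · intro h hh
    have key := avg _ _ _ (hG1 h hh) (hG2 h hh)
    have e1 : z + h + y = z + y + h := by abel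
    have e2 : z + h - y = z - y + h := by abel
    have e3 : z - h + y = z + y - h := by abel
    have e4 : z - h - y = z - y - h := by abel
    have e : Tav y G (z + h) + Tav y G (z - h) - 2 * Tav y G z - (B1 h h + B2 h h) / 2 -
        1 / 12 * ((A1 h h h h + A2 h h h h) / 2) =
        ((G (z + y + h) + G (z + y - h) - 2 * G (z + y) - B1 h h - (1 / 12) * A1 h h h h) +
          (G (z - y + h) + G (z - y - h) - 2 * G (z - y) - B2 h h -
            (1 / 12) * A2 h h h h)) / 2 := by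
      unfold Tav
      rw [e1, e2, e3, e4]
      ring
    rw [e]
    exact key

/-- averaging keeps convexity -/
theorem convex_tav {X : Type*} [NormedAddCommGroup X] [NormedSpace ℝ X] (G : X → ℝ) (y : X)
    (h : ConvexOn ℝ univ G) : ConvexOn ℝ univ (Tav y G) := by
  refine ⟨convex_univ, ?_⟩
  intro u _ v _ a b ha hb hab
  have h1 := h.2 (mem_univ (u + y)) (mem_univ (v + y)) ha hb hab
  have h2 := h.2 (mem_univ (u - y)) (mem_univ (v - y)) ha hb hab
  have hy : y = a • y + b • y := by rw [← add_smul, hab, one_smul]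
  have e1 : a • (u + y) + b • (v + y) = a • u + b • v + y := by
    conv_rhs => rw [hy]
    rw [smul_add, smul_add]
    abel
  have e2 : a • (u - y) + b • (v - y) = a • u + b • v - y := by
    conv_rhs => rw [hy]
    rw [smul_sub, smul_sub]
    abel
  rw [e1] at h1
  rw [e2] at h2
  simp only [smul_eq_mul] at h1 h2
  unfold Tav
  simp only [smul_eq_mul]
  linarith

/-- weakening the constants of a jet -/
theorem jet_mono {X : Type*} [NormedAddCommGroup X] [NormedSpace ℝ X] (G : X → ℝ)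
    (M M' r r' : ℝ) (z : X) (hM : M ≤ M') (hr : r' ≤ r) (h : Jet G M r z) : Jet G M' r' z := by
  obtain ⟨B, A, hB, hA, hG⟩ := h
  refine ⟨B, A, ⟨hB.add, hB.smul, hB.symm, fun a b => ?_⟩, ⟨hA.alg, fun a b c d => ?_⟩, ?_⟩
  · exact (hB.bd a b).trans (mul_le_mul_of_nonneg_right hM (by positivity))
  · exact (hA.bd a b c d).trans (mul_le_mul_of_nonneg_right hM (by positivity))
  · intro k hk
    exact (hG k (hk.trans hr)).trans (mul_le_mul_of_nonneg_right hM (by positivity))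

/-- auxiliary: full symmetrisation of a multilinear map on `Fin n` -/
noncomputable def symAux {X : Type*} [NormedAddCommGroup X] [NormedSpace ℝ X] {n : ℕ}
    (T : ContinuousMultilinearMap ℝ (fun _ : Fin n => X) ℝ) :
    MultilinearMap ℝ (fun _ : Fin n => X) ℝ :=
  ∑ σ : Equiv.Perm (Fin n), T.toMultilinearMap.domDomCongr σ

theorem symAux_apply {X : Type*} [NormedAddCommGroup X] [NormedSpace ℝ X] {n : ℕ}
    (T : ContinuousMultilinearMap ℝ (fun _ : Fin n => X) ℝ) (v : Fin n → X) :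
    symAux T v = ∑ σ : Equiv.Perm (Fin n), T (fun i => v (σ i)) := by
  simp only [symAux, MultilinearMap.sum_apply]
  rfl

theorem symAux_perm {X : Type*} [NormedAddCommGroup X] [NormedSpace ℝ X] {n : ℕ}
    (T : ContinuousMultilinearMap ℝ (fun _ : Fin n => X) ℝ) (v : Fin n → X)
    (τ : Equiv.Perm (Fin n)) :
    symAux T (fun i => v (τ i)) = symAux T v := by
  rw [symAux_apply, symAux_apply]
  exact Fintype.sum_equiv (Equiv.mulLeft τ) _ _ (fun σ => rfl)

theorem symAux_bd {X : Type*} [NormedAddCommGroup X] [NormedSpace ℝ X] {n : ℕ} (M : ℝ)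
    (T : ContinuousMultilinearMap ℝ (fun _ : Fin n => X) ℝ) (hT : ‖T‖ ≤ M) (v : Fin n → X) :
    |symAux T v| ≤ (n.factorial : ℝ) * (M * ∏ i, ‖v i‖) := by
  rw [symAux_apply]
  calc |∑ σ : Equiv.Perm (Fin n), T (fun i => v (σ i))|
      ≤ ∑ σ : Equiv.Perm (Fin n), |T (fun i => v (σ i))| := Finset.abs_sum_le_sum_abs _ _
    _ ≤ ∑ _σ : Equiv.Perm (Fin n), M * ∏ i, ‖v i‖ := by
        apply Finset.sum_le_sum
        intro σ _
        have h1 := T.le_opNorm (fun i => v (σ i))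
        rw [Real.norm_eq_abs] at h1
        have h2 : ∏ i, ‖v (σ i)‖ = ∏ i, ‖v i‖ := Equiv.prod_comp σ (fun i => ‖v i‖)
        rw [h2] at h1
        exact h1.trans (mul_le_mul_of_nonneg_right hT (Finset.prod_nonneg fun i _ => norm_nonneg _))
    _ = _ := by
        rw [Finset.sum_const, Finset.card_univ, Fintype.card_perm, Fintype.card_fin, nsmul_eq_mul]

theorem symAux_diag {X : Type*} [NormedAddCommGroup X] [NormedSpace ℝ X] {n : ℕ}
    (T : ContinuousMultilinearMap ℝ (fun _ : Fin n => X) ℝ) (h : X) :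
    symAux T (fun _ => h) = (n.factorial : ℝ) * T (fun _ => h) := by
  rw [symAux_apply, Finset.sum_const, Finset.card_univ, Fintype.card_perm, Fintype.card_fin, nsmul_eq_mul]

/-- symmetrisation of a bilinear form -/
theorem symm_two {X : Type*} [NormedAddCommGroup X] [NormedSpace ℝ X] (M : ℝ)
    (T : ContinuousMultilinearMap ℝ (fun _ : Fin 2 => X) ℝ) (hT : ‖T‖ ≤ M) :
    ∃ B : X → X → ℝ, Form2 M B ∧ ∀ h, B h h = T (fun _ => h) := by
  refine ⟨fun a b => (1 / 2) * symAux T ![a, b], ⟨?_, ?_, ?_, ?_⟩, ?_⟩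
  · intro a a' b
    have := (symAux T).cons_add ![b] a a'
    change (1 / 2) * symAux T (Fin.cons (a + a') ![b]) = (1 / 2) * symAux T (Fin.cons a ![b])
      + (1 / 2) * symAux T (Fin.cons a' ![b])
    rw [this]; ring
  · intro r a b
    have := (symAux T).cons_smul ![b] r a
    change (1 / 2) * symAux T (Fin.cons (r • a) ![b]) = r * ((1 / 2) * symAux T (Fin.cons a ![b]))
    rw [this, smul_eq_mul]; ring
  · intro a b
    have := symAux_perm T ![a, b] (Equiv.swap 0 1)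
    have e : (fun i => ![a, b] (Equiv.swap (0 : Fin 2) 1 i)) = ![b, a] := by
      funext i; fin_cases i <;> rfl
    rw [e] at this
    simp only [this]
  · intro a b
    have := symAux_bd M T hT ![a, b]
    rw [Fin.prod_univ_two] at this
    simp only [Matrix.cons_val_zero, Matrix.cons_val_one, Nat.factorial, Nat.cast_ofNat,
      Nat.cast_mul, Nat.cast_one, Nat.cast_succ] at this
    rw [abs_mul, abs_of_pos (by norm_num : (0 : ℝ) < 1 / 2)]
    norm_num at this ⊢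
    linarith
  · intro h
    have := symAux_diag T h
    have e : ![h, h] = fun _ => h := by funext i; fin_cases i <;> rfl
    simp only [e, this]
    norm_num [Nat.factorial]
    ring

/-- symmetrisation of a four-linear form -/
theorem symm_four {X : Type*} [NormedAddCommGroup X] [NormedSpace ℝ X] (M : ℝ)
    (T : ContinuousMultilinearMap ℝ (fun _ : Fin 4 => X) ℝ) (hT : ‖T‖ ≤ M) :
    ∃ A : X → X → X → X → ℝ, Form4 M A ∧ ∀ h, A h h h h = T (fun _ => h) := by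
  refine ⟨fun a b c d => (1 / 24) * symAux T ![a, b, c, d], ⟨⟨?_, ?_, ?_, ?_, ?_⟩, ?_⟩, ?_⟩
  · intro a a' b c d
    have := (symAux T).cons_add ![b, c, d] a a'
    change (1 / 24) * symAux T (Fin.cons (a + a') ![b, c, d]) = (1 / 24) * symAux T (Fin.cons a ![b, c, d])
      + (1 / 24) * symAux T (Fin.cons a' ![b, c, d])
    rw [this]; ring
  · intro r a b c d
    have := (symAux T).cons_smul ![b, c, d] r a
    change (1 / 24) * symAux T (Fin.cons (r • a) ![b, c, d]) = r * ((1 / 24) * symAux T (Fin.cons a ![b, c, d]))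
    rw [this, smul_eq_mul]; ring
  · intro a b c d
    have := symAux_perm T ![a, b, c, d] (Equiv.swap 0 1)
    have e : (fun i => ![a, b, c, d] (Equiv.swap (0 : Fin 4) 1 i)) = ![b, a, c, d] := by
      funext i; fin_cases i <;> rfl
    rw [e] at this
    simp only [this]
  · intro a b c d
    have := symAux_perm T ![a, b, c, d] (Equiv.swap 1 2)
    have e : (fun i => ![a, b, c, d] (Equiv.swap (1 : Fin 4) 2 i)) = ![a, c, b, d] := by
      funext i; fin_cases i <;> rfl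
    rw [e] at this
    simp only [this]
  · intro a b c d
    have := symAux_perm T ![a, b, c, d] (Equiv.swap 2 3)
    have e : (fun i => ![a, b, c, d] (Equiv.swap (2 : Fin 4) 3 i)) = ![a, b, d, c] := by
      funext i; fin_cases i <;> rfl
    rw [e] at this
    simp only [this]
  · intro a b c d
    have := symAux_bd M T hT ![a, b, c, d]
    rw [Fin.prod_univ_four] at this
    have e0 : ![a, b, c, d] 0 = a := rfl
    have e1 : ![a, b, c, d] 1 = b := rfl
    have e2 : ![a, b, c, d] 2 = c := rfl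
    have e3 : ![a, b, c, d] 3 = d := rfl
    rw [e0, e1, e2, e3] at this
    have e4 : ((4 : ℕ).factorial : ℝ) = 24 := by norm_num [Nat.factorial]
    rw [e4] at this
    rw [abs_mul, abs_of_pos (by norm_num : (0 : ℝ) < 1 / 24)]
    linarith
  · intro h
    have := symAux_diag T h
    have e : ![h, h, h, h] = fun _ => h := by funext i; fin_cases i <;> rfl
    simp only [e, this]
    norm_num [Nat.factorial]
    ring

theorem jet_of_bounds_rem {X : Type*} [NormedAddCommGroup X] [NormedSpace ℝ X] (f : X → ℝ) (q : X)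
    (M r : ℝ) (hC : ∀ q', ‖q' - q‖ ≤ r → ContDiffAt ℝ 5 f q')
    (h5 : ∀ q', ‖q' - q‖ ≤ r → ‖iteratedFDeriv ℝ 5 f q'‖ ≤ M) (y : X) (hy : ‖y‖ ≤ r) :
    |f (q + y) - (f q + iteratedFDeriv ℝ 1 f q (fun _ => y)
      + (1 / 2) * iteratedFDeriv ℝ 2 f q (fun _ => y)
      + (1 / 6) * iteratedFDeriv ℝ 3 f q (fun _ => y)
      + (1 / 24) * iteratedFDeriv ℝ 4 f q (fun _ => y))| ≤ (1 / 24) * (M * ‖y‖ ^ 5) := by
  have hr : ∀ t ∈ Set.Icc (0 : ℝ) 1, ‖(q + t • y) - q‖ ≤ r := by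
    intro t ht
    rw [add_sub_cancel_left, norm_smul, Real.norm_eq_abs, abs_of_nonneg ht.1]
    calc t * ‖y‖ ≤ 1 * ‖y‖ := mul_le_mul_of_nonneg_right ht.2 (norm_nonneg _)
      _ = ‖y‖ := one_mul _
      _ ≤ r := hy
  have key := map_add_eq_sum_add_integral_iteratedFDeriv (f := f) (x := q) (y := y) (n := 4)
    (fun t ht => by
      have := hC (q + t • y) (hr t ht)
      norm_num
      exact this)
  have hint : ‖∫ t in (0 : ℝ)..1, (1 - t) ^ 4 • iteratedFDeriv ℝ (4 + 1) f (q + t • y) (fun _ => y)‖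
      ≤ M * ‖y‖ ^ 5 * |(1 : ℝ) - 0| := by
    apply intervalIntegral.norm_integral_le_of_norm_le_const
    intro t ht
    rw [Set.uIoc_of_le zero_le_one] at ht
    have ht' : t ∈ Set.Icc (0 : ℝ) 1 := ⟨ht.1.le, ht.2⟩
    rw [norm_smul, norm_pow, Real.norm_eq_abs, abs_of_nonneg (by linarith [ht.2])]
    have h1 : (1 - t) ^ 4 ≤ 1 := pow_le_one₀ (by linarith [ht.2]) (by linarith [ht.1])
    have h2 : ‖iteratedFDeriv ℝ (4 + 1) f (q + t • y) (fun _ => y)‖ ≤ M * ‖y‖ ^ 5 := by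
      refine (ContinuousMultilinearMap.le_opNorm _ _).trans ?_
      rw [Finset.prod_const, Finset.card_univ, Fintype.card_fin]
      exact mul_le_mul_of_nonneg_right (h5 _ (hr t ht')) (by positivity)
    calc (1 - t) ^ 4 * ‖iteratedFDeriv ℝ (4 + 1) f (q + t • y) (fun _ => y)‖
        ≤ 1 * ‖iteratedFDeriv ℝ (4 + 1) f (q + t • y) (fun _ => y)‖ :=
          mul_le_mul_of_nonneg_right h1 (norm_nonneg _)
      _ ≤ M * ‖y‖ ^ 5 := by rw [one_mul]; exact h2
  have hsum : f (q + y) - (f q + iteratedFDeriv ℝ 1 f q (fun _ => y)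
      + (1 / 2) * iteratedFDeriv ℝ 2 f q (fun _ => y)
      + (1 / 6) * iteratedFDeriv ℝ 3 f q (fun _ => y)
      + (1 / 24) * iteratedFDeriv ℝ 4 f q (fun _ => y))
      = (1 / 24) * ∫ t in (0 : ℝ)..1, (1 - t) ^ 4 • iteratedFDeriv ℝ (4 + 1) f (q + t • y) (fun _ => y) := by
    rw [key]
    simp only [Finset.sum_range_succ, Finset.sum_range_zero, zero_add, smul_eq_mul,
      Nat.factorial, iteratedFDeriv_zero_apply]
    norm_num
  rw [hsum, abs_mul, abs_of_pos (by norm_num : (0 : ℝ) < 1 / 24)]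
  rw [Real.norm_eq_abs] at hint
  apply mul_le_mul_of_nonneg_left _ (by norm_num)
  simpa using hint

theorem jet_of_bounds_neg {X : Type*} [NormedAddCommGroup X] [NormedSpace ℝ X] (k : ℕ)
    (T : ContinuousMultilinearMap ℝ (fun _ : Fin k => X) ℝ) (h : X) :
    T (fun _ => -h) = (-1) ^ k * T (fun _ => h) := by
  have := T.map_smul_univ (fun _ => (-1 : ℝ)) (fun _ => h)
  simp only [neg_smul, one_smul, Finset.prod_const, Finset.card_univ, Fintype.card_fin,
    smul_eq_mul] at this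
  exact this

/-- MAIN TARGET of this job: Taylor estimate at one point -/
theorem jet_of_bounds {X : Type*} [NormedAddCommGroup X] [NormedSpace ℝ X] (f : X → ℝ) (q : X)
    (M r : ℝ) (hC : ∀ q', ‖q' - q‖ ≤ r → ContDiffAt ℝ 5 f q')
    (h2 : ‖iteratedFDeriv ℝ 2 f q‖ ≤ M) (h4 : ‖iteratedFDeriv ℝ 4 f q‖ ≤ M)
    (h5 : ∀ q', ‖q' - q‖ ≤ r → ‖iteratedFDeriv ℝ 5 f q'‖ ≤ M) : Jet f M r q := by
  obtain ⟨B, hB, hBh⟩ := symm_two M (iteratedFDeriv ℝ 2 f q) h2
  obtain ⟨A, hA, hAh⟩ := symm_four M (iteratedFDeriv ℝ 4 f q) h4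
  refine ⟨B, A, hB, hA, ?_⟩
  intro h hh
  have hM : 0 ≤ M := (norm_nonneg _).trans h2
  have e1 := jet_of_bounds_rem f q M r hC h5 h hh
  have e2 := jet_of_bounds_rem f q M r hC h5 (-h) (by rw [norm_neg]; exact hh)
  rw [jet_of_bounds_neg, jet_of_bounds_neg, jet_of_bounds_neg, jet_of_bounds_neg, norm_neg,
    ← sub_eq_add_neg] at e2
  rw [hBh, hAh]
  have h6 : 0 ≤ M * ‖h‖ ^ 5 := by positivity
  rw [abs_le] at e1 e2 ⊢
  constructor <;> linarith [e1.1, e1.2, e2.1, e2.2]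

/-- MAIN TARGET of this job: at every point of a compact set avoiding zero, a function that is
`C^5` off zero has uniform symmetrised four jets -/
theorem goodAt_compact {X : Type*} [NormedAddCommGroup X] [NormedSpace ℝ X] (f : X → ℝ)
    (hf : ContDiffOn ℝ 5 f ({0}ᶜ : Set X)) (K : Set X) (hK : IsCompact K) (h0 : (0 : X) ∉ K) :
    ∃ r : ℝ, 0 < r ∧ ∀ p ∈ K, GoodAt f p r := by
  have hs : IsOpen ({0}ᶜ : Set X) := isOpen_compl_singleton
  have hcont : ∀ i : ℕ, i ≤ 5 → ContinuousOn (fun q => ‖iteratedFDeriv ℝ i f q‖) ({0}ᶜ : Set X) := by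
    intro i hi
    have h1 : ContinuousOn (iteratedFDerivWithin ℝ i f ({0}ᶜ : Set X)) ({0}ᶜ : Set X) :=
      hf.continuousOn_iteratedFDerivWithin (by exact_mod_cast hi) hs.uniqueDiffOn
    have h2 : ContinuousOn (iteratedFDeriv ℝ i f) ({0}ᶜ : Set X) :=
      h1.congr fun q hq => (iteratedFDerivWithin_of_isOpen i hs hq).symm
    exact h2.norm
  have hopen : ∀ (i : ℕ), i ≤ 5 → ∀ n : ℕ,
      IsOpen (({0}ᶜ : Set X) ∩ (fun q => ‖iteratedFDeriv ℝ i f q‖) ⁻¹' Set.Iio (n : ℝ)) := by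
    intro i hi n
    exact (hcont i hi).isOpen_inter_preimage hs isOpen_Iio
  let U : ℕ → Set X := fun n =>
    (({0}ᶜ : Set X) ∩ (fun q => ‖iteratedFDeriv ℝ 2 f q‖) ⁻¹' Set.Iio (n : ℝ)) ∩
    (({0}ᶜ : Set X) ∩ (fun q => ‖iteratedFDeriv ℝ 4 f q‖) ⁻¹' Set.Iio (n : ℝ)) ∩
    (({0}ᶜ : Set X) ∩ (fun q => ‖iteratedFDeriv ℝ 5 f q‖) ⁻¹' Set.Iio (n : ℝ))
  have hU : ∀ n, IsOpen (U n) := fun n =>
    ((hopen 2 (by norm_num) n).inter (hopen 4 (by norm_num) n)).inter (hopen 5 (by norm_num) n)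
  have hmono : Monotone U := by
    intro m n hmn q hq
    have hmn' : (m : ℝ) ≤ n := by exact_mod_cast hmn
    obtain ⟨⟨⟨h0, h2⟩, ⟨_, h4⟩⟩, ⟨_, h5⟩⟩ := hq
    exact ⟨⟨⟨h0, lt_of_lt_of_le h2 hmn'⟩, ⟨h0, lt_of_lt_of_le h4 hmn'⟩⟩,
      ⟨h0, lt_of_lt_of_le h5 hmn'⟩⟩
  have hcov : K ⊆ ⋃ n, U n := by
    intro q hq
    have hq0 : q ∈ ({0}ᶜ : Set X) := by
      intro h
      exact h0 (by rw [← (show q = 0 from h)]; exact hq)
    obtain ⟨n, hn⟩ := exists_nat_gt (max ‖iteratedFDeriv ℝ 2 f q‖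
      (max ‖iteratedFDeriv ℝ 4 f q‖ ‖iteratedFDeriv ℝ 5 f q‖))
    refine Set.mem_iUnion.2 ⟨n, ⟨⟨⟨hq0, ?_⟩, ⟨hq0, ?_⟩⟩, ⟨hq0, ?_⟩⟩⟩
    · exact lt_of_le_of_lt (le_max_left _ _) hn
    · exact lt_of_le_of_lt ((le_max_left _ _).trans (le_max_right _ _)) hn
    · exact lt_of_le_of_lt ((le_max_right _ _).trans (le_max_right _ _)) hn
  obtain ⟨n, hn⟩ := hK.elim_directed_cover U hU hcov (hmono.directed_le)
  obtain ⟨δ, hδ, hsub⟩ := hK.exists_thickening_subset_open (hU n) hn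
  have hn1 : (0 : ℝ) < (n : ℝ) + 1 := by positivity
  have hr : 0 < min (δ / 3) (1 / ((n : ℝ) + 1)) := lt_min (by linarith) (by positivity)
  refine ⟨min (δ / 3) (1 / ((n : ℝ) + 1)), hr, ?_⟩
  intro p hp q hq
  set r := min (δ / 3) (1 / ((n : ℝ) + 1)) with hrdef
  have hr1 : r ≤ δ / 3 := min_le_left _ _
  have hr2 : r ≤ 1 / ((n : ℝ) + 1) := min_le_right _ _
  have hM : (n : ℝ) ≤ 1 / r := by
    have h1 : (n : ℝ) + 1 ≤ 1 / r := by
      rw [le_div_iff₀ hr]
      rw [le_div_iff₀ hn1] at hr2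
      linarith
    linarith
  have hin : ∀ q', ‖q' - q‖ ≤ r → q' ∈ U n := by
    intro q' hq'
    apply hsub
    rw [Metric.mem_thickening_iff]
    refine ⟨p, hp, ?_⟩
    rw [dist_eq_norm]
    have h1 : ‖q' - p‖ ≤ ‖q' - q‖ + ‖q - p‖ := by
      have := norm_add_le (q' - q) (q - p)
      rwa [sub_add_sub_cancel] at this
    linarith
  have hqq : ‖q - q‖ ≤ r := by rw [sub_self, norm_zero]; exact hr.le
  apply jet_of_bounds
  · intro q' hq'
    have h1 : q' ∈ ({0}ᶜ : Set X) := (hin q' hq').2.1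
    exact hf.contDiffAt (hs.mem_nhds h1)
  · exact (le_of_lt (show ‖iteratedFDeriv ℝ 2 f q‖ < (n : ℝ) from (hin q hqq).1.1.2)).trans hM
  · exact (le_of_lt (show ‖iteratedFDeriv ℝ 4 f q‖ < (n : ℝ) from (hin q hqq).1.2.2)).trans hM
  · intro q' hq'
    exact (le_of_lt (show ‖iteratedFDeriv ℝ 5 f q'‖ < (n : ℝ) from (hin q' hq').2.2)).trans hM

/-- a bounded bilinear form is small from above on all but finitely many far copies -/
theorem bilin_small {X : Type*} [NormedAddCommGroup X] [NormedSpace ℝ X] {I : Type*}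
    (Y : L4Sys X I) {E : Type*} [NormedAddCommGroup E] [NormedSpace ℝ E] (C : Copies Y E)
    (M : ℝ) (B : X → X → ℝ) (hB : Form2 M B) (δ : ℝ) (hδ : 0 < δ) (S : Finset I) :
    ∃ c : ℕ, C.φ c ∉ S ∧ ∀ z : E, B (C.e c z) (C.e c z) ≤ δ * ‖z‖ ^ 2 := by
  classical
  by_contra hcon
  push Not at hcon
  have addr : ∀ a b b', B a (b + b') = B a b + B a b' := by
    intro a b b'
    rw [hB.symm a (b + b'), hB.add, hB.symm b a, hB.symm b' a]
  have smulr : ∀ (r : ℝ) (a b : X), B a (r • b) = r * B a b := by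
    intro r a b
    rw [hB.symm a (r • b), hB.smul, hB.symm b a]
  have hv : ∀ c, C.φ c ∉ S → ∃ v : X, v ∈ Y.H {C.φ c} ∧
      (∀ S' : Finset I, C.φ c ∉ S' → v ∈ Y.T S') ∧ ‖v‖ = 1 ∧ δ < B v v := by
    intro c hc
    obtain ⟨z, hz⟩ := hcon c hc
    have hz0 : z ≠ 0 := by
      rintro rfl
      have h0 : B (C.e c 0) (C.e c 0) = 0 := by
        have := hB.smul 0 (C.e c 0) (C.e c 0)
        simp only [map_zero, smul_zero, zero_mul] at this ⊢
        exact this
      rw [h0] at hz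
      simp at hz
    have hn : 0 < ‖z‖ := norm_pos_iff.2 hz0
    refine ⟨C.e c (‖z‖⁻¹ • z), C.memH c _, fun S' hS' => C.memT c _ S' hS', ?_, ?_⟩
    · rw [LinearIsometry.norm_map, norm_smul, norm_inv, norm_norm, inv_mul_cancel₀ hn.ne']
    · rw [map_smul, hB.smul, smulr]
      have h1 : δ = ‖z‖⁻¹ * (‖z‖⁻¹ * (δ * ‖z‖ ^ 2)) := by
        field_simp
      rw [h1]
      gcongr
  have key : ∀ n : ℕ, ∃ S' : Finset I, S ⊆ S' ∧ ∃ w ∈ Y.H S', ‖w‖ ^ 4 = n ∧ n * δ ≤ B w w := by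
    intro n
    induction n with
    | zero =>
      refine ⟨S, subset_rfl, 0, Submodule.zero_mem _, by simp, ?_⟩
      have := hB.smul 0 (0 : X) (0 : X)
      simp only [smul_zero, zero_mul] at this
      rw [this]; simp
    | succ n ih =>
      obtain ⟨S', hSS', w, hw, hw4, hwB⟩ := ih
      obtain ⟨c, hc⟩ := Infinite.exists_notMem_finset (S'.preimage C.φ (C.inj.injOn))
      rw [Finset.mem_preimage] at hc
      obtain ⟨v, hvH, hvT, hv1, hvB⟩ := hv c (fun h => hc (hSS' h))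
      obtain ⟨s, hsH, hsT, hs1, hsB, hws⟩ : ∃ s : X, s ∈ Y.H {C.φ c} ∧ s ∈ Y.T S' ∧ ‖s‖ = 1 ∧
          δ < B s s ∧ 0 ≤ B w s := by
        rcases le_total 0 (B w v) with h | h
        · exact ⟨v, hvH, hvT S' hc, hv1, hvB, h⟩
        · refine ⟨-v, Submodule.neg_mem _ hvH, Submodule.neg_mem _ (hvT S' hc), by rw [norm_neg, hv1], ?_, ?_⟩
          · have h1 : B (-v) (-v) = B v v := by
              have e1 := hB.smul (-1) v (-v)
              have e2 := smulr (-1) v v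
              rw [neg_one_smul] at e1 e2
              rw [e1, e2]; ring
            rw [h1]; exact hvB
          · have e2 := smulr (-1) w v
            rw [neg_one_smul] at e2
            rw [e2]; linarith
      refine ⟨insert (C.φ c) S', hSS'.trans (Finset.subset_insert _ _), w + s, ?_, ?_, ?_⟩
      · refine Submodule.add_mem _ (Y.H_mono _ _ (Finset.subset_insert _ _) hw) ?_
        refine Y.H_mono {C.φ c} _ ?_ hsH
        intro x hx
        rw [Finset.mem_singleton] at hx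
        rw [hx]; exact Finset.mem_insert_self _ _
      · rw [Y.add4 S' w hw s hsT, hw4, hs1]; push_cast; ring
      · have e : B (w + s) (w + s) = B w w + 2 * B w s + B s s := by
          rw [hB.add, addr, addr, hB.symm s w]; ring
        rw [e]; push_cast; linarith
  obtain ⟨k, hk⟩ := exists_nat_gt (M / δ)
  obtain ⟨S', -, w, -, hw4, hwB⟩ := key ((k + 1) ^ 2)
  have hw2 : ‖w‖ * ‖w‖ = (k : ℝ) + 1 := by
    have h1 : (‖w‖ * ‖w‖) ^ 2 = ((k : ℝ) + 1) ^ 2 := by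
      have : (‖w‖ * ‖w‖) ^ 2 = ‖w‖ ^ 4 := by ring
      rw [this, hw4]; push_cast; ring
    exact (pow_left_inj₀ (by positivity) (by positivity) two_ne_zero).1 h1
  have h2 := (le_abs_self _).trans (hB.bd w w)
  rw [hw2] at h2
  have h3 : M < (k + 1) * δ := by
    rw [div_lt_iff₀ hδ] at hk
    nlinarith
  have h4 : (((k + 1) ^ 2 : ℕ) : ℝ) * δ ≤ M * ((k : ℝ) + 1) := hwB.trans h2
  push_cast at h4
  have h5 : (0 : ℝ) < (k : ℝ) + 1 := by positivity
  nlinarith

theorem cf_add2 {X : Type*} [AddCommGroup X] [Module ℝ X] {A : X → X → X → X → ℝ} (h : Alg4 A)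
    (a b b' c d : X) : A a (b + b') c d = A a b c d + A a b' c d := by
  rw [h.s12 a, h.add, h.s12 b, h.s12 b']

theorem cf_add3 {X : Type*} [AddCommGroup X] [Module ℝ X] {A : X → X → X → X → ℝ} (h : Alg4 A)
    (a b c c' d : X) : A a b (c + c') d = A a b c d + A a b c' d := by
  rw [h.s23 a b, cf_add2 h, h.s23 a c, h.s23 a c']

theorem cf_add4 {X : Type*} [AddCommGroup X] [Module ℝ X] {A : X → X → X → X → ℝ} (h : Alg4 A)
    (a b c d d' : X) : A a b c (d + d') = A a b c d + A a b c d' := by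
  rw [h.s34 a b c, cf_add3 h, h.s34 a b d, h.s34 a b d']

theorem cf_smul2 {X : Type*} [AddCommGroup X] [Module ℝ X] {A : X → X → X → X → ℝ} (h : Alg4 A)
    (r : ℝ) (a b c d : X) : A a (r • b) c d = r * A a b c d := by
  rw [h.s12 a, h.smul, h.s12 b]

theorem cf_smul3 {X : Type*} [AddCommGroup X] [Module ℝ X] {A : X → X → X → X → ℝ} (h : Alg4 A)
    (r : ℝ) (a b c d : X) : A a b (r • c) d = r * A a b c d := by
  rw [h.s23 a b, cf_smul2 h, h.s23 a c]

theorem cf_smul4 {X : Type*} [AddCommGroup X] [Module ℝ X] {A : X → X → X → X → ℝ} (h : Alg4 A)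
    (r : ℝ) (a b c d : X) : A a b c (r • d) = r * A a b c d := by
  rw [h.s34 a b c, cf_smul3 h, h.s34 a b d]

theorem cf_binom {X : Type*} [AddCommGroup X] [Module ℝ X] {A : X → X → X → X → ℝ} (h : Alg4 A)
    (p q : X) : A (p + q) (p + q) (p + q) (p + q) =
      A p p p p + 4 * A p p p q + 6 * A p p q q + 4 * A p q q q + A q q q q := by
  have e1 := h.s34 p p q p
  have e2 := h.s23 p q p p
  have e3 := h.s12 q p p p
  have f1 := h.s23 p q p q
  have f2 := h.s34 p q q p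
  have f3 := h.s12 q p p q
  have f4 := h.s34 q p q p
  have f5 := h.s23 q q p p
  have g1 := h.s12 q p q q
  have g2 := h.s23 q q p q
  have g3 := h.s34 q q q p
  simp only [h.add, cf_add2 h, cf_add3 h, cf_add4 h]
  linarith

/-- convexity makes the fourth order form almost positive on `(x,x,y,y)` when the quadratic form
is small at `y` -/
theorem convex_form {X : Type*} [NormedAddCommGroup X] [NormedSpace ℝ X] (M r η : ℝ)
    (hM : 0 < M) (hr : 0 < r) (hη : 0 < η) :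
    ∃ δ : ℝ, 0 < δ ∧ ∀ (G : X → ℝ), ConvexOn ℝ univ G → ∀ (B : X → X → ℝ)
      (A : X → X → X → X → ℝ), JetW G M r 0 B A →
      ∀ x y, ‖x‖ = 1 → ‖y‖ = 1 → B y y ≤ δ → -η ≤ A x x y y := by
  obtain ⟨k, hk0, hk1, hk2⟩ : ∃ k : ℝ, 0 < k ∧ k ≤ 1 ∧ k ^ 2 * M ≤ 2 * η := by
    refine ⟨min 1 (2 * η / M), lt_min one_pos (by positivity), min_le_left _ _, ?_⟩
    set k := min 1 (2 * η / M) with hk
    have h1 : k ≤ 1 := min_le_left _ _
    have h2 : k ≤ 2 * η / M := min_le_right _ _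
    have h0 : 0 < k := lt_min one_pos (by positivity)
    have h3 : k ^ 2 ≤ 2 * η / M := by nlinarith
    rwa [le_div_iff₀ hM] at h3
  obtain ⟨l, hl0, hl1, hl2⟩ : ∃ l : ℝ, 0 < l ∧ 2 * l ≤ r ∧ 384 * M * l ≤ η * k ^ 2 := by
    refine ⟨min (r / 2) (η * k ^ 2 / (384 * M)), lt_min (by positivity) (by positivity), ?_, ?_⟩
    · have := min_le_left (r / 2) (η * k ^ 2 / (384 * M))
      linarith
    · have := min_le_right (r / 2) (η * k ^ 2 / (384 * M))
      rw [le_div_iff₀ (by positivity)] at this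
      linarith
  refine ⟨η * l ^ 2 / 6, by positivity, ?_⟩
  intro G hG B A hJ x y hx hy hB
  obtain ⟨hB2, hA4, hjet⟩ := hJ
  set s : ℝ := k * l with hs
  have hs0 : 0 < s := by positivity
  have hsl : s ≤ l := by
    rw [hs]; nlinarith
  set p : X := l • x with hp
  set q : X := s • y with hq
  have hpn : ‖p‖ = l := by rw [hp, norm_smul, hx, mul_one, Real.norm_of_nonneg hl0.le]
  have hqn : ‖q‖ = s := by rw [hq, norm_smul, hy, mul_one, Real.norm_of_nonneg hs0.le]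
  have hmid1 : G p ≤ (G (p + q) + G (p - q)) / 2 := by
    have h := hG.2 (mem_univ (p + q)) (mem_univ (p - q))
      (show (0 : ℝ) ≤ 1 / 2 by norm_num) (show (0 : ℝ) ≤ 1 / 2 by norm_num) (by norm_num)
    have e : (1 / 2 : ℝ) • (p + q) + (1 / 2 : ℝ) • (p - q) = p := by module
    rw [e] at h
    simp only [smul_eq_mul] at h
    linarith
  have hmid2 : G (-p) ≤ (G (-(p + q)) + G (-(p - q))) / 2 := by
    have h := hG.2 (mem_univ (-(p + q))) (mem_univ (-(p - q)))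
      (show (0 : ℝ) ≤ 1 / 2 by norm_num) (show (0 : ℝ) ≤ 1 / 2 by norm_num) (by norm_num)
    have e : (1 / 2 : ℝ) • (-(p + q)) + (1 / 2 : ℝ) • (-(p - q)) = -p := by module
    rw [e] at h
    simp only [smul_eq_mul] at h
    linarith
  have hun : ‖p + q‖ ≤ l + s := (norm_add_le _ _).trans (by rw [hpn, hqn])
  have hvn : ‖p - q‖ ≤ l + s := (norm_sub_le _ _).trans (by rw [hpn, hqn])
  have j1 := abs_le.mp (hjet (p + q) (hun.trans (by linarith)))
  have j2 := abs_le.mp (hjet (p - q) (hvn.trans (by linarith)))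
  have j3 := abs_le.mp (hjet p (by rw [hpn]; linarith))
  simp only [zero_add, zero_sub] at j1 j2 j3
  have n1 : M * ‖p + q‖ ^ 5 ≤ M * (l + s) ^ 5 := by gcongr
  have n2 : M * ‖p - q‖ ^ 5 ≤ M * (l + s) ^ 5 := by gcongr
  have n3 : M * ‖p‖ ^ 5 ≤ M * (l + s) ^ 5 := by
    rw [hpn]
    have : l ≤ l + s := by linarith
    gcongr
  -- bilinear part
  have hBadd2 : ∀ a b b' : X, B a (b + b') = B a b + B a b' := fun a b b' => by
    rw [hB2.symm, hB2.add, hB2.symm b, hB2.symm b']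
  have hBs2 : ∀ (t : ℝ) (a b : X), B a (t • b) = t * B a b := fun t a b => by
    rw [hB2.symm, hB2.smul, hB2.symm b]
  have hneg : p - q = p + (-1 : ℝ) • q := by module
  have hBsum : B (p + q) (p + q) + B (p - q) (p - q) - 2 * B p p = 2 * s ^ 2 * B y y := by
    rw [hneg]
    simp only [hB2.add, hBadd2, hB2.smul, hBs2]
    rw [hq]
    simp only [hB2.smul, hBs2]
    ring
  have hAsum : A (p + q) (p + q) (p + q) (p + q) + A (p - q) (p - q) (p - q) (p - q) -
      2 * A p p p p = 12 * (l ^ 2 * s ^ 2) * A x x y y + 2 * s ^ 4 * A y y y y := by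
    rw [hneg, cf_binom hA4.alg, cf_binom hA4.alg]
    simp only [hA4.alg.smul, cf_smul2 hA4.alg, cf_smul3 hA4.alg, cf_smul4 hA4.alg]
    rw [hq, hp]
    simp only [hA4.alg.smul, cf_smul2 hA4.alg, cf_smul3 hA4.alg, cf_smul4 hA4.alg]
    ring
  have hAy : A y y y y ≤ M := by
    have := (abs_le.mp (hA4.bd y y y y)).2
    rw [hy] at this
    linarith
  have main : 0 ≤ 2 * s ^ 2 * B y y + l ^ 2 * s ^ 2 * A x x y y + s ^ 4 / 6 * A y y y y +
      4 * M * (l + s) ^ 5 := by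
    linarith [j1.1, j1.2, j2.1, j2.2, j3.1, j3.2]
  have h5 : (l + s) ^ 5 ≤ 32 * l ^ 5 := by
    have : l + s ≤ 2 * l := by linarith
    calc (l + s) ^ 5 ≤ (2 * l) ^ 5 := by gcongr
      _ = 32 * l ^ 5 := by ring
  have hl2s2 : 0 < l ^ 2 * s ^ 2 := by positivity
  have a1 : 2 * s ^ 2 * B y y ≤ (η / 3) * (l ^ 2 * s ^ 2) := by
    have : 2 * s ^ 2 * B y y ≤ 2 * s ^ 2 * (η * l ^ 2 / 6) :=
      mul_le_mul_of_nonneg_left hB (by positivity)
    linarith
  have a2 : s ^ 4 / 6 * A y y y y ≤ (η / 3) * (l ^ 2 * s ^ 2) := by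
    have h6 : s ^ 4 / 6 * A y y y y ≤ s ^ 4 / 6 * M := mul_le_mul_of_nonneg_left hAy (by positivity)
    have h7 : s ^ 4 / 6 * M = (l ^ 2 * s ^ 2) * (k ^ 2 * M / 6) := by rw [hs]; ring
    have h8 : (l ^ 2 * s ^ 2) * (k ^ 2 * M / 6) ≤ (l ^ 2 * s ^ 2) * (2 * η / 6) :=
      mul_le_mul_of_nonneg_left (by linarith) hl2s2.le
    linarith
  have a3 : 4 * M * (l + s) ^ 5 ≤ (η / 3) * (l ^ 2 * s ^ 2) := by
    have h6 : 4 * M * (l + s) ^ 5 ≤ 4 * M * (32 * l ^ 5) := by gcongr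
    have h7 : 4 * M * (32 * l ^ 5) = (l ^ 4 / 3) * (384 * M * l) := by ring
    have h8 : (l ^ 4 / 3) * (384 * M * l) ≤ (l ^ 4 / 3) * (η * k ^ 2) :=
      mul_le_mul_of_nonneg_left hl2 (by positivity)
    have h9 : (l ^ 4 / 3) * (η * k ^ 2) = (η / 3) * (l ^ 2 * s ^ 2) := by rw [hs]; ring
    linarith
  have fin : 0 ≤ (l ^ 2 * s ^ 2) * (A x x y y + η) := by linarith
  have := nonneg_of_mul_nonneg_right fin hl2s2
  linarith

theorem alg4_smul_all {X : Type*} [AddCommGroup X] [Module ℝ X] {A : X → X → X → X → ℝ} (h : Alg4 A)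
    (t : ℝ) (a : X) : A (t • a) (t • a) (t • a) (t • a) = t ^ 4 * A a a a a := by
  have h2 : ∀ a b c d : X, A a (t • b) c d = t * A a b c d := by
    intro a b c d
    rw [h.s12, h.smul, h.s12]
  have h3 : ∀ a b c d : X, A a b (t • c) d = t * A a b c d := by
    intro a b c d
    rw [h.s23, h2, h.s23]
  have h4 : ∀ a b c d : X, A a b c (t • d) = t * A a b c d := by
    intro a b c d
    rw [h.s34, h3, h.s34]
  rw [h.smul, h2, h3, h4]
  ring

theorem form4_pull {X : Type*} [NormedAddCommGroup X] [NormedSpace ℝ X] {E : Type*}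
    [NormedAddCommGroup E] [NormedSpace ℝ E] (e : E →ₗᵢ[ℝ] X) (M : ℝ) {A : X → X → X → X → ℝ}
    (h : Form4 M A) : Form4 M (fun a b c d => A (e a) (e b) (e c) (e d)) := by
  refine ⟨⟨?_, ?_, ?_, ?_, ?_⟩, ?_⟩
  · intro a a' b c d
    show A (e (a + a')) _ _ _ = _
    rw [map_add, h.alg.add]
  · intro r a b c d
    show A (e (r • a)) _ _ _ = _
    rw [map_smul, h.alg.smul]
  · intro a b c d; exact h.alg.s12 _ _ _ _
  · intro a b c d; exact h.alg.s23 _ _ _ _
  · intro a b c d; exact h.alg.s34 _ _ _ _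
  · intro a b c d
    have := h.bd (e a) (e b) (e c) (e d)
    simpa only [LinearIsometry.norm_map] using this

/-- MAIN TARGET of this job: the path argument -/
theorem path_ext {X : Type*} [NormedAddCommGroup X] [NormedSpace ℝ X] {I : Type*} [DecidableEq I]
    (Y : L4Sys X I) (G₀ : X → ℝ) (S₀ : Finset I) (M r ε R : ℝ) (hM : 0 < M) (hr : 0 < r)
    (hε : 0 < ε) (hR : 0 < R) (hconv : ConvexOn ℝ univ G₀)
    (hjet : ∀ z ∈ Y.T S₀, ‖z‖ ≤ R → Jet G₀ M r z)
    (hgrow : ∀ (S' : Finset I) (y : X), y ∈ Y.T S₀ → y ∈ Y.H S' → ‖y‖ = R →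
      G₀ 0 + ε ≤ (G₀ y + G₀ (-y)) / 2) :
    ∃ c₁ : ℝ, 0 < c₁ ∧ ∀ (E : Type) [NormedAddCommGroup E] [NormedSpace ℝ E],
      Copies Y E → Ext E M c₁ := by
  refine ⟨8 * ε / R ^ 4, by positivity, ?_⟩
  intro E _ _ C η hη
  by_contra hno
  push Not at hno
  obtain ⟨δ₀, hδ₀, hcf⟩ := convex_form (X := X) M r η hM hr hη
  obtain ⟨m, hm⟩ := exists_nat_gt (max (R / r) (2 * M * R ^ 5 / ε))
  have hm1 : R / r < m := (le_max_left _ _).trans_lt hm
  have hm2 : 2 * M * R ^ 5 / ε < m := (le_max_right _ _).trans_lt hm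
  have hm0 : 0 < (m : ℝ) := lt_trans (by positivity) hm1
  obtain ⟨t, ht⟩ : ∃ t : ℝ, t = R / m := ⟨_, rfl⟩
  have ht0 : 0 < t := by rw [ht]; positivity
  have htr : t ≤ r := by
    rw [ht, div_le_iff₀ hm0]
    rw [div_lt_iff₀ hr] at hm1
    linarith
  have htM : M * t * R ^ 4 < ε / 2 := by
    rw [div_lt_iff₀ hε] at hm2
    rw [ht]
    have : M * (R / m) * R ^ 4 = M * R ^ 5 / m := by ring
    rw [this, div_lt_div_iff₀ hm0 (by norm_num)]
    linarith
  obtain ⟨N, hN⟩ : ∃ N : ℕ, N = m ^ 4 := ⟨_, rfl⟩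
  have hNt : (N : ℝ) * t ^ 4 = R ^ 4 := by
    rw [hN, ht]
    push_cast
    field_simp
  have hN0 : 0 < (N : ℝ) := by rw [hN]; push_cast; positivity
  obtain ⟨δ', hδ'⟩ : ∃ δ' : ℝ, δ' = min δ₀ (ε / (4 * N * t ^ 2)) := ⟨_, rfl⟩
  have hδ'0 : 0 < δ' := by rw [hδ']; exact lt_min hδ₀ (by positivity)
  have hδ'1 : δ' ≤ δ₀ := by rw [hδ']; exact min_le_left _ _
  have hδ'2 : N * (δ' * t ^ 2) ≤ ε / 4 := by
    have : δ' ≤ ε / (4 * N * t ^ 2) := by rw [hδ']; exact min_le_right _ _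
    rw [le_div_iff₀ (by positivity)] at this
    linarith
  obtain ⟨κ, hκd⟩ : ∃ κ : ℝ, κ = (δ' * t ^ 2 + (8 * ε / R ^ 4 / 12) * t ^ 4 + M * t ^ 5) / 2 := ⟨_, rfl⟩
  have hκ : N * κ < ε := by
    have e1 : N * κ = (N * (δ' * t ^ 2) + (8 * ε / R ^ 4 / 12) * (N * t ^ 4) + M * t * (N * t ^ 4)) / 2 := by
      rw [hκd]; ring
    rw [e1, hNt]
    have e2 : 8 * ε / R ^ 4 / 12 * R ^ 4 = 2 / 3 * ε := by
      field_simp
      ring
    rw [e2]
    linarith
  have key : ∀ i : ℕ, i ≤ N → ∃ (S : Finset I) (G : X → ℝ), ConvexOn ℝ univ G ∧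
      (∀ z ∈ Y.T S, ‖z‖ ^ 4 + i * t ^ 4 ≤ R ^ 4 → Jet G M r z) ∧
      (∀ (S' : Finset I) (w : X), w ∈ Y.T S → w ∈ Y.H S' → ‖w‖ ^ 4 + i * t ^ 4 = R ^ 4 →
        G₀ 0 + ε ≤ (G w + G (-w)) / 2) ∧ G 0 ≤ G₀ 0 + i * κ := by
    intro i
    induction i with
    | zero =>
      intro _
      refine ⟨S₀, G₀, hconv, ?_, ?_, ?_⟩
      · intro z hz hn
        apply hjet z hz
        simp only [Nat.cast_zero, zero_mul, add_zero] at hn
        exact le_of_pow_le_pow_left₀ (by norm_num) hR.le hn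
      · intro S' w hw hw' hn
        apply hgrow S' w hw hw'
        simp only [Nat.cast_zero, zero_mul, add_zero] at hn
        exact (pow_left_inj₀ (norm_nonneg _) hR.le (by norm_num)).1 hn
      · simp
    | succ i ih =>
      intro hi
      obtain ⟨S, G, hG, hj, hg, h0⟩ := ih (by omega)
      have hiN : (i : ℝ) + 1 ≤ N := by exact_mod_cast hi
      have hj0 : Jet G M r 0 := by
        apply hj 0 (Y.T S).zero_mem
        rw [norm_zero, ← hNt]
        have : (i : ℝ) * t ^ 4 ≤ N * t ^ 4 := by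
          apply mul_le_mul_of_nonneg_right (by linarith) (by positivity)
        linarith
      obtain ⟨B, A, hJ⟩ := hj0
      obtain ⟨c, hc, hBc⟩ := bilin_small Y C M B hJ.1 δ' hδ'0 S
      obtain ⟨z, hz1, hzA⟩ := hno (fun a b c' d => A (C.e c a) (C.e c b) (C.e c c') (C.e c d))
        (form4_pull (C.e c) M hJ.2.1) (by
          intro x y hx hy
          apply hcf G hG B A hJ (C.e c x) (C.e c y)
          · rw [LinearIsometry.norm_map, hx]
          · rw [LinearIsometry.norm_map, hy]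
          · have := hBc y
            rw [hy] at this
            linarith)
      obtain ⟨y, hy⟩ : ∃ y : X, y = t • C.e c z := ⟨_, rfl⟩
      have hyn : ‖y‖ = t := by
        rw [hy, norm_smul, LinearIsometry.norm_map, hz1, mul_one, Real.norm_of_nonneg ht0.le]
      have hyT : y ∈ Y.T S := by
        rw [hy]; exact (Y.T S).smul_mem _ (C.memT c z S hc)
      have hyH : y ∈ Y.H {C.φ c} := by
        rw [hy]; exact (Y.H _).smul_mem _ (C.memH c z)
      have hyH' : y ∈ Y.H (insert (C.φ c) S) := Y.H_mono _ _ (by simp) hyH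
      have hnorm : ∀ w ∈ Y.T (insert (C.φ c) S), ‖w + y‖ ^ 4 = t ^ 4 + ‖w‖ ^ 4 ∧
          ‖w - y‖ ^ 4 = t ^ 4 + ‖w‖ ^ 4 := by
        intro w hw
        constructor
        · rw [add_comm w y, Y.add4 _ y hyH' w hw, hyn]
        · have : w - y = -y + w := by abel
          rw [this, Y.add4 _ (-y) ((Y.H _).neg_mem hyH') w hw, norm_neg, hyn]
      have hmem : ∀ w ∈ Y.T (insert (C.φ c) S), w + y ∈ Y.T S ∧ w - y ∈ Y.T S := by
        intro w hw
        have hw' := Y.T_anti S _ (Finset.subset_insert _ _) hw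
        exact ⟨(Y.T S).add_mem hw' hyT, (Y.T S).sub_mem hw' hyT⟩
      refine ⟨insert (C.φ c) S, Tav y G, convex_tav G y hG, ?_, ?_, ?_⟩
      · intro w hw hn
        push_cast at hn
        have h1 := hnorm w hw
        have h2 := hmem w hw
        apply jet_tav
        · apply hj _ h2.1
          rw [h1.1]; linarith
        · apply hj _ h2.2
          rw [h1.2]; linarith
      · intro S' w hw hwH hn
        push_cast at hn
        have h1 := hnorm w hw
        have h2 := hmem w hw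
        have hwH' : w ∈ Y.H (insert (C.φ c) S') := Y.H_mono _ _ (Finset.subset_insert _ _) hwH
        have hyH2 : y ∈ Y.H (insert (C.φ c) S') := Y.H_mono _ _ (by simp) hyH
        have g1 := hg (insert (C.φ c) S') (w + y) h2.1 ((Y.H _).add_mem hwH' hyH2) (by rw [h1.1]; linarith)
        have g2 := hg (insert (C.φ c) S') (w - y) h2.2 ((Y.H _).sub_mem hwH' hyH2) (by rw [h1.2]; linarith)
        unfold Tav
        have e1 : -(w + y) = -w - y := by abel
        have e2 : -(w - y) = -w + y := by abel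
        rw [e1] at g1
        rw [e2] at g2
        linarith
      · unfold Tav
        have hjj := hJ.2.2 y (by rw [hyn]; exact htr)
        rw [hyn] at hjj
        have hle := (abs_le.mp hjj).2
        have hB1 : B y y ≤ δ' * t ^ 2 := by
          have := hBc (t • z)
          rw [map_smul, norm_smul, hz1, mul_one, Real.norm_of_nonneg ht0.le, ← hy] at this
          exact this
        have hA1 : A y y y y ≤ 8 * ε / R ^ 4 * t ^ 4 := by
          rw [hy, alg4_smul_all hJ.2.1.alg]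
          have := mul_le_mul_of_nonneg_left hzA.le (by positivity : 0 ≤ t ^ 4)
          linarith
        push_cast
        have hkk : κ = (δ' * t ^ 2 + (8 * ε / R ^ 4 / 12) * t ^ 4 + M * t ^ 5) / 2 := hκd
        have : (G (0 + y) + G (0 - y)) / 2 ≤ G 0 + κ := by
          rw [hkk]
          have h8 : 8 * ε / R ^ 4 / 12 * t ^ 4 = (1 / 12) * (8 * ε / R ^ 4 * t ^ 4) := by ring
          rw [h8]
          linarith
        linarith
  obtain ⟨S, G, _, _, hg, h0⟩ := key N le_rfl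
  have := hg ∅ 0 (Y.T S).zero_mem (Y.H _).zero_mem (by rw [norm_zero, hNt]; ring)
  rw [neg_zero] at this
  linarith

/-- invariant of the states of the greedy construction -/
structure LocInv {X : Type*} [NormedAddCommGroup X] [NormedSpace ℝ X] {I : Type*}
    (Y : L4Sys X I) (f : X → ℝ) (a : ℝ) (S : Finset I) (P : Set X) (G : X → ℝ) (ρ : ℝ) :
    Prop where
  ne : P.Nonempty
  fin : P.Finite
  memH : ∀ p ∈ P, p ∈ Y.H S
  nrm : ∀ p ∈ P, ‖p‖ ^ 4 = ρ
  cvx : ConvexOn ℝ univ G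
  low : ∀ z ∈ Y.T S, ∀ s : ℝ, 0 ≤ s → s ^ 4 ≤ ρ + ‖z‖ ^ 4 → a * s ≤ G z
  jet : ∀ (M r : ℝ) (z : X), (∀ p ∈ P, Jet f M r (p + z)) → Jet G M r z

theorem jet_mono_aux {X : Type*} [NormedAddCommGroup X] [NormedSpace ℝ X] {f : X → ℝ}
    {M M' r r' : ℝ} (hM : M ≤ M') (hr : r' ≤ r) {q : X} (h : Jet f M r q) : Jet f M' r' q := by
  obtain ⟨B, A, h2, h4, h5⟩ := h
  refine ⟨B, A, ⟨h2.add, h2.smul, h2.symm, fun a b => ?_⟩, ⟨h4.alg, fun a b c d => ?_⟩,
    fun h hh => ?_⟩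
  · exact (h2.bd a b).trans (mul_le_mul_of_nonneg_right hM (by positivity))
  · exact (h4.bd a b c d).trans (mul_le_mul_of_nonneg_right hM (by positivity))
  · exact (h5 h (hh.trans hr)).trans (mul_le_mul_of_nonneg_right hM (by positivity))

theorem goodAt_mono_aux {X : Type*} [NormedAddCommGroup X] [NormedSpace ℝ X] {f : X → ℝ} {p : X}
    {r r' : ℝ} (h0 : 0 < r') (hr : r' ≤ r) (h : GoodAt f p r) : GoodAt f p r' := by
  intro q hq
  exact jet_mono_aux (one_div_le_one_div_of_le h0 hr) hr (h q (hq.trans hr))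

theorem locInv_init {X : Type*} [NormedAddCommGroup X] [NormedSpace ℝ X] {I : Type*}
    (Y : L4Sys X I) (f : X → ℝ)
    (hadd : ∀ x y, f (x + y) ≤ f x + f y) (hsm : ∀ (r : ℝ) (x : X), f (r • x) = |r| * f x)
    (a : ℝ) (ha : 0 < a) (hlow : ∀ x, a * ‖x‖ ≤ f x)
    (x₀ : X) (S : Finset I) (hx₀S : x₀ ∈ Y.H S) :
    LocInv Y f a S {x₀} (fun z => f (x₀ + z)) (‖x₀‖ ^ 4) where
  ne := ⟨x₀, rfl⟩
  fin := Set.finite_singleton x₀
  memH := by rintro p rfl; exact hx₀S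
  nrm := by rintro p rfl; rfl
  cvx := by
    refine ⟨convex_univ, fun x _ y _ s t hs ht hst => ?_⟩
    have h1 : x₀ + (s • x + t • y) = s • (x₀ + x) + t • (x₀ + y) := by
      have : x₀ = (s + t) • x₀ := by rw [hst, one_smul]
      nth_rw 1 [this]
      module
    show f (x₀ + (s • x + t • y)) ≤ s • f (x₀ + x) + t • f (x₀ + y)
    rw [h1]
    refine (hadd _ _).trans ?_
    rw [hsm, hsm, abs_of_nonneg hs, abs_of_nonneg ht, smul_eq_mul, smul_eq_mul]
  low := by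
    intro z hz s hs h
    rw [← Y.add4 S x₀ hx₀S z hz] at h
    have h1 : s ≤ ‖x₀ + z‖ := le_of_pow_le_pow_left₀ (by norm_num) (norm_nonneg _) h
    exact (mul_le_mul_of_nonneg_left h1 ha.le).trans (hlow _)
  jet := by
    intro M r z h
    obtain ⟨B, A, h2, h4, h5⟩ := h x₀ rfl
    refine ⟨B, A, h2, h4, fun h hh => ?_⟩
    have := h5 h hh
    simp only [← add_assoc, ← add_sub_assoc]
    exact this

theorem locInv_step {X : Type*} [NormedAddCommGroup X] [NormedSpace ℝ X] {I : Type*}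
    [DecidableEq I] (Y : L4Sys X I) (f : X → ℝ) (a : ℝ) (S : Finset I) (P : Set X) (G : X → ℝ)
    (ρ : ℝ) (h : LocInv Y f a S P G ρ) (S' : Finset I) (y : X) (hyT : y ∈ Y.T S)
    (hyH : y ∈ Y.H S') :
    LocInv Y f a (S ∪ S') ((fun p => p + y) '' P ∪ (fun p => p - y) '' P) (Tav y G)
      (ρ + ‖y‖ ^ 4) where
  ne := (h.ne.image _).mono Set.subset_union_left
  fin := (h.fin.image _).union (h.fin.image _)
  memH := by
    have h1 : y ∈ Y.H (S ∪ S') := Y.H_mono _ _ Finset.subset_union_right hyH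
    rintro p (⟨q, hq, rfl⟩ | ⟨q, hq, rfl⟩)
    · exact add_mem (Y.H_mono _ _ Finset.subset_union_left (h.memH q hq)) h1
    · exact sub_mem (Y.H_mono _ _ Finset.subset_union_left (h.memH q hq)) h1
  nrm := by
    rintro p (⟨q, hq, rfl⟩ | ⟨q, hq, rfl⟩)
    · show ‖q + y‖ ^ 4 = _
      rw [Y.add4 S q (h.memH q hq) y hyT, h.nrm q hq]
    · show ‖q - y‖ ^ 4 = _
      rw [sub_eq_add_neg, Y.add4 S q (h.memH q hq) (-y) (neg_mem hyT), h.nrm q hq, norm_neg]
  cvx := convex_tav G y h.cvx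
  low := by
    intro z hz s hs hle
    have hz1 : z ∈ Y.T S := Y.T_anti _ _ Finset.subset_union_left hz
    have hz2 : z ∈ Y.T S' := Y.T_anti _ _ Finset.subset_union_right hz
    have h1 : ‖z + y‖ ^ 4 = ‖y‖ ^ 4 + ‖z‖ ^ 4 := by
      rw [add_comm z y]
      exact Y.add4 S' y hyH z hz2
    have h2 : ‖z - y‖ ^ 4 = ‖y‖ ^ 4 + ‖z‖ ^ 4 := by
      have := Y.add4 S' (-y) (neg_mem hyH) z hz2
      rw [norm_neg] at this
      rw [← this]
      congr 2
      abel
    have h3 : a * s ≤ G (z + y) := h.low _ (add_mem hz1 hyT) s hs (by rw [h1]; linarith)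
    have h4 : a * s ≤ G (z - y) := h.low _ (sub_mem hz1 hyT) s hs (by rw [h2]; linarith)
    show a * s ≤ (G (z + y) + G (z - y)) / 2
    linarith
  jet := by
    intro M r z hj
    refine jet_tav G M r z y (h.jet M r _ fun p hp => ?_) (h.jet M r _ fun p hp => ?_)
    · have := hj (p + y) (Or.inl ⟨p, hp, rfl⟩)
      have e : p + y + z = p + (z + y) := by abel
      rwa [e] at this
    · have := hj (p - y) (Or.inr ⟨p, hp, rfl⟩)
      have e : p - y + z = p + (z - y) := by abel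
      rwa [e] at this

/-- MAIN TARGET of this job: localisation. `hcomp` is the only smoothness input. -/
theorem localise {X : Type*} [NormedAddCommGroup X] [NormedSpace ℝ X] [CompleteSpace X]
    {I : Type*} [DecidableEq I] (Y : L4Sys X I) (f : X → ℝ)
    (hadd : ∀ x y, f (x + y) ≤ f x + f y) (hsm : ∀ (r : ℝ) (x : X), f (r • x) = |r| * f x)
    (a : ℝ) (ha : 0 < a) (hlow : ∀ x, a * ‖x‖ ≤ f x)
    (hcomp : ∀ K : Set X, IsCompact K → (0 : X) ∉ K → ∃ r : ℝ, 0 < r ∧ ∀ p ∈ K, GoodAt f p r)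
    (x₀ : X) (hx₀ : x₀ ≠ 0) (S : Finset I) (hx₀S : x₀ ∈ Y.H S) :
    ∃ (G₀ : X → ℝ) (S₀ : Finset I) (r ε R : ℝ), 0 < r ∧ 0 < ε ∧ 0 < R ∧
      ConvexOn ℝ univ G₀ ∧
      (∀ z ∈ Y.T S₀, ‖z‖ ≤ R → Jet G₀ (1 / r) r z) ∧
      (∀ (S' : Finset I) (y : X), y ∈ Y.T S₀ → y ∈ Y.H S' → ‖y‖ = R →
        G₀ 0 + ε ≤ (G₀ y + G₀ (-y)) / 2) := by
  classical
  by_contra hcon
  have hpow : ∀ r : ℝ, 0 < r → ∃ j : ℕ, (1 / 2 : ℝ) ^ j ≤ r := by
    intro r hr
    obtain ⟨j, hj⟩ := exists_pow_lt_of_lt_one hr (by norm_num : (1 / 2 : ℝ) < 1)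
    exact ⟨j, hj.le⟩
  have hx0pos : 0 < ‖x₀‖ ^ 4 := by
    have := norm_pos_iff.2 hx₀
    positivity
  -- existence of the index
  have hidx : ∀ P : Set X, P.Finite → (∀ p ∈ P, 0 < ‖p‖ ^ 4) →
      ∃ j : ℕ, ∀ p ∈ P, GoodAt f p ((1 / 2 : ℝ) ^ j) := by
    intro P hP hP0
    obtain ⟨r, hr, h⟩ := hcomp P hP.isCompact (fun h0 => by
      have := hP0 0 h0
      simp at this)
    obtain ⟨j, hj⟩ := hpow r hr
    exact ⟨j, fun p hp => goodAt_mono_aux (by positivity) hj (h p hp)⟩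
  -- one step
  have hstep : ∀ (S : Finset I) (P : Set X) (G : X → ℝ) (ρ : ℝ), LocInv Y f a S P G ρ →
      ∀ (r : ℝ), 0 < r → (∀ p ∈ P, GoodAt f p r) → ∀ ε : ℝ, 0 < ε →
      ∃ (S' : Finset I) (y : X), y ∈ Y.T S ∧ y ∈ Y.H S' ∧ ‖y‖ = r ∧ Tav y G 0 ≤ G 0 + ε := by
    intro S P G ρ hI r hr hgood ε hε
    by_contra hno
    apply hcon
    refine ⟨G, S, r, ε, r, hr, hε, hr, hI.cvx, fun z hz hzr => ?_, fun S' y hy hy' hyr => ?_⟩
    · refine hI.jet _ _ _ fun p hp => hgood p hp (p + z) ?_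
      rw [add_sub_cancel_left]
      exact hzr
    · by_contra hlt
      apply hno
      refine ⟨S', y, hy, hy', hyr, ?_⟩
      show (G (0 + y) + G (0 - y)) / 2 ≤ G 0 + ε
      rw [zero_add, zero_sub]
      exact (not_le.1 hlt).le
  -- the states
  let St := {x : Finset I × Set X × (X → ℝ) × ℝ //
    LocInv Y f a x.1 x.2.1 x.2.2.1 x.2.2.2 ∧ ‖x₀‖ ^ 4 ≤ x.2.2.2}
  have hex : ∀ σ : St, ∃ j : ℕ, ∀ p ∈ σ.1.2.1, GoodAt f p ((1 / 2 : ℝ) ^ j) := by
    intro σ
    refine hidx _ σ.2.1.fin fun p hp => ?_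
    rw [σ.2.1.nrm p hp]
    exact hx0pos.trans_le σ.2.2
  have hnext : ∀ (σ : St) (n : ℕ), ∃ σ' : St, ∃ y : X, y ∈ Y.T σ.1.1 ∧
      ‖y‖ = (1 / 2 : ℝ) ^ (Nat.find (hex σ)) ∧ σ.1.1 ⊆ σ'.1.1 ∧
      σ'.1.2.1 = (fun p => p + y) '' σ.1.2.1 ∪ (fun p => p - y) '' σ.1.2.1 ∧
      σ'.1.2.2.2 = σ.1.2.2.2 + ‖y‖ ^ 4 ∧ σ'.1.2.2.1 0 ≤ σ.1.2.2.1 0 + (1 / 4 : ℝ) ^ (n + 1) := by
    intro σ n
    obtain ⟨S', y, h1, h2, h3, h4⟩ := hstep _ _ _ _ σ.2.1 ((1 / 2 : ℝ) ^ (Nat.find (hex σ)))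
      (by positivity) (Nat.find_spec (hex σ)) ((1 / 4 : ℝ) ^ (n + 1)) (by positivity)
    refine ⟨⟨(σ.1.1 ∪ S', (fun p => p + y) '' σ.1.2.1 ∪ (fun p => p - y) '' σ.1.2.1,
      Tav y σ.1.2.2.1, σ.1.2.2.2 + ‖y‖ ^ 4), locInv_step Y f a _ _ _ _ σ.2.1 S' y h1 h2, ?_⟩,
      y, h1, h3, Finset.subset_union_left, rfl, rfl, h4⟩
    have := σ.2.2
    have h5 : 0 ≤ ‖y‖ ^ 4 := by positivity
    show ‖x₀‖ ^ 4 ≤ σ.1.2.2.2 + ‖y‖ ^ 4
    linarith
  choose nxt ynx hn using hnext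
  let σ : ℕ → St := fun n => Nat.rec
    ⟨(S, {x₀}, (fun z => f (x₀ + z)), ‖x₀‖ ^ 4),
      locInv_init Y f hadd hsm a ha hlow x₀ S hx₀S, le_rfl⟩ (fun n s => nxt s n) n
  have hσ0 : σ 0 = ⟨(S, {x₀}, (fun z => f (x₀ + z)), ‖x₀‖ ^ 4),
      locInv_init Y f hadd hsm a ha hlow x₀ S hx₀S, le_rfl⟩ := rfl
  have hσs : ∀ n, σ (n + 1) = nxt (σ n) n := fun n => rfl
  set y : ℕ → X := fun n => ynx (σ n) n with hy
  have hs : ∀ n, y n ∈ Y.T (σ n).1.1 ∧
      ‖y n‖ = (1 / 2 : ℝ) ^ (Nat.find (hex (σ n))) ∧ (σ n).1.1 ⊆ (σ (n + 1)).1.1 ∧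
      (σ (n + 1)).1.2.1 = (fun p => p + y n) '' (σ n).1.2.1 ∪ (fun p => p - y n) '' (σ n).1.2.1 ∧
      (σ (n + 1)).1.2.2.2 = (σ n).1.2.2.2 + ‖y n‖ ^ 4 ∧
      (σ (n + 1)).1.2.2.1 0 ≤ (σ n).1.2.2.1 0 + (1 / 4 : ℝ) ^ (n + 1) := by
    intro n
    rw [hσs]
    exact hn (σ n) n
  set ρ : ℕ → ℝ := fun n => (σ n).1.2.2.2 with hρ
  have hρs : ∀ n, ρ (n + 1) = ρ n + ‖y n‖ ^ 4 := fun n => (hs n).2.2.2.2.1
  have hρmono : Monotone ρ := monotone_nat_of_le_succ fun n => by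
    rw [hρs]
    have : 0 ≤ ‖y n‖ ^ 4 := by positivity
    linarith
  have hfx0 : 0 ≤ f x₀ := le_trans (by positivity) (hlow x₀)
  have hG : ∀ n, (σ n).1.2.2.1 0 ≤ f x₀ + (1 / 3 - (1 / 3) * (1 / 4 : ℝ) ^ n) := by
    intro n
    induction n with
    | zero =>
      rw [hσ0]
      simp
    | succ n ih =>
      have h1 := (hs n).2.2.2.2.2
      have h2 : (1 / 4 : ℝ) ^ (n + 1) = (1 / 4) * (1 / 4 : ℝ) ^ n := by ring
      rw [h2] at h1 ⊢
      linarith
  set s0 : ℝ := (f x₀ + 1 / 3) / a + 1 with hs0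
  have hs0pos : 0 ≤ s0 := by positivity
  have hρbd : ∀ n, ρ n ≤ s0 ^ 4 := by
    intro n
    by_contra hlt
    have h1 : s0 ^ 4 ≤ ρ n := (not_le.1 hlt).le
    have h2 := (σ n).2.1.low 0 (Submodule.zero_mem _) s0 hs0pos (by
      rw [norm_zero]
      simpa using h1)
    have h3 := hG n
    have h4 : 0 ≤ (1 / 4 : ℝ) ^ n := by positivity
    have h5 : a * s0 = f x₀ + 1 / 3 + a := by
      rw [hs0]
      field_simp
    linarith
  have hbdd : BddAbove (Set.range ρ) := ⟨s0 ^ 4, by rintro _ ⟨n, rfl⟩; exact hρbd n⟩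
  have hSmono : ∀ k l, k ≤ l → (σ k).1.1 ⊆ (σ l).1.1 := by
    intro k l hkl
    induction l, hkl using Nat.le_induction with
    | base => exact Finset.Subset.refl _
    | succ l _ ih => exact ih.trans (hs l).2.2.1
  have hnear : ∀ k l, k ≤ l → ∀ p ∈ (σ l).1.2.1, ∃ q ∈ (σ k).1.2.1, p - q ∈ Y.T (σ k).1.1 := by
    intro k l hkl
    induction l, hkl using Nat.le_induction with
    | base => exact fun p hp => ⟨p, hp, by rw [sub_self]; exact Submodule.zero_mem _⟩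
    | succ l hkl ih =>
      intro p hp
      rw [(hs l).2.2.2.1] at hp
      have hyT : y l ∈ Y.T (σ k).1.1 := Y.T_anti _ _ (hSmono k l hkl) (hs l).1
      rcases hp with ⟨p', hp', rfl⟩ | ⟨p', hp', rfl⟩
      · obtain ⟨q, hq, hq'⟩ := ih p' hp'
        refine ⟨q, hq, ?_⟩
        have e : p' + y l - q = (p' - q) + y l := by abel
        show p' + y l - q ∈ _
        rw [e]
        exact add_mem hq' hyT
      · obtain ⟨q, hq, hq'⟩ := ih p' hp'
        refine ⟨q, hq, ?_⟩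
        have e : p' - y l - q = (p' - q) - y l := by abel
        show p' - y l - q ∈ _
        rw [e]
        exact sub_mem hq' hyT
  have hnear' : ∀ k l, k ≤ l → ∀ p ∈ (σ l).1.2.1, ∃ q ∈ (σ k).1.2.1,
      ‖p - q‖ ^ 4 = ρ l - ρ k := by
    intro k l hkl p hp
    obtain ⟨q, hq, hq'⟩ := hnear k l hkl p hp
    refine ⟨q, hq, ?_⟩
    have h1 := Y.add4 (σ k).1.1 q ((σ k).2.1.memH q hq) (p - q) hq'
    rw [add_sub_cancel, (σ l).2.1.nrm p hp, (σ k).2.1.nrm q hq] at h1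
    show _ = (σ l).1.2.2.2 - (σ k).1.2.2.2
    linarith
  set U : Set X := ⋃ n, (σ n).1.2.1 with hU
  have hUtb : TotallyBounded U := by
    rw [Metric.totallyBounded_iff]
    intro δ hδ
    have hsup : ⨆ n, ρ n - δ ^ 4 < ⨆ n, ρ n := by
      have : (⨆ n, ρ n - δ ^ 4) ≤ (⨆ n, ρ n) - δ ^ 4 := by
        refine ciSup_le fun n => ?_
        have := le_ciSup hbdd n
        linarith
      have h4 : 0 < δ ^ 4 := by positivity
      linarith
    have hsup' : (⨆ n, ρ n) - δ ^ 4 < ⨆ n, ρ n := by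
      have h4 : 0 < δ ^ 4 := by positivity
      linarith
    obtain ⟨k, hk⟩ := exists_lt_of_lt_ciSup hsup'
    refine ⟨⋃ n ∈ Finset.range (k + 1), (σ n).1.2.1,
      Set.Finite.biUnion (Finset.finite_toSet _) fun n _ => (σ n).2.1.fin, ?_⟩
    intro p hp
    obtain ⟨l, hl⟩ := Set.mem_iUnion.1 hp
    rcases le_total k l with hkl | hkl
    · obtain ⟨q, hq, hpq⟩ := hnear' k l hkl p hl
      refine Set.mem_iUnion₂.2 ⟨q, Set.mem_iUnion₂.2 ⟨k, Finset.mem_range.2 (by omega), hq⟩, ?_⟩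
      rw [Metric.mem_ball, dist_eq_norm]
      have h1 : ‖p - q‖ ^ 4 < δ ^ 4 := by
        rw [hpq]
        have := le_ciSup hbdd l
        linarith
      exact lt_of_pow_lt_pow_left₀ 4 hδ.le h1
    · refine Set.mem_iUnion₂.2 ⟨p, Set.mem_iUnion₂.2 ⟨l, Finset.mem_range.2 (by omega), hl⟩, ?_⟩
      exact Metric.mem_ball_self hδ
  have hKc : IsCompact (closure U) :=
    hUtb.closure.isCompact_of_isClosed isClosed_closure
  have hK0 : (0 : X) ∉ closure U := by
    have h1 : closure U ⊆ {x | ‖x₀‖ ≤ ‖x‖} := by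
      refine closure_minimal ?_ (isClosed_le continuous_const continuous_norm)
      intro p hp
      obtain ⟨l, hl⟩ := Set.mem_iUnion.1 hp
      have h2 := (σ l).2.1.nrm p hl
      have h3 := (σ l).2.2
      rw [← h2] at h3
      exact le_of_pow_le_pow_left₀ (by norm_num) (norm_nonneg _) h3
    intro h0
    have h2 := h1 h0
    simp only [Set.mem_ofPred_eq, norm_zero] at h2
    exact hx₀ (norm_le_zero_iff.1 h2)
  obtain ⟨r, hr, hgood⟩ := hcomp _ hKc hK0
  obtain ⟨J, hJ⟩ := hpow r hr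
  have hfind : ∀ n, Nat.find (hex (σ n)) ≤ J := by
    intro n
    refine Nat.find_min' _ fun p hp => ?_
    exact goodAt_mono_aux (by positivity) hJ
      (hgood p (subset_closure (Set.mem_iUnion.2 ⟨n, hp⟩)))
  have hyn : ∀ n, (1 / 2 : ℝ) ^ J ≤ ‖y n‖ := by
    intro n
    rw [(hs n).2.1]
    exact pow_le_pow_of_le_one (by norm_num) (by norm_num) (hfind n)
  have hgrow : ∀ n : ℕ, (n : ℝ) * ((1 / 2 : ℝ) ^ J) ^ 4 ≤ ρ n := by
    intro n
    induction n with
    | zero =>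
      have := (σ 0).2.2
      simp only [Nat.cast_zero, zero_mul]
      exact hx0pos.le.trans this
    | succ n ih =>
      rw [hρs]
      have h1 : ((1 / 2 : ℝ) ^ J) ^ 4 ≤ ‖y n‖ ^ 4 := by
        have := hyn n
        gcongr
      push_cast
      linarith
  have hc : 0 < ((1 / 2 : ℝ) ^ J) ^ 4 := by positivity
  obtain ⟨n, hn⟩ := exists_nat_gt (s0 ^ 4 / ((1 / 2 : ℝ) ^ J) ^ 4)
  rw [div_lt_iff₀ hc] at hn
  have := hgrow n
  have := hρbd n
  linarith


end Pool.Agent.Helper964.Ros
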