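import Mathlib
import Pool.Agent.Helper964.Ros.Defs
import Pool.Agent.Helper964.Ros.Analysis

set_option autoImplicit false

namespace Pool.Agent.Helper964.Ros

open Set

/-- the symmetrised four jet of `G` at `z` with error `θ ‖h‖^4` -/
def UJetW {X : Type*} [NormedAddCommGroup X] [NormedSpace ℝ X] (G : X → ℝ) (M θ r : ℝ) (z : X)
    (B : X → X → ℝ) (A : X → X → X → X → ℝ) : Prop :=
  Form2 M B ∧ Form4 M A ∧ ∀ h, ‖h‖ ≤ r →
    |G (z + h) + G (z - h) - 2 * G z - B h h - (1 / 12) * A h h h h| ≤ θ * ‖h‖ ^ 4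

def UJet {X : Type*} [NormedAddCommGroup X] [NormedSpace ℝ X] (G : X → ℝ) (M θ r : ℝ) (z : X) :
    Prop :=
  ∃ (B : X → X → ℝ) (A : X → X → X → X → ℝ), UJetW G M θ r z B A

/-- bounded forms near `p`, with uniform four jets on compact sets near `p` -/
def GoodR {X : Type*} [NormedAddCommGroup X] [NormedSpace ℝ X] (f : X → ℝ) (p : X) (r : ℝ) :
    Prop :=
  ∀ K' : Set X, IsCompact K' → (∀ q ∈ K', ‖q - p‖ ≤ r) → ∀ θ : ℝ, 0 < θ →
    ∃ r' : ℝ, 0 < r' ∧ ∀ q ∈ K', UJet f (1 / r) θ r' q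

/-- invariant of the states of the greedy construction -/
structure LocInv4 {X : Type*} [NormedAddCommGroup X] [NormedSpace ℝ X] {I : Type*}
    (Y : L4Sys X I) (f : X → ℝ) (S : Finset I) (P : Set X) (G : X → ℝ) (ρ : ℝ) :
    Prop where
  ne : P.Nonempty
  fin : P.Finite
  memH : ∀ p ∈ P, p ∈ Y.H S
  nrm : ∀ p ∈ P, ‖p‖ ^ 4 = ρ
  cvx : ConvexOn ℝ univ G
  jet : ∀ (M θ r : ℝ) (z : X), (∀ p ∈ P, UJet f M θ r (p + z)) → UJet G M θ r z

theorem cf4_add2 {X : Type*} [AddCommGroup X] [Module ℝ X] {A : X → X → X → X → ℝ} (h : Alg4 A)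
    (a b b' c d : X) : A a (b + b') c d = A a b c d + A a b' c d := by
  rw [h.s12 a, h.add, h.s12 b, h.s12 b']

theorem cf4_add3 {X : Type*} [AddCommGroup X] [Module ℝ X] {A : X → X → X → X → ℝ} (h : Alg4 A)
    (a b c c' d : X) : A a b (c + c') d = A a b c d + A a b c' d := by
  rw [h.s23 a b, cf4_add2 h, h.s23 a c, h.s23 a c']

theorem cf4_add4 {X : Type*} [AddCommGroup X] [Module ℝ X] {A : X → X → X → X → ℝ} (h : Alg4 A)
    (a b c d d' : X) : A a b c (d + d') = A a b c d + A a b c d' := by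
  rw [h.s34 a b c, cf4_add3 h, h.s34 a b d, h.s34 a b d']

theorem cf4_smul2 {X : Type*} [AddCommGroup X] [Module ℝ X] {A : X → X → X → X → ℝ} (h : Alg4 A)
    (r : ℝ) (a b c d : X) : A a (r • b) c d = r * A a b c d := by
  rw [h.s12 a, h.smul, h.s12 b]

theorem cf4_smul3 {X : Type*} [AddCommGroup X] [Module ℝ X] {A : X → X → X → X → ℝ} (h : Alg4 A)
    (r : ℝ) (a b c d : X) : A a b (r • c) d = r * A a b c d := by
  rw [h.s23 a b, cf4_smul2 h, h.s23 a c]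

theorem cf4_smul4 {X : Type*} [AddCommGroup X] [Module ℝ X] {A : X → X → X → X → ℝ} (h : Alg4 A)
    (r : ℝ) (a b c d : X) : A a b c (r • d) = r * A a b c d := by
  rw [h.s34 a b c, cf4_smul3 h, h.s34 a b d]

theorem cf4_binom {X : Type*} [AddCommGroup X] [Module ℝ X] {A : X → X → X → X → ℝ} (h : Alg4 A)
    (p q : X) : A (p + q) (p + q) (p + q) (p + q) =
      A p p p p + 4 * A p p p q + 6 * A p p q q + 4 * A p q q q + A q q q q := by
  have e1 := h.s34 p p q p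
  have e2 := h.s23 p q p p
  have e3 := h.s12 q p p p
  have f1 := h.s23 p q p q
  have f2 := h.s34 p q q p
  have f3 := h.s12 q p p q
  have f4 := h.s34 q p q p
  have f5 := h.s23 q q p p
  have g1 := h.s12 q p q q
  have g2 := h.s23 q q p q
  have g3 := h.s34 q q q p
  simp only [h.add, cf4_add2 h, cf4_add3 h, cf4_add4 h]
  linarith

/-- jets are stable under averaging -/
theorem ujet_tav {X : Type*} [NormedAddCommGroup X] [NormedSpace ℝ X] (G : X → ℝ) (M θ r : ℝ)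
    (z y : X) (h1 : UJet G M θ r (z + y)) (h2 : UJet G M θ r (z - y)) :
    UJet (Tav y G) M θ r z := by
  obtain ⟨B1, A1, hB1, hA1, hj1⟩ := h1
  obtain ⟨B2, A2, hB2, hA2, hj2⟩ := h2
  refine ⟨fun a b => (B1 a b + B2 a b) / 2, fun a b c d => (A1 a b c d + A2 a b c d) / 2,
    ⟨?_, ?_, ?_, ?_⟩, ⟨⟨?_, ?_, ?_, ?_, ?_⟩, ?_⟩, ?_⟩
  · intro a a' b
    simp only [hB1.add, hB2.add]
    ring
  · intro t a b
    simp only [hB1.smul, hB2.smul]
    ring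
  · intro a b
    simp only [hB1.symm a b, hB2.symm a b]
  · intro a b
    have e1 := abs_le.1 (hB1.bd a b)
    have e2 := abs_le.1 (hB2.bd a b)
    rw [abs_le]
    constructor <;> linarith [e1.1, e1.2, e2.1, e2.2]
  · intro a a' b c d
    simp only [hA1.alg.add, hA2.alg.add]
    ring
  · intro t a b c d
    simp only [hA1.alg.smul, hA2.alg.smul]
    ring
  · intro a b c d
    simp only [hA1.alg.s12 a b, hA2.alg.s12 a b]
  · intro a b c d
    simp only [hA1.alg.s23 a b, hA2.alg.s23 a b]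
  · intro a b c d
    simp only [hA1.alg.s34 a b c d, hA2.alg.s34 a b c d]
  · intro a b c d
    have e1 := abs_le.1 (hA1.bd a b c d)
    have e2 := abs_le.1 (hA2.bd a b c d)
    rw [abs_le]
    constructor <;> linarith [e1.1, e1.2, e2.1, e2.2]
  · intro h hh
    have e1 := abs_le.1 (hj1 h hh)
    have e2 := abs_le.1 (hj2 h hh)
    have p1 : z + h + y = z + y + h := by abel
    have p2 : z + h - y = z - y + h := by abel
    have p3 : z - h + y = z + y - h := by abel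
    have p4 : z - h - y = z - y - h := by abel
    unfold Tav
    rw [p1, p2, p3, p4, abs_le]
    constructor <;> linarith [e1.1, e1.2, e2.1, e2.2]

/-- convexity makes the fourth order form almost positive on `(x,x,y,y)` when the quadratic form
is small at `y` and the error of the jet is small -/
theorem convex_form4 {X : Type*} [NormedAddCommGroup X] [NormedSpace ℝ X] (M η : ℝ)
    (hM : 0 < M) (hη : 0 < η) :
    ∃ θ₀ : ℝ, 0 < θ₀ ∧ ∀ r : ℝ, 0 < r → ∃ δ : ℝ, 0 < δ ∧ ∀ (G : X → ℝ), ConvexOn ℝ univ G →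
      ∀ (B : X → X → ℝ) (A : X → X → X → X → ℝ), UJetW G M θ₀ r 0 B A →
      ∀ x y, ‖x‖ = 1 → ‖y‖ = 1 → B y y ≤ δ → -η ≤ A x x y y := by
  obtain ⟨k, hk0, hk1, hk2⟩ : ∃ k : ℝ, 0 < k ∧ k ≤ 1 ∧ k ^ 2 * M ≤ 2 * η := by
    refine ⟨min 1 (2 * η / M), lt_min one_pos (by positivity), min_le_left _ _, ?_⟩
    set k := min 1 (2 * η / M) with hk
    have h1 : k ≤ 1 := min_le_left _ _
    have h2 : k ≤ 2 * η / M := min_le_right _ _
    have h0 : 0 < k := lt_min one_pos (by positivity)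
    have h3 : k ^ 2 ≤ 2 * η / M := by nlinarith
    rwa [le_div_iff₀ hM] at h3
  obtain ⟨θ, hθ⟩ : ∃ θ : ℝ, θ = η * k ^ 2 / 192 := ⟨_, rfl⟩
  have hθ0 : 0 < θ := by rw [hθ]; positivity
  refine ⟨θ, hθ0, ?_⟩
  intro r hr
  obtain ⟨l, hl0, hl1⟩ : ∃ l : ℝ, 0 < l ∧ 2 * l ≤ r := ⟨r / 2, by positivity, by linarith⟩
  refine ⟨η * l ^ 2 / 6, by positivity, ?_⟩
  intro G hG B A hJ x y hx hy hB
  obtain ⟨hB2, hA4, hjet⟩ := hJ
  set s : ℝ := k * l with hs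
  have hs0 : 0 < s := by positivity
  have hsl : s ≤ l := by
    rw [hs]; nlinarith
  set p : X := l • x with hp
  set q : X := s • y with hq
  have hpn : ‖p‖ = l := by rw [hp, norm_smul, hx, mul_one, Real.norm_of_nonneg hl0.le]
  have hqn : ‖q‖ = s := by rw [hq, norm_smul, hy, mul_one, Real.norm_of_nonneg hs0.le]
  have hmid1 : G p ≤ (G (p + q) + G (p - q)) / 2 := by
    have h := hG.2 (mem_univ (p + q)) (mem_univ (p - q))
      (show (0 : ℝ) ≤ 1 / 2 by norm_num) (show (0 : ℝ) ≤ 1 / 2 by norm_num) (by norm_num)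
    have e : (1 / 2 : ℝ) • (p + q) + (1 / 2 : ℝ) • (p - q) = p := by module
    rw [e] at h
    simp only [smul_eq_mul] at h
    linarith
  have hmid2 : G (-p) ≤ (G (-(p + q)) + G (-(p - q))) / 2 := by
    have h := hG.2 (mem_univ (-(p + q))) (mem_univ (-(p - q)))
      (show (0 : ℝ) ≤ 1 / 2 by norm_num) (show (0 : ℝ) ≤ 1 / 2 by norm_num) (by norm_num)
    have e : (1 / 2 : ℝ) • (-(p + q)) + (1 / 2 : ℝ) • (-(p - q)) = -p := by module
    rw [e] at h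
    simp only [smul_eq_mul] at h
    linarith
  have hun : ‖p + q‖ ≤ l + s := (norm_add_le _ _).trans (by rw [hpn, hqn])
  have hvn : ‖p - q‖ ≤ l + s := (norm_sub_le _ _).trans (by rw [hpn, hqn])
  have j1 := abs_le.mp (hjet (p + q) (hun.trans (by linarith)))
  have j2 := abs_le.mp (hjet (p - q) (hvn.trans (by linarith)))
  have j3 := abs_le.mp (hjet p (by rw [hpn]; linarith))
  simp only [zero_add, zero_sub] at j1 j2 j3
  have n1 : θ * ‖p + q‖ ^ 4 ≤ θ * (l + s) ^ 4 := by gcongr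
  have n2 : θ * ‖p - q‖ ^ 4 ≤ θ * (l + s) ^ 4 := by gcongr
  have n3 : θ * ‖p‖ ^ 4 ≤ θ * (l + s) ^ 4 := by
    rw [hpn]
    have : l ≤ l + s := by linarith
    gcongr
  -- bilinear part
  have hBadd2 : ∀ a b b' : X, B a (b + b') = B a b + B a b' := fun a b b' => by
    rw [hB2.symm, hB2.add, hB2.symm b, hB2.symm b']
  have hBs2 : ∀ (t : ℝ) (a b : X), B a (t • b) = t * B a b := fun t a b => by
    rw [hB2.symm, hB2.smul, hB2.symm b]
  have hneg : p - q = p + (-1 : ℝ) • q := by module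
  have hBsum : B (p + q) (p + q) + B (p - q) (p - q) - 2 * B p p = 2 * s ^ 2 * B y y := by
    rw [hneg]
    simp only [hB2.add, hBadd2, hB2.smul, hBs2]
    rw [hq]
    simp only [hB2.smul, hBs2]
    ring
  have hAsum : A (p + q) (p + q) (p + q) (p + q) + A (p - q) (p - q) (p - q) (p - q) -
      2 * A p p p p = 12 * (l ^ 2 * s ^ 2) * A x x y y + 2 * s ^ 4 * A y y y y := by
    rw [hneg, cf4_binom hA4.alg, cf4_binom hA4.alg]
    simp only [hA4.alg.smul, cf4_smul2 hA4.alg, cf4_smul3 hA4.alg, cf4_smul4 hA4.alg]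
    rw [hq, hp]
    simp only [hA4.alg.smul, cf4_smul2 hA4.alg, cf4_smul3 hA4.alg, cf4_smul4 hA4.alg]
    ring
  have hAy : A y y y y ≤ M := by
    have := (abs_le.mp (hA4.bd y y y y)).2
    rw [hy] at this
    linarith
  have main : 0 ≤ 2 * s ^ 2 * B y y + l ^ 2 * s ^ 2 * A x x y y + s ^ 4 / 6 * A y y y y +
      4 * θ * (l + s) ^ 4 := by
    linarith [j1.1, j1.2, j2.1, j2.2, j3.1, j3.2]
  have h5 : (l + s) ^ 4 ≤ 16 * l ^ 4 := by
    have : l + s ≤ 2 * l := by linarith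
    calc (l + s) ^ 4 ≤ (2 * l) ^ 4 := by gcongr
      _ = 16 * l ^ 4 := by ring
  have hl2s2 : 0 < l ^ 2 * s ^ 2 := by positivity
  have a1 : 2 * s ^ 2 * B y y ≤ (η / 3) * (l ^ 2 * s ^ 2) := by
    have : 2 * s ^ 2 * B y y ≤ 2 * s ^ 2 * (η * l ^ 2 / 6) :=
      mul_le_mul_of_nonneg_left hB (by positivity)
    linarith
  have a2 : s ^ 4 / 6 * A y y y y ≤ (η / 3) * (l ^ 2 * s ^ 2) := by
    have h6 : s ^ 4 / 6 * A y y y y ≤ s ^ 4 / 6 * M := mul_le_mul_of_nonneg_left hAy (by positivity)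
    have h7 : s ^ 4 / 6 * M = (l ^ 2 * s ^ 2) * (k ^ 2 * M / 6) := by rw [hs]; ring
    have h8 : (l ^ 2 * s ^ 2) * (k ^ 2 * M / 6) ≤ (l ^ 2 * s ^ 2) * (2 * η / 6) :=
      mul_le_mul_of_nonneg_left (by linarith) hl2s2.le
    linarith
  have a3 : 4 * θ * (l + s) ^ 4 ≤ (η / 3) * (l ^ 2 * s ^ 2) := by
    have h6 : 4 * θ * (l + s) ^ 4 ≤ 4 * θ * (16 * l ^ 4) := by gcongr
    have h7 : 4 * θ * (16 * l ^ 4) = (η / 3) * (l ^ 2 * s ^ 2) := by rw [hθ, hs]; ring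
    linarith
  have fin : 0 ≤ (l ^ 2 * s ^ 2) * (A x x y y + η) := by linarith
  have := nonneg_of_mul_nonneg_right fin hl2s2
  linarith

theorem ujet_rem {X : Type*} [NormedAddCommGroup X] [NormedSpace ℝ X] (f : X → ℝ) (q : X)
    (θ r : ℝ) (hC : ∀ q', ‖q' - q‖ ≤ r → ContDiffAt ℝ 4 f q')
    (h5 : ∀ q', ‖q' - q‖ ≤ r → ‖iteratedFDeriv ℝ 4 f q' - iteratedFDeriv ℝ 4 f q‖ ≤ θ)
    (y : X) (hy : ‖y‖ ≤ r) :
    |f (q + y) - (f q + iteratedFDeriv ℝ 1 f q (fun _ => y)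
      + (1 / 2) * iteratedFDeriv ℝ 2 f q (fun _ => y)
      + (1 / 6) * iteratedFDeriv ℝ 3 f q (fun _ => y)
      + (1 / 24) * iteratedFDeriv ℝ 4 f q (fun _ => y))| ≤ (1 / 6) * (θ * ‖y‖ ^ 4) := by
  have hr : ∀ t ∈ Set.Icc (0 : ℝ) 1, ‖(q + t • y) - q‖ ≤ r := by
    intro t ht
    rw [add_sub_cancel_left, norm_smul, Real.norm_eq_abs, abs_of_nonneg ht.1]
    calc t * ‖y‖ ≤ 1 * ‖y‖ := mul_le_mul_of_nonneg_right ht.2 (norm_nonneg _)
      _ = ‖y‖ := one_mul _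
      _ ≤ r := hy
  have key := map_add_eq_sum_add_integral_iteratedFDeriv (f := f) (x := q) (y := y) (n := 3)
    (fun t ht => by
      have := hC (q + t • y) (hr t ht)
      norm_num
      exact this)
  obtain ⟨c, hc⟩ : ∃ c : ℝ, c = iteratedFDeriv ℝ 4 f q (fun _ => y) := ⟨_, rfl⟩
  obtain ⟨g, hg⟩ : ∃ g : ℝ → ℝ, g = fun t => iteratedFDeriv ℝ 4 f (q + t • y) (fun _ => y) :=
    ⟨_, rfl⟩
  have hgc : ContinuousOn g (Set.Icc 0 1) := by
    intro t ht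
    apply ContinuousAt.continuousWithinAt
    have h1 : ContDiffAt ℝ 0 (iteratedFDeriv ℝ 4 f) (q + t • y) :=
      (hC (q + t • y) (hr t ht)).iteratedFDeriv_right (by norm_num)
    have h2 : ContinuousAt (fun t : ℝ => iteratedFDeriv ℝ 4 f (q + t • y)) t := by
      refine ContinuousAt.comp (g := iteratedFDeriv ℝ 4 f) (f := fun t : ℝ => q + t • y)
        h1.continuousAt ?_
      fun_prop
    rw [hg]
    exact (ContinuousMultilinearMap.apply ℝ (fun _ : Fin 4 => X) ℝ (fun _ => y)).continuous.continuousAt.comp h2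
  have hi1 : IntervalIntegrable (fun t : ℝ => (1 - t) ^ 3 • g t) MeasureTheory.volume 0 1 := by
    apply ContinuousOn.intervalIntegrable
    rw [Set.uIcc_of_le zero_le_one]
    exact (((continuous_const.sub continuous_id).pow 3).continuousOn).smul hgc
  have hi2 : IntervalIntegrable (fun t : ℝ => (1 - t) ^ 3 • c) MeasureTheory.volume 0 1 := by
    apply Continuous.intervalIntegrable
    fun_prop
  have hI : ∫ t in (0 : ℝ)..1, (1 - t) ^ 3 • c = (1 / 4) * c := by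
    have h1 : ∫ t in (0 : ℝ)..1, (1 - t) ^ 3 = 1 / 4 := by
      rw [intervalIntegral.integral_comp_sub_left (fun t : ℝ => t ^ 3) 1, integral_pow]
      norm_num
    rw [intervalIntegral.integral_smul_const, h1, smul_eq_mul]
  have hsub : ∫ t in (0 : ℝ)..1, (1 - t) ^ 3 • (g t - c) =
      (∫ t in (0 : ℝ)..1, (1 - t) ^ 3 • g t) - (1 / 4) * c := by
    simp only [smul_sub]
    rw [intervalIntegral.integral_sub hi1 hi2, hI]
  have hθ : 0 ≤ θ := (norm_nonneg _).trans (h5 q (by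
    rw [sub_self, norm_zero]; exact (norm_nonneg _).trans hy))
  have hint : ‖∫ t in (0 : ℝ)..1, (1 - t) ^ 3 • (g t - c)‖ ≤ θ * ‖y‖ ^ 4 * |(1 : ℝ) - 0| := by
    apply intervalIntegral.norm_integral_le_of_norm_le_const
    intro t ht
    rw [Set.uIoc_of_le zero_le_one] at ht
    have ht' : t ∈ Set.Icc (0 : ℝ) 1 := ⟨ht.1.le, ht.2⟩
    rw [norm_smul, norm_pow, Real.norm_eq_abs, abs_of_nonneg (by linarith [ht.2])]
    have h1 : (1 - t) ^ 3 ≤ 1 := pow_le_one₀ (by linarith [ht.2]) (by linarith [ht.1])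
    have h2 : ‖g t - c‖ ≤ θ * ‖y‖ ^ 4 := by
      have e1 : g t - c = (iteratedFDeriv ℝ 4 f (q + t • y) - iteratedFDeriv ℝ 4 f q)
          (fun _ => y) := by
        rw [hg, hc, ContinuousMultilinearMap.sub_apply]
      rw [e1]
      refine (ContinuousMultilinearMap.le_opNorm _ _).trans ?_
      rw [Finset.prod_const, Finset.card_univ, Fintype.card_fin]
      exact mul_le_mul_of_nonneg_right (h5 _ (hr t ht')) (by positivity)
    calc (1 - t) ^ 3 * ‖g t - c‖ ≤ 1 * ‖g t - c‖ :=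
          mul_le_mul_of_nonneg_right h1 (norm_nonneg _)
      _ ≤ θ * ‖y‖ ^ 4 := by rw [one_mul]; exact h2
  have hsum : f (q + y) - (f q + iteratedFDeriv ℝ 1 f q (fun _ => y)
      + (1 / 2) * iteratedFDeriv ℝ 2 f q (fun _ => y)
      + (1 / 6) * iteratedFDeriv ℝ 3 f q (fun _ => y)
      + (1 / 24) * iteratedFDeriv ℝ 4 f q (fun _ => y))
      = (1 / 6) * ∫ t in (0 : ℝ)..1, (1 - t) ^ 3 • (g t - c) := by
    rw [hsub, key, hg, hc]
    simp only [Finset.sum_range_succ, Finset.sum_range_zero, zero_add, smul_eq_mul,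
      Nat.factorial, iteratedFDeriv_zero_apply]
    norm_num
    ring
  rw [hsum, abs_mul, abs_of_pos (by norm_num : (0 : ℝ) < 1 / 6)]
  rw [Real.norm_eq_abs] at hint
  apply mul_le_mul_of_nonneg_left _ (by norm_num)
  simpa using hint

theorem ujet_neg {X : Type*} [NormedAddCommGroup X] [NormedSpace ℝ X] (k : ℕ)
    (T : ContinuousMultilinearMap ℝ (fun _ : Fin k => X) ℝ) (h : X) :
    T (fun _ => -h) = (-1) ^ k * T (fun _ => h) := by
  have := T.map_smul_univ (fun _ => (-1 : ℝ)) (fun _ => h)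
  simp only [neg_smul, one_smul, Finset.prod_const, Finset.card_univ, Fintype.card_fin,
    smul_eq_mul] at this
  exact this

/-- MAIN TARGET 1 of this job: Taylor estimate at one point -/
theorem ujet_of_bounds {X : Type*} [NormedAddCommGroup X] [NormedSpace ℝ X] (f : X → ℝ) (q : X)
    (M θ r : ℝ) (hC : ∀ q', ‖q' - q‖ ≤ r → ContDiffAt ℝ 4 f q')
    (h2 : ‖iteratedFDeriv ℝ 2 f q‖ ≤ M) (h4 : ‖iteratedFDeriv ℝ 4 f q‖ ≤ M)
    (h5 : ∀ q', ‖q' - q‖ ≤ r → ‖iteratedFDeriv ℝ 4 f q' - iteratedFDeriv ℝ 4 f q‖ ≤ θ) :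
    UJet f M θ r q := by
  obtain ⟨B, hB, hBh⟩ := symm_two M (iteratedFDeriv ℝ 2 f q) h2
  obtain ⟨A, hA, hAh⟩ := symm_four M (iteratedFDeriv ℝ 4 f q) h4
  refine ⟨B, A, hB, hA, ?_⟩
  intro h hh
  have hθ : 0 ≤ θ := (norm_nonneg _).trans (h5 q (by
    rw [sub_self, norm_zero]; exact (norm_nonneg _).trans hh))
  have e1 := ujet_rem f q θ r hC h5 h hh
  have e2 := ujet_rem f q θ r hC h5 (-h) (by rw [norm_neg]; exact hh)
  rw [ujet_neg, ujet_neg, ujet_neg, ujet_neg, norm_neg, ← sub_eq_add_neg] at e2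
  rw [hBh, hAh]
  have h6 : 0 ≤ θ * ‖h‖ ^ 4 := by positivity
  rw [abs_le] at e1 e2 ⊢
  constructor <;> linarith [e1.1, e1.2, e2.1, e2.2]

/-- MAIN TARGET 2 of this job -/
theorem goodR_compact {X : Type*} [NormedAddCommGroup X] [NormedSpace ℝ X] (f : X → ℝ)
    (hf : ContDiffOn ℝ 4 f ({0}ᶜ : Set X)) (K : Set X) (hK : IsCompact K) (h0 : (0 : X) ∉ K) :
    ∃ r : ℝ, 0 < r ∧ ∀ p ∈ K, GoodR f p r := by
  have hs : IsOpen ({0}ᶜ : Set X) := isOpen_compl_singleton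
  have hcont0 : ∀ i : ℕ, i ≤ 4 → ContinuousOn (iteratedFDeriv ℝ i f) ({0}ᶜ : Set X) := by
    intro i hi
    have h1 : ContinuousOn (iteratedFDerivWithin ℝ i f ({0}ᶜ : Set X)) ({0}ᶜ : Set X) :=
      hf.continuousOn_iteratedFDerivWithin (by exact_mod_cast hi) hs.uniqueDiffOn
    exact h1.congr fun q hq => (iteratedFDerivWithin_of_isOpen i hs hq).symm
  have hcont : ∀ i : ℕ, i ≤ 4 → ContinuousOn (fun q => ‖iteratedFDeriv ℝ i f q‖) ({0}ᶜ : Set X) :=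
    fun i hi => (hcont0 i hi).norm
  have hopen : ∀ (i : ℕ), i ≤ 4 → ∀ n : ℕ,
      IsOpen (({0}ᶜ : Set X) ∩ (fun q => ‖iteratedFDeriv ℝ i f q‖) ⁻¹' Set.Iio (n : ℝ)) := by
    intro i hi n
    exact (hcont i hi).isOpen_inter_preimage hs isOpen_Iio
  let U : ℕ → Set X := fun n =>
    (({0}ᶜ : Set X) ∩ (fun q => ‖iteratedFDeriv ℝ 2 f q‖) ⁻¹' Set.Iio (n : ℝ)) ∩
    (({0}ᶜ : Set X) ∩ (fun q => ‖iteratedFDeriv ℝ 4 f q‖) ⁻¹' Set.Iio (n : ℝ))
  have hU : ∀ n, IsOpen (U n) := fun n =>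
    (hopen 2 (by norm_num) n).inter (hopen 4 (by norm_num) n)
  have hmono : Monotone U := by
    intro m n hmn q hq
    have hmn' : (m : ℝ) ≤ n := by exact_mod_cast hmn
    obtain ⟨⟨h0, h2⟩, ⟨_, h4⟩⟩ := hq
    exact ⟨⟨h0, lt_of_lt_of_le h2 hmn'⟩, ⟨h0, lt_of_lt_of_le h4 hmn'⟩⟩
  have hcov : K ⊆ ⋃ n, U n := by
    intro q hq
    have hq0 : q ∈ ({0}ᶜ : Set X) := by
      intro h
      exact h0 (by rw [← (show q = 0 from h)]; exact hq)
    obtain ⟨n, hn⟩ := exists_nat_gt (max ‖iteratedFDeriv ℝ 2 f q‖ ‖iteratedFDeriv ℝ 4 f q‖)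
    refine Set.mem_iUnion.2 ⟨n, ⟨⟨hq0, ?_⟩, ⟨hq0, ?_⟩⟩⟩
    · exact lt_of_le_of_lt (le_max_left _ _) hn
    · exact lt_of_le_of_lt (le_max_right _ _) hn
  obtain ⟨n, hn⟩ := hK.elim_directed_cover U hU hcov (hmono.directed_le)
  obtain ⟨δ, hδ, hsub⟩ := hK.exists_thickening_subset_open (hU n) hn
  have hn1 : (0 : ℝ) < (n : ℝ) + 1 := by positivity
  have hr : 0 < min (δ / 3) (1 / ((n : ℝ) + 1)) := lt_min (by linarith) (by positivity)
  refine ⟨min (δ / 3) (1 / ((n : ℝ) + 1)), hr, ?_⟩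
  intro p hp K' hK' hK'p θ hθ
  set r := min (δ / 3) (1 / ((n : ℝ) + 1)) with hrdef
  have hr1 : r ≤ δ / 3 := min_le_left _ _
  have hr2 : r ≤ 1 / ((n : ℝ) + 1) := min_le_right _ _
  have hM : (n : ℝ) ≤ 1 / r := by
    have h1 : (n : ℝ) + 1 ≤ 1 / r := by
      rw [le_div_iff₀ hr]
      rw [le_div_iff₀ hn1] at hr2
      linarith
    linarith
  have hin : ∀ q ∈ K', ∀ q', ‖q' - q‖ ≤ r → q' ∈ U n := by
    intro q hq q' hq'
    apply hsub
    rw [Metric.mem_thickening_iff]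
    refine ⟨p, hp, ?_⟩
    rw [dist_eq_norm]
    have h1 : ‖q' - p‖ ≤ ‖q' - q‖ + ‖q - p‖ := by
      have := norm_add_le (q' - q) (q - p)
      rwa [sub_add_sub_cancel] at this
    have h2 := hK'p q hq
    linarith
  have hqq : ∀ q : X, ‖q - q‖ ≤ r := fun q => by rw [sub_self, norm_zero]; exact hr.le
  have huc := hK'.uniformContinuousAt_of_continuousAt (iteratedFDeriv ℝ 4 f)
    (fun q hq => (hcont0 4 le_rfl).continuousAt (hs.mem_nhds (hin q hq q (hqq q)).1.1))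
    (Metric.dist_mem_uniformity hθ)
  obtain ⟨ε, hε, hεH⟩ := Metric.mem_uniformity_dist.1 huc
  refine ⟨min (ε / 2) r, lt_min (by linarith) hr, ?_⟩
  intro q hq
  apply ujet_of_bounds
  · intro q' hq'
    have h1 : q' ∈ ({0}ᶜ : Set X) := (hin q hq q' (hq'.trans (min_le_right _ _))).2.1
    exact hf.contDiffAt (hs.mem_nhds h1)
  · exact (le_of_lt (show ‖iteratedFDeriv ℝ 2 f q‖ < (n : ℝ) from
      (hin q hq q (hqq q)).1.2)).trans hM
  · exact (le_of_lt (show ‖iteratedFDeriv ℝ 4 f q‖ < (n : ℝ) from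
      (hin q hq q (hqq q)).2.2)).trans hM
  · intro q' hq'
    have h1 : dist q q' < ε := by
      rw [dist_comm, dist_eq_norm]
      have := hq'.trans (min_le_left _ _)
      linarith
    have h2 := hεH h1 hq
    have h3 : dist (iteratedFDeriv ℝ 4 f q) (iteratedFDeriv ℝ 4 f q') < θ := h2
    rw [dist_comm, dist_eq_norm] at h3
    exact h3.le

/-- MAIN TARGET 3 of this job -/
theorem goodR_mono {X : Type*} [NormedAddCommGroup X] [NormedSpace ℝ X] (f : X → ℝ) (p : X)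
    (r r' : ℝ) (h0 : 0 < r') (hr : r' ≤ r) (h : GoodR f p r) : GoodR f p r' := by
  intro K' hK' hK'p θ hθ
  obtain ⟨s, hs, H⟩ := h K' hK' (fun q hq => (hK'p q hq).trans hr) θ hθ
  have h1 : 1 / r ≤ 1 / r' := one_div_le_one_div_of_le h0 hr
  refine ⟨s, hs, fun q hq => ?_⟩
  obtain ⟨B, A, hB, hA, hj⟩ := H q hq
  refine ⟨B, A, ⟨hB.add, hB.smul, hB.symm, fun a b => (hB.bd a b).trans ?_⟩,
    ⟨hA.alg, fun a b c d => (hA.bd a b c d).trans ?_⟩, hj⟩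
  · exact mul_le_mul_of_nonneg_right h1 (by positivity)
  · exact mul_le_mul_of_nonneg_right h1 (by positivity)

/-- extra invariant -/
def Low235 {X : Type*} [NormedAddCommGroup X] [NormedSpace ℝ X] {I : Type*}
    (Y : L4Sys X I) (a : ℝ) (S : Finset I) (G : X → ℝ) (ρ : ℝ) : Prop :=
  ∀ z ∈ Y.T S, ∀ s : ℝ, 0 ≤ s → s ^ 4 ≤ ρ + ‖z‖ ^ 4 → a * s ≤ G z

theorem locInv_init235 {X : Type*} [NormedAddCommGroup X] [NormedSpace ℝ X] {I : Type*}
    (Y : L4Sys X I) (f : X → ℝ)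
    (hadd : ∀ x y, f (x + y) ≤ f x + f y) (hsm : ∀ (r : ℝ) (x : X), f (r • x) = |r| * f x)
    (x₀ : X) (S : Finset I) (hx₀S : x₀ ∈ Y.H S) :
    LocInv4 Y f S {x₀} (fun z => f (x₀ + z)) (‖x₀‖ ^ 4) where
  ne := ⟨x₀, rfl⟩
  fin := Set.finite_singleton x₀
  memH := by rintro p rfl; exact hx₀S
  nrm := by rintro p rfl; rfl
  cvx := by
    refine ⟨convex_univ, fun x _ y _ s t hs ht hst => ?_⟩
    have h1 : x₀ + (s • x + t • y) = s • (x₀ + x) + t • (x₀ + y) := by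
      have : x₀ = (s + t) • x₀ := by rw [hst, one_smul]
      nth_rw 1 [this]
      module
    show f (x₀ + (s • x + t • y)) ≤ s • f (x₀ + x) + t • f (x₀ + y)
    rw [h1]
    refine (hadd _ _).trans ?_
    rw [hsm, hsm, abs_of_nonneg hs, abs_of_nonneg ht, smul_eq_mul, smul_eq_mul]
  jet := by
    intro M θ r z h
    obtain ⟨B, A, h2, h4, h5⟩ := h x₀ rfl
    refine ⟨B, A, h2, h4, fun h hh => ?_⟩
    have := h5 h hh
    simp only [← add_assoc, ← add_sub_assoc]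
    exact this

theorem low_init235 {X : Type*} [NormedAddCommGroup X] [NormedSpace ℝ X] {I : Type*}
    (Y : L4Sys X I) (f : X → ℝ) (a : ℝ) (ha : 0 < a) (hlow : ∀ x, a * ‖x‖ ≤ f x)
    (x₀ : X) (S : Finset I) (hx₀S : x₀ ∈ Y.H S) :
    Low235 Y a S (fun z => f (x₀ + z)) (‖x₀‖ ^ 4) := by
  intro z hz s hs h
  rw [← Y.add4 S x₀ hx₀S z hz] at h
  have h1 : s ≤ ‖x₀ + z‖ := le_of_pow_le_pow_left₀ (by norm_num) (norm_nonneg _) h
  exact (mul_le_mul_of_nonneg_left h1 ha.le).trans (hlow _)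

theorem locInv_step235 {X : Type*} [NormedAddCommGroup X] [NormedSpace ℝ X] {I : Type*}
    [DecidableEq I] (Y : L4Sys X I) (f : X → ℝ) (S : Finset I) (P : Set X) (G : X → ℝ)
    (ρ : ℝ) (h : LocInv4 Y f S P G ρ) (S' : Finset I) (y : X) (hyT : y ∈ Y.T S)
    (hyH : y ∈ Y.H S') :
    LocInv4 Y f (S ∪ S') ((fun p => p + y) '' P ∪ (fun p => p - y) '' P) (Tav y G)
      (ρ + ‖y‖ ^ 4) where
  ne := (h.ne.image _).mono Set.subset_union_left
  fin := (h.fin.image _).union (h.fin.image _)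
  memH := by
    have h1 : y ∈ Y.H (S ∪ S') := Y.H_mono _ _ Finset.subset_union_right hyH
    rintro p (⟨q, hq, rfl⟩ | ⟨q, hq, rfl⟩)
    · exact add_mem (Y.H_mono _ _ Finset.subset_union_left (h.memH q hq)) h1
    · exact sub_mem (Y.H_mono _ _ Finset.subset_union_left (h.memH q hq)) h1
  nrm := by
    rintro p (⟨q, hq, rfl⟩ | ⟨q, hq, rfl⟩)
    · show ‖q + y‖ ^ 4 = _
      rw [Y.add4 S q (h.memH q hq) y hyT, h.nrm q hq]
    · show ‖q - y‖ ^ 4 = _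
      rw [sub_eq_add_neg, Y.add4 S q (h.memH q hq) (-y) (neg_mem hyT), h.nrm q hq, norm_neg]
  cvx := convex_tav G y h.cvx
  jet := by
    intro M θ r z hj
    refine ujet_tav G M θ r z y (h.jet M θ r _ fun p hp => ?_) (h.jet M θ r _ fun p hp => ?_)
    · have := hj (p + y) (Or.inl ⟨p, hp, rfl⟩)
      have e : p + y + z = p + (z + y) := by abel
      rwa [e] at this
    · have := hj (p - y) (Or.inr ⟨p, hp, rfl⟩)
      have e : p - y + z = p + (z - y) := by abel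
      rwa [e] at this

theorem low_step235 {X : Type*} [NormedAddCommGroup X] [NormedSpace ℝ X] {I : Type*}
    [DecidableEq I] (Y : L4Sys X I) (a : ℝ) (S : Finset I) (G : X → ℝ)
    (ρ : ℝ) (h : Low235 Y a S G ρ) (S' : Finset I) (y : X) (hyT : y ∈ Y.T S)
    (hyH : y ∈ Y.H S') : Low235 Y a (S ∪ S') (Tav y G) (ρ + ‖y‖ ^ 4) := by
  intro z hz s hs hle
  have hz1 : z ∈ Y.T S := Y.T_anti _ _ Finset.subset_union_left hz
  have hz2 : z ∈ Y.T S' := Y.T_anti _ _ Finset.subset_union_right hz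
  have h1 : ‖z + y‖ ^ 4 = ‖y‖ ^ 4 + ‖z‖ ^ 4 := by
    rw [add_comm z y]
    exact Y.add4 S' y hyH z hz2
  have h2 : ‖z - y‖ ^ 4 = ‖y‖ ^ 4 + ‖z‖ ^ 4 := by
    have := Y.add4 S' (-y) (neg_mem hyH) z hz2
    rw [norm_neg] at this
    rw [← this]
    congr 2
    abel
  have h3 : a * s ≤ G (z + y) := h _ (add_mem hz1 hyT) s hs (by rw [h1]; linarith)
  have h4 : a * s ≤ G (z - y) := h _ (sub_mem hz1 hyT) s hs (by rw [h2]; linarith)
  show a * s ≤ (G (z + y) + G (z - y)) / 2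
  linarith

/-- MAIN TARGET of this job: localisation with an abstract local property `Good`. -/
theorem localise4 {X : Type*} [NormedAddCommGroup X] [NormedSpace ℝ X] [CompleteSpace X]
    {I : Type*} [DecidableEq I] (Y : L4Sys X I) (f : X → ℝ)
    (hadd : ∀ x y, f (x + y) ≤ f x + f y) (hsm : ∀ (r : ℝ) (x : X), f (r • x) = |r| * f x)
    (a : ℝ) (ha : 0 < a) (hlow : ∀ x, a * ‖x‖ ≤ f x)
    (hmono : ∀ (p : X) (r r' : ℝ), 0 < r' → r' ≤ r → GoodR f p r → GoodR f p r')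
    (hcomp : ∀ K : Set X, IsCompact K → (0 : X) ∉ K → ∃ r : ℝ, 0 < r ∧ ∀ p ∈ K, GoodR f p r)
    (x₀ : X) (hx₀ : x₀ ≠ 0) (S : Finset I) (hx₀S : x₀ ∈ Y.H S) :
    ∃ (G₀ : X → ℝ) (S₀ : Finset I) (P₀ : Set X) (ρ₀ r ε : ℝ), 0 < r ∧ 0 < ε ∧
      LocInv4 Y f S₀ P₀ G₀ ρ₀ ∧ (∀ p ∈ P₀, GoodR f p r) ∧
      (∀ (S' : Finset I) (y : X), y ∈ Y.T S₀ → y ∈ Y.H S' → ‖y‖ = r →
        G₀ 0 + ε ≤ (G₀ y + G₀ (-y)) / 2) := by
  classical
  by_contra hcon
  have hpow : ∀ r : ℝ, 0 < r → ∃ j : ℕ, (1 / 2 : ℝ) ^ j ≤ r := by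
    intro r hr
    obtain ⟨j, hj⟩ := exists_pow_lt_of_lt_one hr (by norm_num : (1 / 2 : ℝ) < 1)
    exact ⟨j, hj.le⟩
  have hx0pos : 0 < ‖x₀‖ ^ 4 := by
    have := norm_pos_iff.2 hx₀
    positivity
  -- existence of the index
  have hidx : ∀ P : Set X, P.Finite → (∀ p ∈ P, 0 < ‖p‖ ^ 4) →
      ∃ j : ℕ, ∀ p ∈ P, GoodR f p ((1 / 2 : ℝ) ^ j) := by
    intro P hP hP0
    obtain ⟨r, hr, h⟩ := hcomp P hP.isCompact (fun h0 => by
      have := hP0 0 h0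
      simp at this)
    obtain ⟨j, hj⟩ := hpow r hr
    exact ⟨j, fun p hp => hmono p _ _ (by positivity) hj (h p hp)⟩
  -- one step
  have hstep : ∀ (S : Finset I) (P : Set X) (G : X → ℝ) (ρ : ℝ), LocInv4 Y f S P G ρ →
      ∀ (r : ℝ), 0 < r → (∀ p ∈ P, GoodR f p r) → ∀ ε : ℝ, 0 < ε →
      ∃ (S' : Finset I) (y : X), y ∈ Y.T S ∧ y ∈ Y.H S' ∧ ‖y‖ = r ∧ Tav y G 0 ≤ G 0 + ε := by
    intro S P G ρ hI r hr hgood ε hε
    by_contra hno
    apply hcon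
    refine ⟨G, S, P, ρ, r, ε, hr, hε, hI, hgood, fun S' y hy hy' hyr => ?_⟩
    by_contra hlt
    apply hno
    refine ⟨S', y, hy, hy', hyr, ?_⟩
    show (G (0 + y) + G (0 - y)) / 2 ≤ G 0 + ε
    rw [zero_add, zero_sub]
    exact (not_le.1 hlt).le
  -- the states
  let St := {x : Finset I × Set X × (X → ℝ) × ℝ //
    (LocInv4 Y f x.1 x.2.1 x.2.2.1 x.2.2.2 ∧ Low235 Y a x.1 x.2.2.1 x.2.2.2) ∧
      ‖x₀‖ ^ 4 ≤ x.2.2.2}
  have hex : ∀ σ : St, ∃ j : ℕ, ∀ p ∈ σ.1.2.1, GoodR f p ((1 / 2 : ℝ) ^ j) := by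
    intro σ
    refine hidx _ σ.2.1.1.fin fun p hp => ?_
    rw [σ.2.1.1.nrm p hp]
    exact hx0pos.trans_le σ.2.2
  have hnext : ∀ (σ : St) (n : ℕ), ∃ σ' : St, ∃ y : X, y ∈ Y.T σ.1.1 ∧
      ‖y‖ = (1 / 2 : ℝ) ^ (Nat.find (hex σ)) ∧ σ.1.1 ⊆ σ'.1.1 ∧
      σ'.1.2.1 = (fun p => p + y) '' σ.1.2.1 ∪ (fun p => p - y) '' σ.1.2.1 ∧
      σ'.1.2.2.2 = σ.1.2.2.2 + ‖y‖ ^ 4 ∧ σ'.1.2.2.1 0 ≤ σ.1.2.2.1 0 + (1 / 4 : ℝ) ^ (n + 1) := by
    intro σ n
    obtain ⟨S', y, h1, h2, h3, h4⟩ := hstep _ _ _ _ σ.2.1.1 ((1 / 2 : ℝ) ^ (Nat.find (hex σ)))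
      (by positivity) (Nat.find_spec (hex σ)) ((1 / 4 : ℝ) ^ (n + 1)) (by positivity)
    refine ⟨⟨(σ.1.1 ∪ S', (fun p => p + y) '' σ.1.2.1 ∪ (fun p => p - y) '' σ.1.2.1,
      Tav y σ.1.2.2.1, σ.1.2.2.2 + ‖y‖ ^ 4), ⟨locInv_step235 Y f _ _ _ _ σ.2.1.1 S' y h1 h2,
        low_step235 Y a _ _ _ σ.2.1.2 S' y h1 h2⟩, ?_⟩,
      y, h1, h3, Finset.subset_union_left, rfl, rfl, h4⟩
    have := σ.2.2
    have h5 : 0 ≤ ‖y‖ ^ 4 := by positivity
    show ‖x₀‖ ^ 4 ≤ σ.1.2.2.2 + ‖y‖ ^ 4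
    linarith
  choose nxt ynx hn using hnext
  let σ : ℕ → St := fun n => Nat.rec
    ⟨(S, {x₀}, (fun z => f (x₀ + z)), ‖x₀‖ ^ 4),
      ⟨locInv_init235 Y f hadd hsm x₀ S hx₀S, low_init235 Y f a ha hlow x₀ S hx₀S⟩, le_rfl⟩ (fun n s => nxt s n) n
  have hσ0 : σ 0 = ⟨(S, {x₀}, (fun z => f (x₀ + z)), ‖x₀‖ ^ 4),
      ⟨locInv_init235 Y f hadd hsm x₀ S hx₀S, low_init235 Y f a ha hlow x₀ S hx₀S⟩, le_rfl⟩ := rfl
  have hσs : ∀ n, σ (n + 1) = nxt (σ n) n := fun n => rfl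
  set y : ℕ → X := fun n => ynx (σ n) n with hy
  have hs : ∀ n, y n ∈ Y.T (σ n).1.1 ∧
      ‖y n‖ = (1 / 2 : ℝ) ^ (Nat.find (hex (σ n))) ∧ (σ n).1.1 ⊆ (σ (n + 1)).1.1 ∧
      (σ (n + 1)).1.2.1 = (fun p => p + y n) '' (σ n).1.2.1 ∪ (fun p => p - y n) '' (σ n).1.2.1 ∧
      (σ (n + 1)).1.2.2.2 = (σ n).1.2.2.2 + ‖y n‖ ^ 4 ∧
      (σ (n + 1)).1.2.2.1 0 ≤ (σ n).1.2.2.1 0 + (1 / 4 : ℝ) ^ (n + 1) := by
    intro n
    rw [hσs]
    exact hn (σ n) n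
  set ρ : ℕ → ℝ := fun n => (σ n).1.2.2.2 with hρ
  have hρs : ∀ n, ρ (n + 1) = ρ n + ‖y n‖ ^ 4 := fun n => (hs n).2.2.2.2.1
  have hρmono : Monotone ρ := monotone_nat_of_le_succ fun n => by
    rw [hρs]
    have : 0 ≤ ‖y n‖ ^ 4 := by positivity
    linarith
  have hfx0 : 0 ≤ f x₀ := le_trans (by positivity) (hlow x₀)
  have hG : ∀ n, (σ n).1.2.2.1 0 ≤ f x₀ + (1 / 3 - (1 / 3) * (1 / 4 : ℝ) ^ n) := by
    intro n
    induction n with
    | zero =>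
      rw [hσ0]
      simp
    | succ n ih =>
      have h1 := (hs n).2.2.2.2.2
      have h2 : (1 / 4 : ℝ) ^ (n + 1) = (1 / 4) * (1 / 4 : ℝ) ^ n := by ring
      rw [h2] at h1 ⊢
      linarith
  set s0 : ℝ := (f x₀ + 1 / 3) / a + 1 with hs0
  have hs0pos : 0 ≤ s0 := by positivity
  have hρbd : ∀ n, ρ n ≤ s0 ^ 4 := by
    intro n
    by_contra hlt
    have h1 : s0 ^ 4 ≤ ρ n := (not_le.1 hlt).le
    have h2 := (σ n).2.1.2 0 (Submodule.zero_mem _) s0 hs0pos (by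
      rw [norm_zero]
      simpa using h1)
    have h3 := hG n
    have h4 : 0 ≤ (1 / 4 : ℝ) ^ n := by positivity
    have h5 : a * s0 = f x₀ + 1 / 3 + a := by
      rw [hs0]
      field_simp
    linarith
  have hbdd : BddAbove (Set.range ρ) := ⟨s0 ^ 4, by rintro _ ⟨n, rfl⟩; exact hρbd n⟩
  have hSmono : ∀ k l, k ≤ l → (σ k).1.1 ⊆ (σ l).1.1 := by
    intro k l hkl
    induction l, hkl using Nat.le_induction with
    | base => exact Finset.Subset.refl _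
    | succ l _ ih => exact ih.trans (hs l).2.2.1
  have hnear : ∀ k l, k ≤ l → ∀ p ∈ (σ l).1.2.1, ∃ q ∈ (σ k).1.2.1, p - q ∈ Y.T (σ k).1.1 := by
    intro k l hkl
    induction l, hkl using Nat.le_induction with
    | base => exact fun p hp => ⟨p, hp, by rw [sub_self]; exact Submodule.zero_mem _⟩
    | succ l hkl ih =>
      intro p hp
      rw [(hs l).2.2.2.1] at hp
      have hyT : y l ∈ Y.T (σ k).1.1 := Y.T_anti _ _ (hSmono k l hkl) (hs l).1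
      rcases hp with ⟨p', hp', rfl⟩ | ⟨p', hp', rfl⟩
      · obtain ⟨q, hq, hq'⟩ := ih p' hp'
        refine ⟨q, hq, ?_⟩
        have e : p' + y l - q = (p' - q) + y l := by abel
        show p' + y l - q ∈ _
        rw [e]
        exact add_mem hq' hyT
      · obtain ⟨q, hq, hq'⟩ := ih p' hp'
        refine ⟨q, hq, ?_⟩
        have e : p' - y l - q = (p' - q) - y l := by abel
        show p' - y l - q ∈ _
        rw [e]
        exact sub_mem hq' hyT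
  have hnear' : ∀ k l, k ≤ l → ∀ p ∈ (σ l).1.2.1, ∃ q ∈ (σ k).1.2.1,
      ‖p - q‖ ^ 4 = ρ l - ρ k := by
    intro k l hkl p hp
    obtain ⟨q, hq, hq'⟩ := hnear k l hkl p hp
    refine ⟨q, hq, ?_⟩
    have h1 := Y.add4 (σ k).1.1 q ((σ k).2.1.1.memH q hq) (p - q) hq'
    rw [add_sub_cancel, (σ l).2.1.1.nrm p hp, (σ k).2.1.1.nrm q hq] at h1
    show _ = (σ l).1.2.2.2 - (σ k).1.2.2.2
    linarith
  set U : Set X := ⋃ n, (σ n).1.2.1 with hU
  have hUtb : TotallyBounded U := by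
    rw [Metric.totallyBounded_iff]
    intro δ hδ
    have hsup : ⨆ n, ρ n - δ ^ 4 < ⨆ n, ρ n := by
      have : (⨆ n, ρ n - δ ^ 4) ≤ (⨆ n, ρ n) - δ ^ 4 := by
        refine ciSup_le fun n => ?_
        have := le_ciSup hbdd n
        linarith
      have h4 : 0 < δ ^ 4 := by positivity
      linarith
    have hsup' : (⨆ n, ρ n) - δ ^ 4 < ⨆ n, ρ n := by
      have h4 : 0 < δ ^ 4 := by positivity
      linarith
    obtain ⟨k, hk⟩ := exists_lt_of_lt_ciSup hsup'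
    refine ⟨⋃ n ∈ Finset.range (k + 1), (σ n).1.2.1,
      Set.Finite.biUnion (Finset.finite_toSet _) fun n _ => (σ n).2.1.1.fin, ?_⟩
    intro p hp
    obtain ⟨l, hl⟩ := Set.mem_iUnion.1 hp
    rcases le_total k l with hkl | hkl
    · obtain ⟨q, hq, hpq⟩ := hnear' k l hkl p hl
      refine Set.mem_iUnion₂.2 ⟨q, Set.mem_iUnion₂.2 ⟨k, Finset.mem_range.2 (by omega), hq⟩, ?_⟩
      rw [Metric.mem_ball, dist_eq_norm]
      have h1 : ‖p - q‖ ^ 4 < δ ^ 4 := by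
        rw [hpq]
        have := le_ciSup hbdd l
        linarith
      exact lt_of_pow_lt_pow_left₀ 4 hδ.le h1
    · refine Set.mem_iUnion₂.2 ⟨p, Set.mem_iUnion₂.2 ⟨l, Finset.mem_range.2 (by omega), hl⟩, ?_⟩
      exact Metric.mem_ball_self hδ
  have hKc : IsCompact (closure U) :=
    hUtb.closure.isCompact_of_isClosed isClosed_closure
  have hK0 : (0 : X) ∉ closure U := by
    have h1 : closure U ⊆ {x | ‖x₀‖ ≤ ‖x‖} := by
      refine closure_minimal ?_ (isClosed_le continuous_const continuous_norm)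
      intro p hp
      obtain ⟨l, hl⟩ := Set.mem_iUnion.1 hp
      have h2 := (σ l).2.1.1.nrm p hl
      have h3 := (σ l).2.2
      rw [← h2] at h3
      exact le_of_pow_le_pow_left₀ (by norm_num) (norm_nonneg _) h3
    intro h0
    have h2 := h1 h0
    simp only [Set.mem_ofPred_eq, norm_zero] at h2
    exact hx₀ (norm_le_zero_iff.1 h2)
  obtain ⟨r, hr, hgood⟩ := hcomp _ hKc hK0
  obtain ⟨J, hJ⟩ := hpow r hr
  have hfind : ∀ n, Nat.find (hex (σ n)) ≤ J := by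
    intro n
    refine Nat.find_min' _ fun p hp => ?_
    exact hmono p _ _ (by positivity) hJ
      (hgood p (subset_closure (Set.mem_iUnion.2 ⟨n, hp⟩)))
  have hyn : ∀ n, (1 / 2 : ℝ) ^ J ≤ ‖y n‖ := by
    intro n
    rw [(hs n).2.1]
    exact pow_le_pow_of_le_one (by norm_num) (by norm_num) (hfind n)
  have hgrow : ∀ n : ℕ, (n : ℝ) * ((1 / 2 : ℝ) ^ J) ^ 4 ≤ ρ n := by
    intro n
    induction n with
    | zero =>
      have := (σ 0).2.2
      simp only [Nat.cast_zero, zero_mul]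
      exact hx0pos.le.trans this
    | succ n ih =>
      rw [hρs]
      have h1 : ((1 / 2 : ℝ) ^ J) ^ 4 ≤ ‖y n‖ ^ 4 := by
        have := hyn n
        gcongr
      push_cast
      linarith
  have hc : 0 < ((1 / 2 : ℝ) ^ J) ^ 4 := by positivity
  obtain ⟨n, hn⟩ := exists_nat_gt (s0 ^ 4 / ((1 / 2 : ℝ) ^ J) ^ 4)
  rw [div_lt_iff₀ hc] at hn
  have := hgrow n
  have := hρbd n
  linarith

theorem pe4_mono {X : Type*} [NormedAddCommGroup X] [NormedSpace ℝ X] {f : X → ℝ}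
    {M θ θ' r r' : ℝ} (hθ : θ ≤ θ') (hr : r' ≤ r) {q : X} {B : X → X → ℝ}
    {A : X → X → X → X → ℝ} (h : UJetW f M θ r q B A) : UJetW f M θ' r' q B A := by
  obtain ⟨h2, h4, h5⟩ := h
  refine ⟨h2, h4, fun h hh => ?_⟩
  exact (h5 h (hh.trans hr)).trans (mul_le_mul_of_nonneg_right hθ (by positivity))

theorem pe4_smul_all {X : Type*} [AddCommGroup X] [Module ℝ X] {A : X → X → X → X → ℝ} (h : Alg4 A)
    (t : ℝ) (a : X) : A (t • a) (t • a) (t • a) (t • a) = t ^ 4 * A a a a a := by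
  have h2 : ∀ a b c d : X, A a (t • b) c d = t * A a b c d := by
    intro a b c d
    rw [h.s12, h.smul, h.s12]
  have h3 : ∀ a b c d : X, A a b (t • c) d = t * A a b c d := by
    intro a b c d
    rw [h.s23, h2, h.s23]
  have h4 : ∀ a b c d : X, A a b c (t • d) = t * A a b c d := by
    intro a b c d
    rw [h.s34, h3, h.s34]
  rw [h.smul, h2, h3, h4]
  ring

theorem pe4_pull {X : Type*} [NormedAddCommGroup X] [NormedSpace ℝ X] {E : Type*}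
    [NormedAddCommGroup E] [NormedSpace ℝ E] (e : E →ₗᵢ[ℝ] X) (M : ℝ) {A : X → X → X → X → ℝ}
    (h : Form4 M A) : Form4 M (fun a b c d => A (e a) (e b) (e c) (e d)) := by
  refine ⟨⟨?_, ?_, ?_, ?_, ?_⟩, ?_⟩
  · intro a a' b c d
    show A (e (a + a')) _ _ _ = _
    rw [map_add, h.alg.add]
  · intro r a b c d
    show A (e (r • a)) _ _ _ = _
    rw [map_smul, h.alg.smul]
  · intro a b c d; exact h.alg.s12 _ _ _ _
  · intro a b c d; exact h.alg.s23 _ _ _ _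
  · intro a b c d; exact h.alg.s34 _ _ _ _
  · intro a b c d
    have := h.bd (e a) (e b) (e c) (e d)
    simpa only [LinearIsometry.norm_map] using this

theorem pe4_step {X : Type*} [NormedAddCommGroup X] [NormedSpace ℝ X] {I : Type*}
    [DecidableEq I] (Y : L4Sys X I) (f : X → ℝ) (S : Finset I) (P : Set X) (G : X → ℝ)
    (ρ : ℝ) (h : LocInv4 Y f S P G ρ) (S' : Finset I) (y : X) (hyT : y ∈ Y.T S)
    (hyH : y ∈ Y.H S') :
    LocInv4 Y f (S ∪ S') ((fun p => p + y) '' P ∪ (fun p => p - y) '' P) (Tav y G)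
      (ρ + ‖y‖ ^ 4) where
  ne := (h.ne.image _).mono Set.subset_union_left
  fin := (h.fin.image _).union (h.fin.image _)
  memH := by
    have h1 : y ∈ Y.H (S ∪ S') := Y.H_mono _ _ Finset.subset_union_right hyH
    rintro p (⟨q, hq, rfl⟩ | ⟨q, hq, rfl⟩)
    · exact add_mem (Y.H_mono _ _ Finset.subset_union_left (h.memH q hq)) h1
    · exact sub_mem (Y.H_mono _ _ Finset.subset_union_left (h.memH q hq)) h1
  nrm := by
    rintro p (⟨q, hq, rfl⟩ | ⟨q, hq, rfl⟩)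
    · show ‖q + y‖ ^ 4 = _
      rw [Y.add4 S q (h.memH q hq) y hyT, h.nrm q hq]
    · show ‖q - y‖ ^ 4 = _
      rw [sub_eq_add_neg, Y.add4 S q (h.memH q hq) (-y) (neg_mem hyT), h.nrm q hq, norm_neg]
  cvx := convex_tav G y h.cvx
  jet := by
    intro M θ r z hj
    refine ujet_tav G M θ r z y (h.jet M θ r _ fun p hp => ?_) (h.jet M θ r _ fun p hp => ?_)
    · have := hj (p + y) (Or.inl ⟨p, hp, rfl⟩)
      have e : p + y + z = p + (z + y) := by abel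
      rwa [e] at this
    · have := hj (p - y) (Or.inr ⟨p, hp, rfl⟩)
      have e : p - y + z = p + (z - y) := by abel
      rwa [e] at this

/-- the states of the path argument -/
structure Pe4Inv {X : Type*} [NormedAddCommGroup X] [NormedSpace ℝ X] {I : Type*}
    (Y : L4Sys X I) (f G₀ : X → ℝ) (S₀ : Finset I) (P₀ : Set X) (ρ₀ r ε κ : ℝ)
    (S : Finset I) (P : Set X) (G : X → ℝ) (s : ℝ) : Prop where
  sub : S₀ ⊆ S
  inv : LocInv4 Y f S P G (ρ₀ + s)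
  s0 : 0 ≤ s
  s1 : s ≤ r ^ 4
  near : ∀ p ∈ P, ∃ p₀ ∈ P₀, p - p₀ ∈ Y.T S₀
  grow : ∀ (S' : Finset I) (w : X), w ∈ Y.T S → w ∈ Y.H S' → ‖w‖ ^ 4 + s = r ^ 4 →
    G₀ 0 + ε ≤ (G w + G (-w)) / 2
  up : G 0 ≤ G₀ 0 + κ * s

/-- one step of the path -/
theorem pe4_next {X : Type*} [NormedAddCommGroup X] [NormedSpace ℝ X]
    {I : Type*} [DecidableEq I] (Y : L4Sys X I) (f : X → ℝ) (G₀ : X → ℝ) (S₀ : Finset I)
    (P₀ : Set X) (ρ₀ r ε θ θ₀ η κ : ℝ) (hθ : 0 < θ) (hθ₀ : θ ≤ θ₀)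
    (hκd : κ = θ + 4 * ε / r ^ 4 / 24)
    (hcf : ∀ r' : ℝ, 0 < r' → ∃ δ : ℝ, 0 < δ ∧ ∀ (G : X → ℝ), ConvexOn ℝ univ G →
      ∀ (B : X → X → ℝ) (A : X → X → X → X → ℝ), UJetW G (1 / r) θ₀ r' 0 B A →
      ∀ x y, ‖x‖ = 1 → ‖y‖ = 1 → B y y ≤ δ → -η ≤ A x x y y)
    (E : Type) [NormedAddCommGroup E] [NormedSpace ℝ E] (C : Copies Y E)
    (hno : ∀ (A : E → E → E → E → ℝ), Form4 (1 / r) A →
      (∀ (x y : E), ‖x‖ = 1 → ‖y‖ = 1 → -η ≤ A x x y y) →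
      ∃ z, ‖z‖ = 1 ∧ A z z z z < 4 * ε / r ^ 4)
    (S : Finset I) (P : Set X) (G : X → ℝ) (s : ℝ)
    (h : Pe4Inv Y f G₀ S₀ P₀ ρ₀ r ε κ S P G s)
    (r' t : ℝ) (ht : 0 < t) (htr : t ≤ r') (hts : t ^ 4 ≤ r ^ 4 - s)
    (hjet : ∀ p ∈ P, UJet f (1 / r) θ r' p) :
    ∃ (S' : Finset I) (G' : X → ℝ) (y : X), y ∈ Y.T S ∧ ‖y‖ = t ∧ S ⊆ S' ∧
      Pe4Inv Y f G₀ S₀ P₀ ρ₀ r ε κ S'
        ((fun p => p + y) '' P ∪ (fun p => p - y) '' P) G' (s + t ^ 4) := by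
  have hj0 : UJet G (1 / r) θ r' 0 := h.inv.jet _ _ _ _ fun p hp => by
    rw [add_zero]; exact hjet p hp
  obtain ⟨B, A, hJ⟩ := hj0
  obtain ⟨δ₀, hδ₀, hcf'⟩ := hcf r' (ht.trans_le htr)
  obtain ⟨δ', hδ'⟩ : ∃ δ' : ℝ, δ' = min δ₀ (θ * t ^ 2) := ⟨_, rfl⟩
  have hδ'0 : 0 < δ' := by rw [hδ']; exact lt_min hδ₀ (by positivity)
  have hδ'1 : δ' ≤ δ₀ := by rw [hδ']; exact min_le_left _ _
  have hδ'2 : δ' ≤ θ * t ^ 2 := by rw [hδ']; exact min_le_right _ _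
  obtain ⟨c, hc, hBc⟩ := bilin_small Y C (1 / r) B hJ.1 δ' hδ'0 S
  obtain ⟨z, hz1, hzA⟩ := hno (fun a b c' d => A (C.e c a) (C.e c b) (C.e c c') (C.e c d))
    (pe4_pull (C.e c) (1 / r) hJ.2.1) (by
      intro x y hx hy
      apply hcf' G h.inv.cvx B A (pe4_mono hθ₀ le_rfl hJ) (C.e c x) (C.e c y)
      · rw [LinearIsometry.norm_map, hx]
      · rw [LinearIsometry.norm_map, hy]
      · have := hBc y
        rw [hy] at this
        linarith)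
  obtain ⟨y, hy⟩ : ∃ y : X, y = t • C.e c z := ⟨_, rfl⟩
  have hyn : ‖y‖ = t := by
    rw [hy, norm_smul, LinearIsometry.norm_map, hz1, mul_one, Real.norm_of_nonneg ht.le]
  have hyT : y ∈ Y.T S := by
    rw [hy]; exact (Y.T S).smul_mem _ (C.memT c z S hc)
  have hyH : y ∈ Y.H {C.φ c} := by
    rw [hy]; exact (Y.H _).smul_mem _ (C.memH c z)
  have hyH' : y ∈ Y.H (S ∪ {C.φ c}) := Y.H_mono _ _ Finset.subset_union_right hyH
  have hnorm : ∀ w ∈ Y.T (S ∪ {C.φ c}), ‖w + y‖ ^ 4 = t ^ 4 + ‖w‖ ^ 4 ∧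
      ‖w - y‖ ^ 4 = t ^ 4 + ‖w‖ ^ 4 := by
    intro w hw
    constructor
    · rw [add_comm w y, Y.add4 _ y hyH' w hw, hyn]
    · have : w - y = -y + w := by abel
      rw [this, Y.add4 _ (-y) ((Y.H _).neg_mem hyH') w hw, norm_neg, hyn]
  have hmem : ∀ w ∈ Y.T (S ∪ {C.φ c}), w + y ∈ Y.T S ∧ w - y ∈ Y.T S := by
    intro w hw
    have hw' := Y.T_anti S _ Finset.subset_union_left hw
    exact ⟨(Y.T S).add_mem hw' hyT, (Y.T S).sub_mem hw' hyT⟩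
  have hyT0 : y ∈ Y.T S₀ := Y.T_anti _ _ h.sub hyT
  refine ⟨S ∪ {C.φ c}, Tav y G, y, hyT, hyn, Finset.subset_union_left,
    ⟨h.sub.trans Finset.subset_union_left, ?_, ?_, ?_, ?_, ?_, ?_⟩⟩
  · have := pe4_step Y f S P G (ρ₀ + s) h.inv {C.φ c} y hyT hyH
    rw [hyn, add_assoc] at this
    exact this
  · have := h.s0
    positivity
  · linarith
  · rintro p (⟨q, hq, rfl⟩ | ⟨q, hq, rfl⟩)
    · obtain ⟨p₀, hp₀, hp⟩ := h.near q hq
      refine ⟨p₀, hp₀, ?_⟩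
      have e : q + y - p₀ = (q - p₀) + y := by abel
      show q + y - p₀ ∈ _
      rw [e]; exact add_mem hp hyT0
    · obtain ⟨p₀, hp₀, hp⟩ := h.near q hq
      refine ⟨p₀, hp₀, ?_⟩
      have e : q - y - p₀ = (q - p₀) - y := by abel
      show q - y - p₀ ∈ _
      rw [e]; exact sub_mem hp hyT0
  · intro S' w hw hwH hn
    have h1 := hnorm w hw
    have h2 := hmem w hw
    have hwH' : w ∈ Y.H (insert (C.φ c) S') := Y.H_mono _ _ (Finset.subset_insert _ _) hwH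
    have hyH2 : y ∈ Y.H (insert (C.φ c) S') := Y.H_mono _ _ (by simp) hyH
    have g1 := h.grow (insert (C.φ c) S') (w + y) h2.1 ((Y.H _).add_mem hwH' hyH2)
      (by rw [h1.1]; linarith)
    have g2 := h.grow (insert (C.φ c) S') (w - y) h2.2 ((Y.H _).sub_mem hwH' hyH2)
      (by rw [h1.2]; linarith)
    unfold Tav
    have e1 : -(w + y) = -w - y := by abel
    have e2 : -(w - y) = -w + y := by abel
    rw [e1] at g1
    rw [e2] at g2
    linarith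
  · unfold Tav
    have hjj := hJ.2.2 y (by rw [hyn]; exact htr)
    rw [hyn] at hjj
    have hle := (abs_le.mp hjj).2
    have hB1 : B y y ≤ θ * t ^ 4 := by
      have := hBc (t • z)
      rw [map_smul, norm_smul, hz1, mul_one, Real.norm_of_nonneg ht.le, ← hy] at this
      have h3 : δ' * t ^ 2 ≤ (θ * t ^ 2) * t ^ 2 := mul_le_mul_of_nonneg_right hδ'2 (by positivity)
      have h4 : (θ * t ^ 2) * t ^ 2 = θ * t ^ 4 := by ring
      linarith
    have hA1 : A y y y y ≤ 4 * ε / r ^ 4 * t ^ 4 := by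
      rw [hy, pe4_smul_all hJ.2.1.alg]
      have := mul_le_mul_of_nonneg_left hzA.le (by positivity : 0 ≤ t ^ 4)
      linarith
    have hup := h.up
    rw [hκd] at hup ⊢
    have h8 : (θ + 4 * ε / r ^ 4 / 24) * (s + t ^ 4) = (θ + 4 * ε / r ^ 4 / 24) * s +
        (θ * t ^ 4 + (1 / 12) * (4 * ε / r ^ 4 * t ^ 4) + θ * t ^ 4) / 2 := by ring
    rw [h8]
    linarith

/-- MAIN TARGET of this job: the path argument with variable steps -/
theorem path_ext4 {X : Type*} [NormedAddCommGroup X] [NormedSpace ℝ X] [CompleteSpace X]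
    {I : Type*} [DecidableEq I] (Y : L4Sys X I) (f : X → ℝ) (G₀ : X → ℝ) (S₀ : Finset I)
    (P₀ : Set X) (ρ₀ r ε : ℝ) (hr : 0 < r) (hε : 0 < ε) (hinv : LocInv4 Y f S₀ P₀ G₀ ρ₀)
    (hgood : ∀ p ∈ P₀, GoodR f p r)
    (hgrow : ∀ (S' : Finset I) (y : X), y ∈ Y.T S₀ → y ∈ Y.H S' → ‖y‖ = r →
      G₀ 0 + ε ≤ (G₀ y + G₀ (-y)) / 2) :
    ∃ c₁ : ℝ, 0 < c₁ ∧ ∀ (E : Type) [NormedAddCommGroup E] [NormedSpace ℝ E],
      Copies Y E → Ext E (1 / r) c₁ := by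
  refine ⟨4 * ε / r ^ 4, by positivity, ?_⟩
  intro E _ _ C η hη
  by_contra hno
  push Not at hno
  have hM : 0 < 1 / r := by positivity
  obtain ⟨θ₀, hθ₀, hcf⟩ := convex_form4 (X := X) (1 / r) η hM hη
  obtain ⟨θ, hθd⟩ : ∃ θ : ℝ, θ = min θ₀ (ε / (4 * r ^ 4)) := ⟨_, rfl⟩
  have hθ : 0 < θ := by rw [hθd]; exact lt_min hθ₀ (by positivity)
  have hθ1 : θ ≤ θ₀ := by rw [hθd]; exact min_le_left _ _
  have hθ2 : θ * r ^ 4 ≤ ε / 4 := by
    have : θ ≤ ε / (4 * r ^ 4) := by rw [hθd]; exact min_le_right _ _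
    rw [le_div_iff₀ (by positivity)] at this
    linarith
  obtain ⟨κ, hκd⟩ : ∃ κ : ℝ, κ = θ + 4 * ε / r ^ 4 / 24 := ⟨_, rfl⟩
  have hκ : κ * r ^ 4 < ε := by
    have e1 : 4 * ε / r ^ 4 / 24 * r ^ 4 = ε / 6 := by
      field_simp
      ring
    rw [hκd, add_mul, e1]
    linarith
  have hpow : ∀ r : ℝ, 0 < r → ∃ j : ℕ, (1 / 2 : ℝ) ^ j ≤ r := by
    intro r hr
    obtain ⟨j, hj⟩ := exists_pow_lt_of_lt_one hr (by norm_num : (1 / 2 : ℝ) < 1)
    exact ⟨j, hj.le⟩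
  have humono : ∀ {r1 r2 : ℝ} {q : X}, r1 ≤ r2 → UJet f (1 / r) θ r2 q → UJet f (1 / r) θ r1 q := by
    rintro r1 r2 q h12 ⟨B, A, h⟩
    exact ⟨B, A, pe4_mono le_rfl h12 h⟩
  -- uniform radius on compact sets
  have hK : ∀ K : Set X, IsCompact K → K ⊆ (⋃ p₀ ∈ P₀, Metric.closedBall p₀ r) →
      ∃ j : ℕ, ∀ q ∈ K, UJet f (1 / r) θ ((1 / 2 : ℝ) ^ j) q := by
    intro K hKc hKs
    have h1 : ∀ p₀ ∈ P₀, ∃ j : ℕ, ∀ q ∈ K ∩ Metric.closedBall p₀ r,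
        UJet f (1 / r) θ ((1 / 2 : ℝ) ^ j) q := by
      intro p₀ hp₀
      obtain ⟨r', hr', h⟩ := hgood p₀ hp₀ (K ∩ Metric.closedBall p₀ r)
        (hKc.inter_right Metric.isClosed_closedBall) (fun q hq => by
          have := hq.2
          rwa [Metric.mem_closedBall, dist_eq_norm] at this) θ hθ
      obtain ⟨j, hj⟩ := hpow r' hr'
      exact ⟨j, fun q hq => humono hj (h q hq)⟩
    choose! jj hjj using h1
    refine ⟨hinv.fin.toFinset.sup jj, fun q hq => ?_⟩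
    obtain ⟨p₀, hp₀, hqp⟩ := Set.mem_iUnion₂.1 (hKs hq)
    refine humono ?_ (hjj p₀ hp₀ q ⟨hq, hqp⟩)
    refine pow_le_pow_of_le_one (by norm_num) (by norm_num) ?_
    exact Finset.le_sup (f := jj) (hinv.fin.mem_toFinset.2 hp₀)
  -- the states
  let St := {x : Finset I × Set X × (X → ℝ) × ℝ //
    Pe4Inv Y f G₀ S₀ P₀ ρ₀ r ε κ x.1 x.2.1 x.2.2.1 x.2.2.2}
  have hlt : ∀ σ : St, σ.1.2.2.2 < r ^ 4 := by
    intro σ
    refine lt_of_le_of_ne σ.2.s1 fun heq => ?_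
    have h1 := σ.2.grow ∅ 0 (Y.T _).zero_mem (Y.H _).zero_mem (by rw [norm_zero, heq]; ring)
    have h2 := σ.2.up
    rw [heq] at h2
    rw [neg_zero] at h1
    linarith
  have hball : ∀ σ : St, σ.1.2.1 ⊆ ⋃ p₀ ∈ P₀, Metric.closedBall p₀ r := by
    intro σ p hp
    obtain ⟨p₀, hp₀, hpp⟩ := σ.2.near p hp
    refine Set.mem_iUnion₂.2 ⟨p₀, hp₀, ?_⟩
    rw [Metric.mem_closedBall, dist_eq_norm]
    have h1 := Y.add4 S₀ p₀ (hinv.memH p₀ hp₀) (p - p₀) hpp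
    rw [add_sub_cancel, σ.2.inv.nrm p hp, hinv.nrm p₀ hp₀] at h1
    have h2 : ‖p - p₀‖ ^ 4 ≤ r ^ 4 := by
      have := σ.2.s1
      linarith
    exact le_of_pow_le_pow_left₀ (by norm_num) hr.le h2
  have hex : ∀ σ : St, ∃ j : ℕ, ∀ p ∈ σ.1.2.1, UJet f (1 / r) θ ((1 / 2 : ℝ) ^ j) p :=
    fun σ => hK _ σ.2.inv.fin.isCompact (hball σ)
  classical
  have hnext : ∀ σ : St, ∃ σ' : St, ∃ y : X, y ∈ Y.T σ.1.1 ∧
      ‖y‖ = (1 / 2 : ℝ) ^ (Nat.find (hex σ)) ∧ σ.1.1 ⊆ σ'.1.1 ∧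
      σ'.1.2.1 = (fun p => p + y) '' σ.1.2.1 ∪ (fun p => p - y) '' σ.1.2.1 ∧
      σ'.1.2.2.2 = σ.1.2.2.2 + ‖y‖ ^ 4 := by
    intro σ
    have hstep : ∀ t : ℝ, 0 < t → t ≤ (1 / 2 : ℝ) ^ (Nat.find (hex σ)) →
        t ^ 4 ≤ r ^ 4 - σ.1.2.2.2 → ∃ σ' : St, ∃ y : X, y ∈ Y.T σ.1.1 ∧ ‖y‖ = t ∧
        σ.1.1 ⊆ σ'.1.1 ∧ σ'.1.2.1 = (fun p => p + y) '' σ.1.2.1 ∪ (fun p => p - y) '' σ.1.2.1 ∧
        σ'.1.2.2.2 = σ.1.2.2.2 + t ^ 4 := by
      intro t ht htr hts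
      obtain ⟨S', G', y, h1, h2, h3, h4⟩ := pe4_next Y f G₀ S₀ P₀ ρ₀ r ε θ θ₀ η κ hθ hθ1 hκd hcf E
        C hno _ _ _ _ σ.2 _ t ht htr hts (Nat.find_spec (hex σ))
      exact ⟨⟨(S', (fun p => p + y) '' σ.1.2.1 ∪ (fun p => p - y) '' σ.1.2.1, G',
        σ.1.2.2.2 + t ^ 4), h4⟩, y, h1, h2, h3, rfl, rfl⟩
    have ht0 : (0 : ℝ) < (1 / 2 : ℝ) ^ (Nat.find (hex σ)) := by positivity
    by_cases hle : ((1 / 2 : ℝ) ^ (Nat.find (hex σ))) ^ 4 ≤ r ^ 4 - σ.1.2.2.2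
    · obtain ⟨σ', y, h1, h2, h3, h4, h5⟩ := hstep _ ht0 le_rfl hle
      exact ⟨σ', y, h1, h2, h3, h4, by rw [h2]; exact h5⟩
    · exfalso
      rw [not_le] at hle
      have hpos : 0 < r ^ 4 - σ.1.2.2.2 := sub_pos.2 (hlt σ)
      obtain ⟨t, ht0', ht4⟩ : ∃ t : ℝ, 0 < t ∧ t ^ 4 = r ^ 4 - σ.1.2.2.2 := by
        refine ⟨Real.sqrt (Real.sqrt (r ^ 4 - σ.1.2.2.2)), by positivity, ?_⟩
        have e : ∀ a : ℝ, a ^ 4 = (a ^ 2) ^ 2 := fun a => by ring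
        rw [e, Real.sq_sqrt (Real.sqrt_nonneg _), Real.sq_sqrt hpos.le]
      have htr : t ≤ (1 / 2 : ℝ) ^ (Nat.find (hex σ)) := by
        refine le_of_pow_le_pow_left₀ (n := 4) (by norm_num) ht0.le ?_
        rw [ht4]; exact hle.le
      obtain ⟨σ', y, -, -, -, -, h5⟩ := hstep t ht0' htr ht4.le
      have := hlt σ'
      rw [h5, ht4] at this
      linarith
  choose nxt ynx hn using hnext
  let σ : ℕ → St := fun n => Nat.rec
    ⟨(S₀, P₀, G₀, 0), ⟨Finset.Subset.refl _, by rw [add_zero]; exact hinv, le_rfl, by positivity,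
      fun p hp => ⟨p, hp, by rw [sub_self]; exact Submodule.zero_mem _⟩, fun S' w hw hw' hn =>
        hgrow S' w hw hw' ((pow_left_inj₀ (norm_nonneg _) hr.le (by norm_num : (4 : ℕ) ≠ 0)).1
          (by rw [← hn, add_zero])), by rw [mul_zero, add_zero]⟩⟩ (fun n s => nxt s) n
  have hσs : ∀ n, σ (n + 1) = nxt (σ n) := fun n => rfl
  set y : ℕ → X := fun n => ynx (σ n) with hy
  have hs : ∀ n, y n ∈ Y.T (σ n).1.1 ∧
      ‖y n‖ = (1 / 2 : ℝ) ^ (Nat.find (hex (σ n))) ∧ (σ n).1.1 ⊆ (σ (n + 1)).1.1 ∧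
      (σ (n + 1)).1.2.1 = (fun p => p + y n) '' (σ n).1.2.1 ∪ (fun p => p - y n) '' (σ n).1.2.1 ∧
      (σ (n + 1)).1.2.2.2 = (σ n).1.2.2.2 + ‖y n‖ ^ 4 := by
    intro n
    rw [hσs]
    exact hn (σ n)
  set ρ : ℕ → ℝ := fun n => (σ n).1.2.2.2 with hρ
  have hρs : ∀ n, ρ (n + 1) = ρ n + ‖y n‖ ^ 4 := fun n => (hs n).2.2.2.2
  have hρbd : ∀ n, ρ n ≤ r ^ 4 := fun n => (σ n).2.s1
  have hbdd : BddAbove (Set.range ρ) := ⟨r ^ 4, by rintro _ ⟨n, rfl⟩; exact hρbd n⟩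
  have hSmono : ∀ k l, k ≤ l → (σ k).1.1 ⊆ (σ l).1.1 := by
    intro k l hkl
    induction l, hkl using Nat.le_induction with
    | base => exact Finset.Subset.refl _
    | succ l _ ih => exact ih.trans (hs l).2.2.1
  have hnear : ∀ k l, k ≤ l → ∀ p ∈ (σ l).1.2.1, ∃ q ∈ (σ k).1.2.1, p - q ∈ Y.T (σ k).1.1 := by
    intro k l hkl
    induction l, hkl using Nat.le_induction with
    | base => exact fun p hp => ⟨p, hp, by rw [sub_self]; exact Submodule.zero_mem _⟩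
    | succ l hkl ih =>
      intro p hp
      rw [(hs l).2.2.2.1] at hp
      have hyT : y l ∈ Y.T (σ k).1.1 := Y.T_anti _ _ (hSmono k l hkl) (hs l).1
      rcases hp with ⟨p', hp', rfl⟩ | ⟨p', hp', rfl⟩
      · obtain ⟨q, hq, hq'⟩ := ih p' hp'
        refine ⟨q, hq, ?_⟩
        have e : p' + y l - q = (p' - q) + y l := by abel
        show p' + y l - q ∈ _
        rw [e]
        exact add_mem hq' hyT
      · obtain ⟨q, hq, hq'⟩ := ih p' hp'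
        refine ⟨q, hq, ?_⟩
        have e : p' - y l - q = (p' - q) - y l := by abel
        show p' - y l - q ∈ _
        rw [e]
        exact sub_mem hq' hyT
  have hnear' : ∀ k l, k ≤ l → ∀ p ∈ (σ l).1.2.1, ∃ q ∈ (σ k).1.2.1,
      ‖p - q‖ ^ 4 = ρ l - ρ k := by
    intro k l hkl p hp
    obtain ⟨q, hq, hq'⟩ := hnear k l hkl p hp
    refine ⟨q, hq, ?_⟩
    have h1 := Y.add4 (σ k).1.1 q ((σ k).2.inv.memH q hq) (p - q) hq'
    rw [add_sub_cancel, (σ l).2.inv.nrm p hp, (σ k).2.inv.nrm q hq] at h1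
    show _ = (σ l).1.2.2.2 - (σ k).1.2.2.2
    linarith
  set U : Set X := ⋃ n, (σ n).1.2.1 with hU
  have hUtb : TotallyBounded U := by
    rw [Metric.totallyBounded_iff]
    intro δ hδ
    have hsup' : (⨆ n, ρ n) - δ ^ 4 < ⨆ n, ρ n := by
      have h4 : 0 < δ ^ 4 := by positivity
      linarith
    obtain ⟨k, hk⟩ := exists_lt_of_lt_ciSup hsup'
    refine ⟨⋃ n ∈ Finset.range (k + 1), (σ n).1.2.1,
      Set.Finite.biUnion (Finset.finite_toSet _) fun n _ => (σ n).2.inv.fin, ?_⟩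
    intro p hp
    obtain ⟨l, hl⟩ := Set.mem_iUnion.1 hp
    rcases le_total k l with hkl | hkl
    · obtain ⟨q, hq, hpq⟩ := hnear' k l hkl p hl
      refine Set.mem_iUnion₂.2 ⟨q, Set.mem_iUnion₂.2 ⟨k, Finset.mem_range.2 (by omega), hq⟩, ?_⟩
      rw [Metric.mem_ball, dist_eq_norm]
      have h1 : ‖p - q‖ ^ 4 < δ ^ 4 := by
        rw [hpq]
        have := le_ciSup hbdd l
        linarith
      exact lt_of_pow_lt_pow_left₀ 4 hδ.le h1
    · refine Set.mem_iUnion₂.2 ⟨p, Set.mem_iUnion₂.2 ⟨l, Finset.mem_range.2 (by omega), hl⟩, ?_⟩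
      exact Metric.mem_ball_self hδ
  have hKc : IsCompact (closure U) :=
    hUtb.closure.isCompact_of_isClosed isClosed_closure
  have hKs : closure U ⊆ ⋃ p₀ ∈ P₀, Metric.closedBall p₀ r := by
    refine closure_minimal ?_ (hinv.fin.isClosed_biUnion fun p _ => Metric.isClosed_closedBall)
    intro p hp
    obtain ⟨l, hl⟩ := Set.mem_iUnion.1 hp
    exact hball (σ l) hl
  obtain ⟨J, hJ⟩ := hK _ hKc hKs
  have hfind : ∀ n, Nat.find (hex (σ n)) ≤ J := by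
    intro n
    exact Nat.find_min' _ fun p hp => hJ p (subset_closure (Set.mem_iUnion.2 ⟨n, hp⟩))
  have hyn : ∀ n, (1 / 2 : ℝ) ^ J ≤ ‖y n‖ := by
    intro n
    rw [(hs n).2.1]
    exact pow_le_pow_of_le_one (by norm_num) (by norm_num) (hfind n)
  have hgrow' : ∀ n : ℕ, (n : ℝ) * ((1 / 2 : ℝ) ^ J) ^ 4 ≤ ρ n := by
    intro n
    induction n with
    | zero =>
      have := (σ 0).2.s0
      simp only [Nat.cast_zero, zero_mul]
      exact this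
    | succ n ih =>
      rw [hρs]
      have h1 : ((1 / 2 : ℝ) ^ J) ^ 4 ≤ ‖y n‖ ^ 4 := by
        have := hyn n
        gcongr
      push_cast
      linarith
  have hc : 0 < ((1 / 2 : ℝ) ^ J) ^ 4 := by positivity
  obtain ⟨n, hn⟩ := exists_nat_gt (r ^ 4 / ((1 / 2 : ℝ) ^ J) ^ 4)
  rw [div_lt_iff₀ hc] at hn
  have := hgrow' n
  have := hρbd n
  linarith


end Pool.Agent.Helper964.Ros
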