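import Mathlib
import Pool.Agent.Helper964.Ros.Defs

set_option autoImplicit false

namespace Pool.Agent.Helper964.Ros

open Set

theorem level_half {V : Type*} [Fintype V] (d : V → V → ℕ) (hs : ∀ x y, d x y = d y x)
    (ht : ∀ x y z, d x z ≤ d x y + d y z) (R : ℕ) (μ ν : V → ℝ) (hμ : ∀ u, 0 ≤ μ u)
    (hν : ∀ u, 0 ≤ ν u) (P : V → V → Prop) [∀ x y, Decidable (P x y)]
    (hP : ∀ x y, P x y → (∑ y', if d x y' ≤ R then ν y' else 0) ≤
      ∑ x', if d x' y ≤ R then μ x' else 0) :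
    (∑ x, ∑ y, if d x y ≤ R ∧ P x y then μ x * ν y else 0) ≤
      ∑ x, ∑ y, if d x y ≤ 2 * R then μ x * μ y else 0 := by
  apply Finset.sum_le_sum
  intro x _
  have e1 : (∑ y, if d x y ≤ R ∧ P x y then μ x * ν y else 0) =
      μ x * ∑ y, if d x y ≤ R ∧ P x y then ν y else 0 := by
    rw [Finset.mul_sum]
    apply Finset.sum_congr rfl
    intro y _
    split_ifs
    · rfl
    · rw [mul_zero]
  have e2 : (∑ y, if d x y ≤ 2 * R then μ x * μ y else 0) =
      μ x * ∑ y, if d x y ≤ 2 * R then μ y else 0 := by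
    rw [Finset.mul_sum]
    apply Finset.sum_congr rfl
    intro y _
    split_ifs
    · rfl
    · rw [mul_zero]
  rw [e1, e2]
  apply mul_le_mul_of_nonneg_left _ (hμ x)
  by_cases hex : ∃ y, d x y ≤ R ∧ P x y
  · obtain ⟨y0, hy0, hPy0⟩ := hex
    calc (∑ y, if d x y ≤ R ∧ P x y then ν y else 0) ≤ ∑ y, if d x y ≤ R then ν y else 0 := by
          apply Finset.sum_le_sum
          intro y _
          by_cases h1 : d x y ≤ R
          · by_cases h2 : P x y
            · simp [h1, h2]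
            · simp [h1, h2, hν y]
          · simp [h1]
      _ ≤ ∑ x', if d x' y0 ≤ R then μ x' else 0 := hP x y0 hPy0
      _ ≤ ∑ y, if d x y ≤ 2 * R then μ y else 0 := by
          apply Finset.sum_le_sum
          intro x' _
          by_cases h1 : d x' y0 ≤ R
          · have h2 : d x x' ≤ 2 * R := by
              have h3 := ht x y0 x'
              rw [hs y0 x'] at h3
              omega
            rw [if_pos h1, if_pos h2]
          · rw [if_neg h1]
            split_ifs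
            · exact hμ x'
            · exact le_rfl
  · push Not at hex
    have e3 : (∑ y, if d x y ≤ R ∧ P x y then ν y else 0) = 0 := by
      apply Finset.sum_eq_zero
      intro y _
      rw [if_neg]
      rintro ⟨h1, h2⟩
      exact hex y h1 h2
    rw [e3]
    apply Finset.sum_nonneg
    intro y _
    split_ifs
    · exact hμ y
    · exact le_rfl

/-- level inequality for balls in a finite metric space -/
theorem level_ineq {V : Type*} [Fintype V] (d : V → V → ℕ) (hs : ∀ x y, d x y = d y x)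
    (ht : ∀ x y z, d x z ≤ d x y + d y z) (R : ℕ) (μ ν : V → ℝ) (hμ : ∀ u, 0 ≤ μ u)
    (hν : ∀ u, 0 ≤ ν u) :
    (∑ x, ∑ y, if d x y ≤ R then μ x * ν y else 0) ≤
      (∑ x, ∑ y, if d x y ≤ 2 * R then μ x * μ y else 0) +
      (∑ x, ∑ y, if d x y ≤ 2 * R then ν x * ν y else 0) := by
  classical
  have h1 := level_half d hs ht R μ ν hμ hν
    (fun x y => (∑ y', if d x y' ≤ R then ν y' else 0) ≤
      ∑ x', if d x' y ≤ R then μ x' else 0) (fun x y h => h)
  have h2 := level_half d hs ht R ν μ hν hμ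
    (fun y x => ¬ ((∑ y', if d x y' ≤ R then ν y' else 0) ≤
      ∑ x', if d x' y ≤ R then μ x' else 0)) (fun y x h => by
      have e1 : (∑ y', if d y y' ≤ R then μ y' else 0) = ∑ x', if d x' y ≤ R then μ x' else 0 := by
        apply Finset.sum_congr rfl
        intro x' _
        rw [hs y x']
      have e2 : (∑ x', if d x' x ≤ R then ν x' else 0) =
          ∑ y', if d x y' ≤ R then ν y' else 0 := by
        apply Finset.sum_congr rfl
        intro x' _
        rw [hs x x']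
      rw [e1, e2]
      exact (not_le.mp h).le)
  have e : (∑ x, ∑ y, if d x y ≤ R then μ x * ν y else 0) =
      (∑ x, ∑ y, if d x y ≤ R ∧ ((∑ y', if d x y' ≤ R then ν y' else 0) ≤
        ∑ x', if d x' y ≤ R then μ x' else 0) then μ x * ν y else 0) +
      (∑ y, ∑ x, if d y x ≤ R ∧ ¬ ((∑ y', if d x y' ≤ R then ν y' else 0) ≤
        ∑ x', if d x' y ≤ R then μ x' else 0) then ν y * μ x else 0) := by
    rw [Finset.sum_comm (f := fun y x => if d y x ≤ R ∧
      ¬ ((∑ y', if d x y' ≤ R then ν y' else 0) ≤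
        ∑ x', if d x' y ≤ R then μ x' else 0) then ν y * μ x else 0), ← Finset.sum_add_distrib]
    apply Finset.sum_congr rfl
    intro x _
    rw [← Finset.sum_add_distrib]
    apply Finset.sum_congr rfl
    intro y _
    rw [hs y x]
    by_cases h3 : d x y ≤ R
    · by_cases h4 : ((∑ y', if d x y' ≤ R then ν y' else 0) ≤
        ∑ x', if d x' y ≤ R then μ x' else 0)
      · rw [if_pos h3, if_pos ⟨h3, h4⟩, if_neg (fun h => h.2 h4), add_zero]
      · rw [if_pos h3, if_neg (fun h => h4 h.2), if_pos ⟨h3, h4⟩, zero_add, mul_comm]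
    · rw [if_neg h3, if_neg (fun h => h3 h.1), if_neg (fun h => h3 h.1), add_zero]
  rw [e]
  refine add_le_add ?_ ?_
  · convert h1
  · convert h2

theorem isKer_metric_geom (c : ℕ) : ∀ L : ℕ, c ≤ L → (1 / 4 : ℝ) ^ c =
    (1 / 4) ^ L + ∑ j ∈ Finset.range L, (3 / 4) * (1 / 4) ^ j * (if c ≤ j then (1 : ℝ) else 0) := by
  intro L hL
  induction L, hL using Nat.le_induction with
  | base =>
    rw [Finset.sum_eq_zero, add_zero]
    intro j hj
    rw [if_neg (by rw [Finset.mem_range] at hj; omega), mul_zero]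
  | succ L hL ih =>
    rw [Finset.sum_range_succ, if_pos hL, ih]
    ring

/-- truncated energy -/
noncomputable def isKer_metric_E {V : Type*} [Fintype V] (d : V → V → ℕ) (R : ℕ) (μ ν : V → ℝ) : ℝ :=
  ∑ x, ∑ y, if d x y ≤ R then μ x * ν y else 0

theorem isKer_metric_expand {V : Type*} [Fintype V] (d : V → V → ℕ) (L : ℕ)
    (hL : ∀ u v, d u v ≤ 2 ^ L) (μ ν : V → ℝ) :
    kform (fun u v => (1 / 4 : ℝ) ^ Nat.clog 2 (d u v)) μ ν =
      (1 / 4) ^ L * isKer_metric_E d (2 ^ L) μ ν +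
        ∑ j ∈ Finset.range L, (3 / 4) * (1 / 4) ^ j * isKer_metric_E d (2 ^ j) μ ν := by
  unfold kform isKer_metric_E
  have e1 : ∑ j ∈ Finset.range L, (3 / 4) * (1 / 4 : ℝ) ^ j *
      (∑ x, ∑ y, if d x y ≤ 2 ^ j then μ x * ν y else 0) =
      ∑ x, ∑ y, ∑ j ∈ Finset.range L, (3 / 4) * (1 / 4) ^ j *
        (if d x y ≤ 2 ^ j then μ x * ν y else 0) := by
    simp_rw [Finset.mul_sum]
    rw [Finset.sum_comm]
    apply Finset.sum_congr rfl
    intro x _
    rw [Finset.sum_comm]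
  rw [e1, Finset.mul_sum, ← Finset.sum_add_distrib]
  apply Finset.sum_congr rfl
  intro x _
  rw [Finset.mul_sum, ← Finset.sum_add_distrib]
  apply Finset.sum_congr rfl
  intro y _
  rw [if_pos (hL x y)]
  have hc : Nat.clog 2 (d x y) ≤ L := (Nat.clog_le_iff_le_pow (by norm_num)).2 (hL x y)
  show (1 / 4 : ℝ) ^ Nat.clog 2 (d x y) * (μ x * ν y) = _
  rw [isKer_metric_geom _ L hc, add_mul, Finset.sum_mul]
  congr 1
  apply Finset.sum_congr rfl
  intro j _
  by_cases h : d x y ≤ 2 ^ j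
  · rw [if_pos h, if_pos ((Nat.clog_le_iff_le_pow (by norm_num)).2 h)]; ring
  · rw [if_neg h, if_neg (fun h' => h ((Nat.clog_le_iff_le_pow (by norm_num)).1 h'))]; ring

theorem isKer_metric_E_nonneg {V : Type*} [Fintype V] (d : V → V → ℕ) (R : ℕ) (μ ν : V → ℝ)
    (hμ : ∀ u, 0 ≤ μ u) (hν : ∀ u, 0 ≤ ν u) : 0 ≤ isKer_metric_E d R μ ν := by
  unfold isKer_metric_E
  apply Finset.sum_nonneg; intro x _
  apply Finset.sum_nonneg; intro y _
  split_ifs
  · exact mul_nonneg (hμ x) (hν y)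
  · exact le_rfl

theorem isKer_metric_shift (A : ℕ → ℝ) (hA : 0 ≤ A 0) (L : ℕ) :
    (1 / 4) ^ L * A L + ∑ j ∈ Finset.range L, (3 / 4) * (1 / 4) ^ j * A (j + 1) ≤
      4 * ((1 / 4) ^ L * A L + ∑ j ∈ Finset.range L, (3 / 4) * (1 / 4) ^ j * A j) := by
  have h1 := Finset.sum_range_succ (fun j => (3 / 4) * (1 / 4 : ℝ) ^ j * A j) L
  have h2 := Finset.sum_range_succ' (fun j => (3 / 4) * (1 / 4 : ℝ) ^ j * A j) L
  have h3 : ∑ j ∈ Finset.range L, (3 / 4) * (1 / 4 : ℝ) ^ j * A (j + 1) =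
      4 * ∑ j ∈ Finset.range L, (3 / 4) * (1 / 4 : ℝ) ^ (j + 1) * A (j + 1) := by
    rw [Finset.mul_sum]
    apply Finset.sum_congr rfl
    intro j _
    ring
  simp only [pow_zero, mul_one] at h2
  rw [h3]
  linarith

theorem isKer_metric_half {V : Type*} [Fintype V] (d : V → V → ℕ)
    (hs : ∀ x y, d x y = d y x) (ht : ∀ x y z, d x z ≤ d x y + d y z) (μ ν : V → ℝ)
    (hμ : ∀ u, 0 ≤ μ u) (hν : ∀ u, 0 ≤ ν u) :
    kform (fun u v => (1 / 4 : ℝ) ^ Nat.clog 2 (d u v)) μ ν ≤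
      4 * (kform (fun u v => (1 / 4 : ℝ) ^ Nat.clog 2 (d u v)) μ μ +
        kform (fun u v => (1 / 4 : ℝ) ^ Nat.clog 2 (d u v)) ν ν) := by
  obtain ⟨L, hL⟩ : ∃ L : ℕ, ∀ u v, d u v ≤ 2 ^ L := by
    refine ⟨∑ u, ∑ v, d u v, fun u v => ?_⟩
    have h1 : d u v ≤ ∑ v, d u v :=
      Finset.single_le_sum (f := fun v => d u v) (fun _ _ => Nat.zero_le _) (Finset.mem_univ v)
    have h2 : ∑ v, d u v ≤ ∑ u, ∑ v, d u v :=
      Finset.single_le_sum (f := fun u => ∑ v, d u v) (fun _ _ => Nat.zero_le _) (Finset.mem_univ u)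
    exact (h1.trans h2).trans Nat.lt_two_pow_self.le
  rw [isKer_metric_expand d L hL μ ν, isKer_metric_expand d L hL μ μ,
    isKer_metric_expand d L hL ν ν]
  have hlev : ∀ j, isKer_metric_E d (2 ^ j) μ ν ≤
      isKer_metric_E d (2 ^ (j + 1)) μ μ + isKer_metric_E d (2 ^ (j + 1)) ν ν := by
    intro j
    have := level_ineq d hs ht (2 ^ j) μ ν hμ hν
    rw [← pow_succ'] at this
    exact this
  have htop : isKer_metric_E d (2 ^ L) μ ν ≤
      isKer_metric_E d (2 ^ L) μ μ + isKer_metric_E d (2 ^ L) ν ν := by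
    have hE : ∀ α β : V → ℝ, isKer_metric_E d (2 ^ L) α β = (∑ x, α x) * ∑ y, β y := by
      intro α β
      unfold isKer_metric_E
      rw [Finset.sum_mul_sum]
      apply Finset.sum_congr rfl; intro x _
      apply Finset.sum_congr rfl; intro y _
      rw [if_pos (hL x y)]
    rw [hE, hE, hE]
    have h1 : 0 ≤ ∑ x, μ x := Finset.sum_nonneg fun x _ => hμ x
    have h2 : 0 ≤ ∑ x, ν x := Finset.sum_nonneg fun x _ => hν x
    nlinarith [sq_nonneg ((∑ x, μ x) - ∑ x, ν x), mul_nonneg h1 h2, mul_nonneg h1 h1,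
      mul_nonneg h2 h2]
  have s1 := isKer_metric_shift (fun j => isKer_metric_E d (2 ^ j) μ μ)
    (isKer_metric_E_nonneg d _ μ μ hμ hμ) L
  have s2 := isKer_metric_shift (fun j => isKer_metric_E d (2 ^ j) ν ν)
    (isKer_metric_E_nonneg d _ ν ν hν hν) L
  have s3 : ∑ j ∈ Finset.range L, (3 / 4) * (1 / 4 : ℝ) ^ j * isKer_metric_E d (2 ^ j) μ ν ≤
      (∑ j ∈ Finset.range L, (3 / 4) * (1 / 4 : ℝ) ^ j * isKer_metric_E d (2 ^ (j + 1)) μ μ) +
      ∑ j ∈ Finset.range L, (3 / 4) * (1 / 4 : ℝ) ^ j * isKer_metric_E d (2 ^ (j + 1)) ν ν := by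
    rw [← Finset.sum_add_distrib]
    apply Finset.sum_le_sum
    intro j _
    rw [← mul_add]
    exact mul_le_mul_of_nonneg_left (hlev j) (by positivity)
  have s4 : (1 / 4 : ℝ) ^ L * isKer_metric_E d (2 ^ L) μ ν ≤
      (1 / 4 : ℝ) ^ L * isKer_metric_E d (2 ^ L) μ μ + (1 / 4 : ℝ) ^ L * isKer_metric_E d (2 ^ L) ν ν := by
    rw [← mul_add]
    exact mul_le_mul_of_nonneg_left htop (by positivity)
  linarith

theorem isKer_metric_disc (K a b : ℝ) (hK : 0 ≤ K) (ha : 0 ≤ a) (hb : 0 ≤ b)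
    (h : ∀ t : ℝ, 0 < t → K * t ≤ 4 * (t ^ 2 * a + b)) : K ^ 2 ≤ 64 * (a * b) := by
  rcases hK.eq_or_lt with hK0 | hK0
  · rw [← hK0]
    have := mul_nonneg ha hb
    nlinarith
  · rcases ha.eq_or_lt with ha0 | ha0
    · exfalso
      have h1 := h ((4 * b + 1) / K) (by positivity)
      rw [mul_div_cancel₀ _ hK0.ne', ← ha0] at h1
      linarith
    · have h1 := h (K / (8 * a)) (by positivity)
      have e1 : K * (K / (8 * a)) = K ^ 2 / (8 * a) := by ring
      have e2 : 4 * ((K / (8 * a)) ^ 2 * a + b) = K ^ 2 / (16 * a) + 4 * b := by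
        field_simp; ring
      rw [e1, e2] at h1
      have e3 : K ^ 2 / (8 * a) = 2 * (K ^ 2 / (16 * a)) := by field_simp; ring
      rw [e3] at h1
      have h2 : K ^ 2 / (16 * a) ≤ 4 * b := by linarith
      rw [div_le_iff₀ (by positivity)] at h2
      linarith

/-- MAIN TARGET: the kernel `4^(-clog₂ d)` of an integer metric satisfies the cone
Cauchy-Schwarz inequality -/
theorem isKer_metric {V : Type*} [Fintype V] (d : V → V → ℕ) (h0 : ∀ x, d x x = 0)
    (hs : ∀ x y, d x y = d y x) (ht : ∀ x y z, d x z ≤ d x y + d y z) :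
    IsKer (fun u v => (1 / 4 : ℝ) ^ Nat.clog 2 (d u v)) := by
  refine ⟨fun u v => by simp only [hs u v], fun u v => by positivity,
    fun u v => pow_le_one₀ (by norm_num) (by norm_num), fun u => by simp [h0], ?_⟩
  intro μ ν hμ hν
  have hnn : ∀ α β : V → ℝ, (∀ u, 0 ≤ α u) → (∀ u, 0 ≤ β u) →
      0 ≤ kform (fun u v => (1 / 4 : ℝ) ^ Nat.clog 2 (d u v)) α β := by
    intro α β hα hβ
    unfold kform
    apply Finset.sum_nonneg; intro x _
    apply Finset.sum_nonneg; intro y _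
    exact mul_nonneg (by positivity) (mul_nonneg (hα x) (hβ y))
  apply isKer_metric_disc _ _ _ (hnn _ _ hμ hν) (hnn _ _ hμ hμ) (hnn _ _ hν hν)
  intro t htp
  have h1 := isKer_metric_half d hs ht (fun u => t * μ u) ν (fun u => mul_nonneg htp.le (hμ u)) hν
  have e1 : kform (fun u v => (1 / 4 : ℝ) ^ Nat.clog 2 (d u v)) (fun u => t * μ u) ν =
      kform (fun u v => (1 / 4 : ℝ) ^ Nat.clog 2 (d u v)) μ ν * t := by
    unfold kform
    rw [Finset.sum_mul]
    apply Finset.sum_congr rfl; intro x _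
    rw [Finset.sum_mul]
    apply Finset.sum_congr rfl; intro y _
    ring
  have e2 : kform (fun u v => (1 / 4 : ℝ) ^ Nat.clog 2 (d u v)) (fun u => t * μ u)
      (fun u => t * μ u) = t ^ 2 * kform (fun u v => (1 / 4 : ℝ) ^ Nat.clog 2 (d u v)) μ μ := by
    unfold kform
    rw [Finset.mul_sum]
    apply Finset.sum_congr rfl; intro x _
    rw [Finset.mul_sum]
    apply Finset.sum_congr rfl; intro y _
    ring
  rw [e1, e2] at h1
  exact h1

/-- weighted `ℓ²` seminorm -/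
noncomputable def wsem_aux {V : Type*} [Fintype V] (w : V → ℝ) : Seminorm ℝ (V → ℝ) :=
  (normSeminorm ℝ (EuclideanSpace ℝ V)).comp
    ((WithLp.linearEquiv 2 ℝ (V → ℝ)).symm.toLinearMap ∘ₗ
      (LinearMap.pi fun v => Real.sqrt (w v) • LinearMap.proj v))

theorem wsem_aux_sq {V : Type*} [Fintype V] (w : V → ℝ) (hw : ∀ v, 0 ≤ w v) (x : V → ℝ) :
    wsem_aux w x ^ 2 = ∑ v, w v * x v ^ 2 := by
  have h : wsem_aux w x = ‖WithLp.toLp 2 (fun v => Real.sqrt (w v) * x v)‖ := rfl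
  rw [h, EuclideanSpace.norm_sq_eq]
  refine Finset.sum_congr rfl fun v _ => ?_
  rw [Real.norm_eq_abs, sq_abs, mul_pow, Real.sq_sqrt (hw v)]

/-- the norm attached to a kernel -/
theorem exists_norm {V : Type*} [Fintype V] (k : V → V → ℝ) (hk : IsKer k) :
    ∃ N : Seminorm ℝ (V → ℝ), ∀ x, Qk k x ≤ N x ^ 4 ∧ N x ^ 4 ≤ 64 * Qk k x := by
  classical
  let S := {s : V → ℝ // (∀ u, 0 ≤ s u) ∧ kform k s s ≤ 1}
  let w : S → V → ℝ := fun s v => ∑ u, k u v * s.1 u
  have hw : ∀ s v, 0 ≤ w s v := fun s v =>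
    Finset.sum_nonneg fun u _ => mul_nonneg (hk.nonneg u v) (s.2.1 u)
  let p : S → Seminorm ℝ (V → ℝ) := fun s => wsem_aux (w s)
  have hp2 : ∀ s x, p s x ^ 2 = kform k s.1 (fun v => x v ^ 2) := by
    intro s x
    rw [show p s x = wsem_aux (w s) x from rfl, wsem_aux_sq _ (hw s)]
    unfold kform
    rw [Finset.sum_comm]
    refine Finset.sum_congr rfl fun v _ => ?_
    rw [Finset.sum_mul]
    refine Finset.sum_congr rfl fun u _ => ?_
    ring
  have hQ : ∀ x : V → ℝ, kform k (fun v => x v ^ 2) (fun v => x v ^ 2) = Qk k x := fun x => rfl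
  have hQ0 : ∀ x : V → ℝ, 0 ≤ Qk k x := fun x =>
    Finset.sum_nonneg fun u _ => Finset.sum_nonneg fun v _ =>
      mul_nonneg (hk.nonneg u v) (by positivity)
  have hkf0 : ∀ s : S, 0 ≤ kform k s.1 s.1 := fun s =>
    Finset.sum_nonneg fun u _ => Finset.sum_nonneg fun v _ =>
      mul_nonneg (hk.nonneg u v) (mul_nonneg (s.2.1 u) (s.2.1 v))
  have hp4 : ∀ s x, p s x ^ 4 ≤ 64 * Qk k x := by
    intro s x
    have h1 : p s x ^ 4 = (p s x ^ 2) ^ 2 := by ring
    rw [h1, hp2]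
    have h2 := hk.cs s.1 (fun v => x v ^ 2) s.2.1 (fun v => sq_nonneg _)
    rw [hQ] at h2
    have h3 : kform k s.1 s.1 * Qk k x ≤ 1 * Qk k x :=
      mul_le_mul_of_nonneg_right s.2.2 (hQ0 x)
    linarith
  have hple : ∀ s x, p s x ≤ Real.sqrt (Real.sqrt (64 * Qk k x)) := by
    intro s x
    apply Real.le_sqrt_of_sq_le
    apply Real.le_sqrt_of_sq_le
    calc (p s x ^ 2) ^ 2 = p s x ^ 4 := by ring
      _ ≤ _ := hp4 s x
  have hbdd : BddAbove (Set.range p) := by
    rw [Seminorm.bddAbove_range_iff]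
    intro x
    refine ⟨Real.sqrt (Real.sqrt (64 * Qk k x)), ?_⟩
    rintro _ ⟨s, rfl⟩
    exact hple s x
  have hbdd' : ∀ x, BddAbove (Set.range fun s => p s x) := by
    rwa [Seminorm.bddAbove_range_iff] at hbdd
  haveI : Nonempty S := ⟨⟨fun _ => 0, fun _ => le_rfl, by simp [kform]⟩⟩
  refine ⟨⨆ s, p s, fun x => ⟨?_, ?_⟩⟩
  · rw [Seminorm.iSup_apply hbdd]
    rcases (hQ0 x).eq_or_lt with h0 | h0
    · rw [← h0]
      have : 0 ≤ ⨆ s, p s x := Real.iSup_nonneg fun s => apply_nonneg _ _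
      positivity
    · have hsq : 0 < Real.sqrt (Qk k x) := Real.sqrt_pos.2 h0
      have hss : kform k (fun v => x v ^ 2 / Real.sqrt (Qk k x))
          (fun v => x v ^ 2 / Real.sqrt (Qk k x)) = 1 := by
        have : kform k (fun v => x v ^ 2 / Real.sqrt (Qk k x))
            (fun v => x v ^ 2 / Real.sqrt (Qk k x)) = Qk k x / (Real.sqrt (Qk k x)) ^ 2 := by
          unfold kform Qk
          rw [Finset.sum_div]
          refine Finset.sum_congr rfl fun u _ => ?_
          rw [Finset.sum_div]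
          refine Finset.sum_congr rfl fun v _ => ?_
          field_simp
        rw [this, Real.sq_sqrt h0.le, div_self h0.ne']
      let s0 : S := ⟨fun v => x v ^ 2 / Real.sqrt (Qk k x), fun u => by positivity, hss.le⟩
      have h2 : p s0 x ^ 2 = Real.sqrt (Qk k x) := by
        rw [hp2]
        have : kform k s0.1 (fun v => x v ^ 2) = Qk k x / Real.sqrt (Qk k x) := by
          unfold kform Qk
          rw [Finset.sum_div]
          refine Finset.sum_congr rfl fun u _ => ?_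
          rw [Finset.sum_div]
          refine Finset.sum_congr rfl fun v _ => ?_
          show k u v * (x u ^ 2 / Real.sqrt (Qk k x) * x v ^ 2) = _
          unfold Qk
          ring
        rw [this]
        rw [div_eq_iff hsq.ne']
        exact (Real.mul_self_sqrt h0.le).symm
      have h4 : p s0 x ^ 4 = Qk k x := by
        calc p s0 x ^ 4 = (p s0 x ^ 2) ^ 2 := by ring
          _ = _ := by rw [h2, Real.sq_sqrt h0.le]
      rw [← h4]
      exact pow_le_pow_left₀ (apply_nonneg _ _) (le_ciSup (hbdd' x) s0) 4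
  · rw [Seminorm.iSup_apply hbdd]
    have h1 : (⨆ s, p s x) ≤ Real.sqrt (Real.sqrt (64 * Qk k x)) := ciSup_le fun s => hple s x
    have h0 : 0 ≤ ⨆ s, p s x := Real.iSup_nonneg fun s => apply_nonneg _ _
    calc (⨆ s, p s x) ^ 4 ≤ (Real.sqrt (Real.sqrt (64 * Qk k x))) ^ 4 :=
          pow_le_pow_left₀ h0 h1 4
      _ = ((Real.sqrt (Real.sqrt (64 * Qk k x))) ^ 2) ^ 2 := by ring
      _ = 64 * Qk k x := by
        rw [Real.sq_sqrt (Real.sqrt_nonneg _), Real.sq_sqrt (by have := hQ0 x; positivity)]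

theorem kform_abs_le {V : Type*} [Fintype V] (k : V → V → ℝ) (hk : IsKer k)
    (N : Seminorm ℝ (V → ℝ)) (hN : ∀ x, Qk k x ≤ N x ^ 4) (x y : V → ℝ) :
    kform k (fun u => |x u * y u|) (fun u => |x u * y u|) ≤ N x ^ 2 * N y ^ 2 := by
  have hx0 : 0 ≤ N x := apply_nonneg N x
  have hy0 : 0 ≤ N y := apply_nonneg N y
  have h0 : 0 ≤ kform k (fun u => |x u * y u|) (fun u => |x u * y u|) := by
    unfold kform
    exact Finset.sum_nonneg (fun u _ => Finset.sum_nonneg (fun v _ =>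
      mul_nonneg (hk.nonneg u v) (mul_nonneg (abs_nonneg _) (abs_nonneg _))))
  have hQ : ∀ z : V → ℝ, Qk k z =
      ∑ p : V × V, (Real.sqrt (k p.1 p.2) * |z p.1 * z p.2|) ^ 2 := by
    intro z
    unfold Qk
    rw [Fintype.sum_prod_type]
    refine Finset.sum_congr rfl (fun u _ => Finset.sum_congr rfl (fun v _ => ?_))
    rw [mul_pow, Real.sq_sqrt (hk.nonneg u v), sq_abs]
    ring
  have hK : kform k (fun u => |x u * y u|) (fun u => |x u * y u|) =
      ∑ p : V × V, (Real.sqrt (k p.1 p.2) * |x p.1 * x p.2|) *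
        (Real.sqrt (k p.1 p.2) * |y p.1 * y p.2|) := by
    unfold kform
    rw [Fintype.sum_prod_type]
    refine Finset.sum_congr rfl (fun u _ => Finset.sum_congr rfl (fun v _ => ?_))
    have h1 : Real.sqrt (k u v) * Real.sqrt (k u v) = k u v := Real.mul_self_sqrt (hk.nonneg u v)
    simp only [abs_mul]
    calc k u v * (|x u| * |y u| * (|x v| * |y v|))
        = (Real.sqrt (k u v) * Real.sqrt (k u v)) * (|x u| * |y u| * (|x v| * |y v|)) := by rw [h1]
      _ = _ := by ring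
  have hsq : kform k (fun u => |x u * y u|) (fun u => |x u * y u|) ^ 2 ≤
      (N x ^ 2 * N y ^ 2) ^ 2 := by
    calc kform k (fun u => |x u * y u|) (fun u => |x u * y u|) ^ 2
        ≤ Qk k x * Qk k y := by
          rw [hK, hQ x, hQ y]
          exact Finset.sum_mul_sq_le_sq_mul_sq _ _ _
      _ ≤ N x ^ 4 * N y ^ 4 := by
          have hQy : 0 ≤ Qk k y := by
            rw [hQ y]; exact Finset.sum_nonneg (fun p _ => sq_nonneg _)
          exact mul_le_mul (hN x) (hN y) hQy (by positivity)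
      _ = (N x ^ 2 * N y ^ 2) ^ 2 := by ring
  exact (sq_le_sq₀ h0 (by positivity)).1 hsq

/-- the four-linear form of a kernel is bounded for the norm of the kernel -/
theorem four_bound {V : Type*} [Fintype V] (k : V → V → ℝ) (hk : IsKer k)
    (N : Seminorm ℝ (V → ℝ)) (hN : ∀ x, Qk k x ≤ N x ^ 4) (x₁ x₂ x₃ x₄ : V → ℝ) :
    |∑ u, ∑ v, k u v * (x₁ u * x₂ u * (x₃ v * x₄ v))| ≤ 8 * (N x₁ * N x₂ * N x₃ * N x₄) := by
  have h1 : |∑ u, ∑ v, k u v * (x₁ u * x₂ u * (x₃ v * x₄ v))| ≤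
      kform k (fun u => |x₁ u * x₂ u|) (fun u => |x₃ u * x₄ u|) := by
    unfold kform
    refine (Finset.abs_sum_le_sum_abs _ _).trans (Finset.sum_le_sum (fun u _ => ?_))
    refine (Finset.abs_sum_le_sum_abs _ _).trans (Finset.sum_le_sum (fun v _ => ?_))
    rw [abs_mul, abs_mul, abs_of_nonneg (hk.nonneg u v)]
  have n1 : 0 ≤ N x₁ := apply_nonneg N _
  have n2 : 0 ≤ N x₂ := apply_nonneg N _
  have n3 : 0 ≤ N x₃ := apply_nonneg N _
  have n4 : 0 ≤ N x₄ := apply_nonneg N _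
  have hcs := hk.cs (fun u => |x₁ u * x₂ u|) (fun u => |x₃ u * x₄ u|)
    (fun u => abs_nonneg _) (fun u => abs_nonneg _)
  have hK0 : 0 ≤ kform k (fun u => |x₁ u * x₂ u|) (fun u => |x₃ u * x₄ u|) := by
    unfold kform
    exact Finset.sum_nonneg (fun u _ => Finset.sum_nonneg (fun v _ =>
      mul_nonneg (hk.nonneg u v) (mul_nonneg (abs_nonneg _) (abs_nonneg _))))
  have hB0 : 0 ≤ kform k (fun u => |x₃ u * x₄ u|) (fun u => |x₃ u * x₄ u|) := by
    unfold kform
    exact Finset.sum_nonneg (fun u _ => Finset.sum_nonneg (fun v _ =>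
      mul_nonneg (hk.nonneg u v) (mul_nonneg (abs_nonneg _) (abs_nonneg _))))
  have hA := kform_abs_le k hk N hN x₁ x₂
  have hB := kform_abs_le k hk N hN x₃ x₄
  refine h1.trans ?_
  refine (sq_le_sq₀ hK0 (by positivity)).1 ?_
  calc kform k (fun u => |x₁ u * x₂ u|) (fun u => |x₃ u * x₄ u|) ^ 2
      ≤ 64 * (kform k (fun u => |x₁ u * x₂ u|) (fun u => |x₁ u * x₂ u|) *
          kform k (fun u => |x₃ u * x₄ u|) (fun u => |x₃ u * x₄ u|)) := hcs
    _ ≤ 64 * ((N x₁ ^ 2 * N x₂ ^ 2) * (N x₃ ^ 2 * N x₄ ^ 2)) := by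
        apply mul_le_mul_of_nonneg_left _ (by norm_num)
        exact mul_le_mul hA hB hB0 (by positivity)
    _ = (8 * (N x₁ * N x₂ * N x₃ * N x₄)) ^ 2 := by ring

/-- the quartic form of a kernel is definite -/
theorem Qk_pos {V : Type*} [Fintype V] (k : V → V → ℝ) (hk : IsKer k) (x : V → ℝ)
    (hx : x ≠ 0) : 0 < Qk k x := by
  obtain ⟨u, hu⟩ := Function.ne_iff.1 hx
  have hu' : x u ≠ 0 := hu
  have hnn : ∀ a b, 0 ≤ k a b * (x a ^ 2 * x b ^ 2) := fun a b =>
    mul_nonneg (hk.nonneg a b) (by positivity)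
  unfold Qk
  refine Finset.sum_pos' (fun a _ => Finset.sum_nonneg (fun b _ => hnn a b)) ⟨u, Finset.mem_univ u, ?_⟩
  refine Finset.sum_pos' (fun b _ => hnn u b) ⟨u, Finset.mem_univ u, ?_⟩
  rw [hk.diag u]
  positivity

/-- the four-linear form of a kernel -/
theorem exists_four {V : Type*} [Fintype V] (k : V → V → ℝ) :
    ∃ T : MultilinearMap ℝ (fun _ : Fin 4 => (V → ℝ)) ℝ, ∀ m : Fin 4 → V → ℝ,
      T m = ∑ u, ∑ v, k u v * (m 0 u * m 1 u * (m 2 v * m 3 v)) := by
  have h01 : (0 : Fin 4) ≠ 1 := by decide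
  have h02 : (0 : Fin 4) ≠ 2 := by decide
  have h03 : (0 : Fin 4) ≠ 3 := by decide
  have h12 : (1 : Fin 4) ≠ 2 := by decide
  have h13 : (1 : Fin 4) ≠ 3 := by decide
  have h23 : (2 : Fin 4) ≠ 3 := by decide
  refine ⟨{ toFun := fun m => ∑ u, ∑ v, k u v * (m 0 u * m 1 u * (m 2 v * m 3 v)),
            map_update_add' := ?_, map_update_smul' := ?_ }, fun m => rfl⟩
  · intro _ m i x y
    show ∑ u, ∑ v, _ = ∑ u, ∑ v, _ + ∑ u, ∑ v, _
    rw [← Finset.sum_add_distrib]
    refine Finset.sum_congr rfl fun u _ => ?_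
    rw [← Finset.sum_add_distrib]
    refine Finset.sum_congr rfl fun v _ => ?_
    fin_cases i <;>
    · simp [Function.update_self, Function.update_of_ne, h01, h02, h03, h12, h13, h23, h01.symm,
        h02.symm, h03.symm, h12.symm, h13.symm, h23.symm]
      ring
  · intro _ m i c x
    show ∑ u, ∑ v, _ = c • ∑ u, ∑ v, _
    rw [Finset.smul_sum]
    refine Finset.sum_congr rfl fun u _ => ?_
    rw [Finset.smul_sum]
    refine Finset.sum_congr rfl fun v _ => ?_
    fin_cases i <;>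
    · simp [Function.update_self, Function.update_of_ne, h01, h02, h03, h12, h13, h23, h01.symm,
        h02.symm, h03.symm, h12.symm, h13.symm, h23.symm]
      ring


end Pool.Agent.Helper964.Ros
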