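import Mathlib
import Pool.Agent.Helper964.Ros.Defs
import Pool.Agent.Helper964.Ros.Kernel

set_option autoImplicit false

namespace Pool.Agent.Helper964.Ros

open Set

section Aux11249

variable {V : Type*} [Fintype V] [DecidableEq V]

theorem sg_sq_11249 (b : Bool) : sg b * sg b = 1 := by cases b <;> simp [sg]

theorem flip_11249 (a : V) (f : (V → Bool) → ℝ)
    (h : ∀ σ, f (Function.update σ a (!(σ a))) = - f σ) : ∑ σ, f σ = 0 := by
  have h1 : ∑ σ : V → Bool, f (Function.update σ a (!(σ a))) = ∑ σ, f σ := by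
    let F : (V → Bool) → (V → Bool) := fun σ => Function.update σ a (!(σ a))
    have hF : Function.Involutive F := by
      intro σ
      funext v
      by_cases hv : v = a
      · subst hv
        show Function.update (Function.update σ v (!(σ v))) v
          (!((Function.update σ v (!(σ v))) v)) v = σ v
        rw [Function.update_self, Function.update_self, Bool.not_not]
      · show Function.update (Function.update σ a (!(σ a))) a _ v = σ v
        rw [Function.update_of_ne hv, Function.update_of_ne hv]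
    exact Equiv.sum_comp hF.toPerm f
  have h2 : ∑ σ : V → Bool, f (Function.update σ a (!(σ a))) = - ∑ σ, f σ := by
    rw [← Finset.sum_neg_distrib]
    exact Finset.sum_congr rfl fun σ _ => h σ
  linarith

theorem sg_not_11249 (b : Bool) : sg (!b) = - sg b := by cases b <;> simp [sg]

theorem flip1_11249 (a : V) (g : (V → Bool) → ℝ)
    (h : ∀ σ, g (Function.update σ a (!(σ a))) = g σ) : ∑ σ : V → Bool, sg (σ a) * g σ = 0 := by
  apply flip_11249 a
  intro σ
  rw [Function.update_self, sg_not_11249, h]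
  ring

theorem avg_11249 (a b c d : V) :
    ∑ σ : V → Bool, sg (σ a) * sg (σ b) * sg (σ c) * sg (σ d) = 2 ^ Fintype.card V *
      ((if a = b then 1 else 0) * (if c = d then 1 else 0) +
        (if a = c then 1 else 0) * (if b = d then 1 else 0) +
        (if a = d then 1 else 0) * (if b = c then 1 else 0) -
        2 * ((if a = b then 1 else 0) * ((if b = c then 1 else 0) * (if c = d then 1 else 0)))) := by
  have hcard : ∑ σ : V → Bool, (1 : ℝ) = 2 ^ Fintype.card V := by
    rw [Finset.sum_const, Finset.card_univ, Fintype.card_fun, Fintype.card_bool, nsmul_eq_mul,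
      mul_one]
    push_cast
    rfl
  have h2 : ∀ u v : V, u ≠ v → ∑ σ : V → Bool, sg (σ u) * sg (σ v) = 0 := by
    intro u v huv
    apply flip1_11249 u (fun σ => sg (σ v))
    intro σ
    rw [Function.update_of_ne (Ne.symm huv)]
  by_cases hab : a = b
  · subst hab
    have e1 : ∀ σ : V → Bool, sg (σ a) * sg (σ a) * sg (σ c) * sg (σ d) = sg (σ c) * sg (σ d) :=
      fun σ => by rw [sg_sq_11249, one_mul]
    rw [Finset.sum_congr rfl fun σ _ => e1 σ]
    by_cases hcd : c = d
    · subst hcd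
      rw [Finset.sum_congr rfl fun σ _ => sg_sq_11249 (σ c), hcard, if_pos rfl, if_pos rfl]
      by_cases hac : a = c
      · rw [if_pos hac]; ring
      · rw [if_neg hac]; ring
    · rw [h2 c d hcd, if_neg hcd]
      by_cases hac : a = c
      · subst hac
        rw [if_neg hcd]; ring
      · rw [if_neg hac]; ring
  · rw [if_neg hab]
    by_cases hcd : c = d
    · subst hcd
      have e1 : ∀ σ : V → Bool, sg (σ a) * sg (σ b) * sg (σ c) * sg (σ c) = sg (σ a) * sg (σ b) :=
        fun σ => by rw [mul_assoc, sg_sq_11249, mul_one]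
      rw [Finset.sum_congr rfl fun σ _ => e1 σ, h2 a b hab]
      by_cases hac : a = c
      · subst hac
        rw [if_neg (Ne.symm hab)]; ring
      · rw [if_neg hac]; ring
    · rw [if_neg hcd]
      by_cases hac : a = c
      · subst hac
        have e1 : ∀ σ : V → Bool, sg (σ a) * sg (σ b) * sg (σ a) * sg (σ d) =
            sg (σ b) * sg (σ d) := fun σ => by
          have := sg_sq_11249 (σ a)
          calc sg (σ a) * sg (σ b) * sg (σ a) * sg (σ d) =
              (sg (σ a) * sg (σ a)) * (sg (σ b) * sg (σ d)) := by ring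
            _ = _ := by rw [this, one_mul]
        rw [Finset.sum_congr rfl fun σ _ => e1 σ, if_pos rfl, if_neg hcd]
        by_cases hbd : b = d
        · subst hbd
          rw [if_pos rfl, Finset.sum_congr rfl fun σ _ => sg_sq_11249 (σ b), hcard]; ring
        · rw [if_neg hbd, h2 b d hbd]; ring
      · rw [if_neg hac]
        by_cases had : a = d
        · subst had
          have e1 : ∀ σ : V → Bool, sg (σ a) * sg (σ b) * sg (σ c) * sg (σ a) =
              sg (σ b) * sg (σ c) := fun σ => by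
            have := sg_sq_11249 (σ a)
            calc sg (σ a) * sg (σ b) * sg (σ c) * sg (σ a) =
                (sg (σ a) * sg (σ a)) * (sg (σ b) * sg (σ c)) := by ring
              _ = _ := by rw [this, one_mul]
          rw [Finset.sum_congr rfl fun σ _ => e1 σ, if_pos rfl]
          by_cases hbc : b = c
          · subst hbc
            rw [if_pos rfl, Finset.sum_congr rfl fun σ _ => sg_sq_11249 (σ b), hcard]; ring
          · rw [if_neg hbc, h2 b c hbc]; ring
        · rw [if_neg had]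
          have e1 : ∑ σ : V → Bool, sg (σ a) * (sg (σ b) * sg (σ c) * sg (σ d)) = 0 := by
            apply flip1_11249 a (fun σ => sg (σ b) * sg (σ c) * sg (σ d))
            intro σ
            rw [Function.update_of_ne (Ne.symm hab), Function.update_of_ne (Ne.symm hac),
              Function.update_of_ne (Ne.symm had)]
          have e2 : ∑ σ : V → Bool, sg (σ a) * sg (σ b) * sg (σ c) * sg (σ d) = 0 := by
            rw [← e1]
            exact Finset.sum_congr rfl fun σ _ => by ring
          rw [e2]; ring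

theorem t1_11249 (g : V → V → V → V → ℝ) :
    ∑ a, ∑ b, ∑ c, ∑ d, g a b c d * ((if a = b then 1 else 0) * (if c = d then 1 else 0)) =
      ∑ a, ∑ c, g a a c c := by
  refine Finset.sum_congr rfl fun a _ => ?_
  have h1 : ∀ b, ∑ c, ∑ d, g a b c d * ((if a = b then (1 : ℝ) else 0) *
      (if c = d then 1 else 0)) = if a = b then ∑ c, g a b c c else 0 := by
    intro b
    by_cases h : a = b
    · simp [h]
    · simp [h]
  rw [Finset.sum_congr rfl fun b _ => h1 b, Finset.sum_ite_eq, if_pos (Finset.mem_univ _)]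

theorem t2_11249 (g : V → V → V → V → ℝ) :
    ∑ a, ∑ b, ∑ c, ∑ d, g a b c d * ((if a = c then 1 else 0) * (if b = d then 1 else 0)) =
      ∑ a, ∑ b, g a b a b := by
  refine Finset.sum_congr rfl fun a _ => Finset.sum_congr rfl fun b _ => ?_
  have h1 : ∀ c, ∑ d, g a b c d * ((if a = c then (1 : ℝ) else 0) *
      (if b = d then 1 else 0)) = if a = c then g a b c b else 0 := by
    intro c
    by_cases h : a = c
    · simp [h]
    · simp [h]
  rw [Finset.sum_congr rfl fun b _ => h1 b, Finset.sum_ite_eq, if_pos (Finset.mem_univ _)]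

theorem t3_11249 (g : V → V → V → V → ℝ) :
    ∑ a, ∑ b, ∑ c, ∑ d, g a b c d * ((if a = d then 1 else 0) * (if b = c then 1 else 0)) =
      ∑ a, ∑ b, g a b b a := by
  refine Finset.sum_congr rfl fun a _ => Finset.sum_congr rfl fun b _ => ?_
  have h1 : ∀ c, ∑ d, g a b c d * ((if a = d then (1 : ℝ) else 0) *
      (if b = c then 1 else 0)) = if b = c then g a b c a else 0 := by
    intro c
    by_cases h : b = c
    · simp [h]
    · simp [h]
  rw [Finset.sum_congr rfl fun b _ => h1 b, Finset.sum_ite_eq, if_pos (Finset.mem_univ _)]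

theorem t4_11249 (g : V → V → V → V → ℝ) :
    ∑ a, ∑ b, ∑ c, ∑ d, g a b c d * ((if a = b then 1 else 0) *
      ((if b = c then 1 else 0) * (if c = d then 1 else 0))) = ∑ a, g a a a a := by
  refine Finset.sum_congr rfl fun a _ => ?_
  have h1 : ∀ b, ∑ c, ∑ d, g a b c d * ((if a = b then (1 : ℝ) else 0) *
      ((if b = c then 1 else 0) * (if c = d then 1 else 0))) =
        if a = b then g a b b b else 0 := by
    intro b
    by_cases h : a = b
    · simp [h]
    · simp [h]
  rw [Finset.sum_congr rfl fun b _ => h1 b, Finset.sum_ite_eq, if_pos (Finset.mem_univ _)]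

theorem lin1_11249 {A : (V → ℝ) → (V → ℝ) → (V → ℝ) → (V → ℝ) → ℝ} (hA : Alg4 A) (r : V → ℝ)
    (b c d : V → ℝ) : A r b c d = ∑ v, r v * A (Pi.single v 1) b c d := by
  have h0 : A 0 b c d = 0 := by
    have := hA.smul 0 0 b c d
    rwa [zero_smul, zero_mul] at this
  have h1 : ∀ s : Finset V, A (∑ v ∈ s, r v • (Pi.single v 1 : V → ℝ)) b c d =
      ∑ v ∈ s, r v * A (Pi.single v 1) b c d := by
    intro s
    induction s using Finset.induction_on with
    | empty => simpa using h0
    | insert v s hv ih =>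
      rw [Finset.sum_insert hv, Finset.sum_insert hv, hA.add, hA.smul, ih]
  have h2 : ∑ v, r v • (Pi.single v 1 : V → ℝ) = r := by
    funext w
    rw [Finset.sum_apply, Finset.sum_eq_single w]
    · simp
    · intro v _ hv
      simp [Pi.single_eq_of_ne (Ne.symm hv)]
    · intro h; exact absurd (Finset.mem_univ _) h
  have h3 := h1 Finset.univ
  rwa [h2] at h3

theorem expand_11249 {A : (V → ℝ) → (V → ℝ) → (V → ℝ) → (V → ℝ) → ℝ} (hA : Alg4 A)
    (r t : V → ℝ) : A r r t t = ∑ a, ∑ b, ∑ c, ∑ d, r a * r b * t c * t d *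
      A (Pi.single a 1) (Pi.single b 1) (Pi.single c 1) (Pi.single d 1) := by
  rw [lin1_11249 hA]
  refine Finset.sum_congr rfl fun a _ => ?_
  rw [hA.s12, lin1_11249 hA, Finset.mul_sum]
  refine Finset.sum_congr rfl fun b _ => ?_
  rw [hA.s12, hA.s23, hA.s12, lin1_11249 hA, Finset.mul_sum, Finset.mul_sum]
  refine Finset.sum_congr rfl fun c _ => ?_
  rw [hA.s12, hA.s23, hA.s34, hA.s23, hA.s12, lin1_11249 hA, Finset.mul_sum, Finset.mul_sum,
    Finset.mul_sum]
  refine Finset.sum_congr rfl fun d _ => ?_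
  rw [hA.s12, hA.s23, hA.s34]
  ring

end Aux11249

/-- averaging a symmetric four-linear form over signs -/
theorem sign_avg {V : Type*} [Fintype V] [DecidableEq V]
    (A : (V → ℝ) → (V → ℝ) → (V → ℝ) → (V → ℝ) → ℝ) (hA : Alg4 A) (x y : V → ℝ) :
    (∑ σ : V → Bool, A (fun v => sg (σ v) * x v) (fun v => sg (σ v) * x v)
      (fun v => sg (σ v) * y v) (fun v => sg (σ v) * y v)) =
    2 ^ Fintype.card V * Th (fun a b => A (Pi.single a 1) (Pi.single a 1) (Pi.single b 1)
      (Pi.single b 1)) x y := by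
  have h1 : ∀ σ : V → Bool, A (fun v => sg (σ v) * x v) (fun v => sg (σ v) * x v)
      (fun v => sg (σ v) * y v) (fun v => sg (σ v) * y v) =
      ∑ a, ∑ b, ∑ c, ∑ d, (sg (σ a) * sg (σ b) * sg (σ c) * sg (σ d)) *
        (x a * x b * y c * y d * A (Pi.single a 1) (Pi.single b 1) (Pi.single c 1)
          (Pi.single d 1)) := by
    intro σ
    rw [expand_11249 hA]
    refine Finset.sum_congr rfl fun a _ => Finset.sum_congr rfl fun b _ =>
      Finset.sum_congr rfl fun c _ => Finset.sum_congr rfl fun d _ => ?_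
    ring
  rw [Finset.sum_congr rfl fun σ _ => h1 σ]
  obtain ⟨g, hg⟩ : ∃ g : V → V → V → V → ℝ, g = fun a b c d => x a * x b * y c * y d *
    A (Pi.single a 1) (Pi.single b 1) (Pi.single c 1) (Pi.single d 1) := ⟨_, rfl⟩
  have h2 : ∑ σ : V → Bool, ∑ a, ∑ b, ∑ c, ∑ d, (sg (σ a) * sg (σ b) * sg (σ c) * sg (σ d)) *
        (x a * x b * y c * y d * A (Pi.single a 1) (Pi.single b 1) (Pi.single c 1)
          (Pi.single d 1)) =
      ∑ a, ∑ b, ∑ c, ∑ d, (2 : ℝ) ^ Fintype.card V * (g a b c d *
        ((if a = b then 1 else 0) * (if c = d then 1 else 0)) + g a b c d *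
        ((if a = c then 1 else 0) * (if b = d then 1 else 0)) + g a b c d *
        ((if a = d then 1 else 0) * (if b = c then 1 else 0)) - 2 * (g a b c d *
        ((if a = b then 1 else 0) * ((if b = c then 1 else 0) * (if c = d then 1 else 0))))) := by
    rw [Finset.sum_comm]
    refine Finset.sum_congr rfl fun a _ => ?_
    rw [Finset.sum_comm]
    refine Finset.sum_congr rfl fun b _ => ?_
    rw [Finset.sum_comm]
    refine Finset.sum_congr rfl fun c _ => ?_
    rw [Finset.sum_comm]
    refine Finset.sum_congr rfl fun d _ => ?_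
    rw [← Finset.sum_mul, avg_11249, hg]
    ring
  rw [h2]
  simp only [← Finset.mul_sum, Finset.sum_add_distrib, Finset.sum_sub_distrib]
  rw [t1_11249, t2_11249, t3_11249, t4_11249, hg]
  unfold Th
  congr 1
  have e1 : ∀ a b : V, A (Pi.single a 1) (Pi.single b 1) (Pi.single a 1) (Pi.single b 1) =
      A (Pi.single a 1) (Pi.single a 1) (Pi.single b 1) (Pi.single b 1) := fun a b => hA.s23 _ _ _ _
  have e2 : ∀ a b : V, A (Pi.single a 1) (Pi.single b 1) (Pi.single b 1) (Pi.single a 1) =
      A (Pi.single a 1) (Pi.single a 1) (Pi.single b 1) (Pi.single b 1) := fun a b => by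
    rw [hA.s34, e1]
  rw [← Finset.sum_add_distrib, ← Finset.sum_add_distrib]
  congr 1
  · refine Finset.sum_congr rfl fun a _ => ?_
    rw [← Finset.sum_add_distrib, ← Finset.sum_add_distrib]
    refine Finset.sum_congr rfl fun b _ => ?_
    beta_reduce
    rw [e1, e2]
    ring
  · congr 1
    refine Finset.sum_congr rfl fun a _ => ?_
    beta_reduce
    ring

theorem sg_sq (b : Bool) : sg b ^ 2 = 1 := by
  unfold sg; split_ifs <;> norm_num

theorem Qk_sg {V : Type*} [Fintype V] (k : V → V → ℝ) (σ : V → Bool) (x : V → ℝ) :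
    Qk k (fun v => sg (σ v) * x v) = Qk k x := by
  unfold Qk
  refine Finset.sum_congr rfl fun u _ => Finset.sum_congr rfl fun v _ => ?_
  rw [mul_pow, mul_pow, sg_sq, sg_sq, one_mul, one_mul]

theorem Th_perm {V : Type*} [Fintype V] (θ : V → V → ℝ) (g : Equiv.Perm V) (x y : V → ℝ) :
    Th (fun a b => θ (g a) (g b)) x y =
      Th θ (fun v => x (g.symm v)) (fun v => y (g.symm v)) := by
  unfold Th
  congr 1
  · rw [← Equiv.sum_comp g (fun a => ∑ b, (x (g.symm a) ^ 2 * y (g.symm b) ^ 2 +
      2 * (x (g.symm a) * y (g.symm a)) * (x (g.symm b) * y (g.symm b))) * θ a b)]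
    refine Finset.sum_congr rfl fun a _ => ?_
    rw [← Equiv.sum_comp g (fun b => (x (g.symm (g a)) ^ 2 * y (g.symm b) ^ 2 +
      2 * (x (g.symm (g a)) * y (g.symm (g a))) * (x (g.symm b) * y (g.symm b))) * θ (g a) b)]
    refine Finset.sum_congr rfl fun b _ => ?_
    simp only [Equiv.symm_apply_apply]
  · congr 1
    rw [← Equiv.sum_comp g (fun a => x (g.symm a) ^ 2 * y (g.symm a) ^ 2 * θ a a)]
    refine Finset.sum_congr rfl fun a _ => ?_
    simp only [Equiv.symm_apply_apply]

theorem Qk_perm {V : Type*} [Fintype V] (k : V → V → ℝ) (g : Equiv.Perm V)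
    (hg : ∀ u v, k (g u) (g v) = k u v) (x : V → ℝ) :
    Qk k (fun v => x (g.symm v)) = Qk k x := by
  unfold Qk
  rw [← Equiv.sum_comp g (fun u => ∑ v, k u v * (x (g.symm u) ^ 2 * x (g.symm v) ^ 2))]
  refine Finset.sum_congr rfl fun a _ => ?_
  rw [← Equiv.sum_comp g (fun v => k (g a) v * (x (g.symm (g a)) ^ 2 * x (g.symm v) ^ 2))]
  refine Finset.sum_congr rfl fun b _ => ?_
  simp only [Equiv.symm_apply_apply, hg]

theorem Th_add' {V : Type*} [Fintype V] (θ θ' : V → V → ℝ) (x y : V → ℝ) :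
    Th (fun a b => θ a b + θ' a b) x y = Th θ x y + Th θ' x y := by
  unfold Th
  simp only [mul_add, Finset.sum_add_distrib]
  ring

theorem Th_smul' {V : Type*} [Fintype V] (r : ℝ) (θ : V → V → ℝ) (x y : V → ℝ) :
    Th (fun a b => r * θ a b) x y = r * Th θ x y := by
  unfold Th
  rw [mul_sub]
  congr 1
  · rw [Finset.mul_sum]
    refine Finset.sum_congr rfl fun a _ => ?_
    rw [Finset.mul_sum]
    refine Finset.sum_congr rfl fun b _ => ?_
    ring
  · rw [← mul_assoc, mul_comm r 2, mul_assoc]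
    congr 1
    rw [Finset.mul_sum]
    refine Finset.sum_congr rfl fun a _ => ?_
    ring

theorem Th_sum' {V : Type*} [Fintype V] {J : Type*} (G : Finset J)
    (θ : J → V → V → ℝ) (x y : V → ℝ) :
    Th (fun a b => ∑ g ∈ G, θ g a b) x y = ∑ g ∈ G, Th (θ g) x y := by
  classical
  induction G using Finset.induction_on with
  | empty => simp [Th]
  | insert g G hg ih =>
    rw [Finset.sum_insert hg, ← ih, ← Th_add']
    congr 1
    funext a b
    rw [Finset.sum_insert hg]

theorem Th_smul_sum {V : Type*} [Fintype V] {J : Type*} (G : Finset J) (r : ℝ)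
    (θ : J → V → V → ℝ) (x y : V → ℝ) :
    Th (fun a b => r * ∑ g ∈ G, θ g a b) x y = r * ∑ g ∈ G, Th (θ g) x y := by
  rw [Th_smul' r (fun a b => ∑ g ∈ G, θ g a b), Th_sum']

/-- MAIN TARGET: averaging over signs and over the symmetry group of the kernel -/
theorem theta_avg {V : Type*} [Fintype V] [DecidableEq V] (k : V → V → ℝ) (M c η : ℝ)
    (A : (V → ℝ) → (V → ℝ) → (V → ℝ) → (V → ℝ) → ℝ) (hA : Alg4 A)
    (hU : ∀ x, A x x x x ≤ M * Qk k x) (hL : ∀ x, c * Qk k x ≤ A x x x x)
    (hC : ∀ x y, -(η * Real.sqrt (Qk k x * Qk k y)) ≤ A x x y y) :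
    ∃ β : V → V → ℝ, (∀ a b, β a b = β b a) ∧ (∀ x, Th β x x ≤ M * Qk k x) ∧
      (∀ x, c * Qk k x ≤ Th β x x) ∧
      (∀ x y, -(η * Real.sqrt (Qk k x * Qk k y)) ≤ Th β x y) ∧
      ∀ γ : Equiv.Perm V, (∀ u v, k (γ u) (γ v) = k u v) → ∀ a b, β (γ a) (γ b) = β a b := by
  classical
  set θ : V → V → ℝ := fun a b => A (Pi.single a 1) (Pi.single a 1) (Pi.single b 1)
      (Pi.single b 1) with hθ
  have hsym : ∀ a b, θ a b = θ b a := by
    intro a b
    simp only [hθ]
    rw [hA.s23, hA.s12, hA.s34, hA.s23]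
  have hN : (0 : ℝ) < 2 ^ Fintype.card V := by positivity
  have hcard : ((Finset.univ : Finset (V → Bool)).card : ℝ) = 2 ^ Fintype.card V := by
    rw [Finset.card_univ, Fintype.card_fun, Fintype.card_bool]; push_cast; rfl
  have h1 : ∀ x, Th θ x x ≤ M * Qk k x := by
    intro x
    have h := sign_avg A hA x x
    have h2 : (∑ σ : V → Bool, A (fun v => sg (σ v) * x v) (fun v => sg (σ v) * x v)
      (fun v => sg (σ v) * x v) (fun v => sg (σ v) * x v)) ≤
        ∑ σ : V → Bool, M * Qk k x := by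
      refine Finset.sum_le_sum fun σ _ => ?_
      have := hU (fun v => sg (σ v) * x v)
      rwa [Qk_sg] at this
    rw [h, Finset.sum_const, nsmul_eq_mul, hcard] at h2
    exact le_of_mul_le_mul_left h2 hN
  have h2 : ∀ x, c * Qk k x ≤ Th θ x x := by
    intro x
    have h := sign_avg A hA x x
    have h2 : ∑ σ : V → Bool, c * Qk k x ≤
        (∑ σ : V → Bool, A (fun v => sg (σ v) * x v) (fun v => sg (σ v) * x v)
      (fun v => sg (σ v) * x v) (fun v => sg (σ v) * x v)) := by
      refine Finset.sum_le_sum fun σ _ => ?_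
      have := hL (fun v => sg (σ v) * x v)
      rwa [Qk_sg] at this
    rw [h, Finset.sum_const, nsmul_eq_mul, hcard] at h2
    exact le_of_mul_le_mul_left h2 hN
  have h3 : ∀ x y, -(η * Real.sqrt (Qk k x * Qk k y)) ≤ Th θ x y := by
    intro x y
    have h := sign_avg A hA x y
    have h2 : ∑ σ : V → Bool, -(η * Real.sqrt (Qk k x * Qk k y)) ≤
        (∑ σ : V → Bool, A (fun v => sg (σ v) * x v) (fun v => sg (σ v) * x v)
      (fun v => sg (σ v) * y v) (fun v => sg (σ v) * y v)) := by
      refine Finset.sum_le_sum fun σ _ => ?_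
      have := hC (fun v => sg (σ v) * x v) (fun v => sg (σ v) * y v)
      rwa [Qk_sg, Qk_sg] at this
    rw [h, Finset.sum_const, nsmul_eq_mul, hcard] at h2
    exact le_of_mul_le_mul_left h2 hN
  set G : Finset (Equiv.Perm V) :=
    Finset.univ.filter (fun γ : Equiv.Perm V => ∀ u v, k (γ u) (γ v) = k u v) with hG
  have hmem : ∀ g, g ∈ G ↔ ∀ u v, k (g u) (g v) = k u v := by
    intro g; simp [hG]
  have h1G : (1 : Equiv.Perm V) ∈ G := by rw [hmem]; intro u v; rfl
  have hGpos : (0 : ℝ) < (G.card : ℝ) := by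
    exact_mod_cast Finset.card_pos.mpr ⟨_, h1G⟩
  have hmean : ∀ (f : Equiv.Perm V → ℝ) (C : ℝ), (∀ g ∈ G, f g ≤ C) →
      (1 / (G.card : ℝ)) * ∑ g ∈ G, f g ≤ C := by
    intro f C hf
    have : ∑ g ∈ G, f g ≤ G.card * C := by
      have := Finset.sum_le_card_nsmul G f C hf
      simpa [nsmul_eq_mul] using this
    rw [one_div, inv_mul_le_iff₀ hGpos]
    exact this
  have hmean' : ∀ (f : Equiv.Perm V → ℝ) (C : ℝ), (∀ g ∈ G, C ≤ f g) →
      C ≤ (1 / (G.card : ℝ)) * ∑ g ∈ G, f g := by
    intro f C hf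
    have := hmean (fun g => -f g) (-C) (fun g hg => neg_le_neg (hf g hg))
    rw [Finset.sum_neg_distrib, mul_neg] at this
    linarith
  refine ⟨fun a b => (1 / (G.card : ℝ)) * ∑ g ∈ G, θ (g a) (g b), ?_, ?_, ?_, ?_, ?_⟩
  · intro a b
    simp only
    congr 1
    exact Finset.sum_congr rfl fun g _ => hsym _ _
  · intro x
    rw [Th_smul_sum G _ (fun g a b => θ (g a) (g b))]
    refine hmean _ _ fun g hg => ?_
    rw [Th_perm]
    refine (h1 _).trans (le_of_eq ?_)
    rw [Qk_perm k g ((hmem g).mp hg)]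
  · intro x
    rw [Th_smul_sum G _ (fun g a b => θ (g a) (g b))]
    refine hmean' _ _ fun g hg => ?_
    rw [Th_perm]
    refine (le_of_eq ?_).trans (h2 _)
    rw [Qk_perm k g ((hmem g).mp hg)]
  · intro x y
    rw [Th_smul_sum G _ (fun g a b => θ (g a) (g b))]
    refine hmean' _ _ fun g hg => ?_
    rw [Th_perm]
    refine (le_of_eq ?_).trans (h3 _ _)
    rw [Qk_perm k g ((hmem g).mp hg), Qk_perm k g ((hmem g).mp hg)]
  · intro γ hγ a b
    simp only
    congr 1
    refine Finset.sum_equiv (Equiv.mulRight γ) ?_ ?_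
    · intro g
      rw [hmem, hmem]
      constructor
      · intro h u v
        simp only [Equiv.coe_mulRight, Equiv.Perm.mul_apply]
        rw [h, hγ]
      · intro h u v
        have h4 := h (γ.symm u) (γ.symm v)
        simp only [Equiv.coe_mulRight, Equiv.Perm.mul_apply, Equiv.apply_symm_apply] at h4
        rw [h4]
        have h5 := hγ (γ.symm u) (γ.symm v)
        simp only [Equiv.apply_symm_apply] at h5
        exact h5.symm
    · intro g _
      rfl

theorem rank_equiv_lin {K V : Type*} [Field K] [AddCommGroup V] [Module K V]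
    [FiniteDimensional K V] (f f' : V →ₗ[K] V)
    (h : Module.finrank K (LinearMap.range f) = Module.finrank K (LinearMap.range f')) :
    ∃ e1 e2 : V ≃ₗ[K] V, ∀ x, e2 (f (e1 x)) = f' x := by
  obtain ⟨W, hW⟩ := Submodule.exists_isCompl (LinearMap.ker f)
  obtain ⟨W', hW'⟩ := Submodule.exists_isCompl (LinearMap.ker f')
  obtain ⟨U, hU⟩ := Submodule.exists_isCompl (LinearMap.range f)
  obtain ⟨U', hU'⟩ := Submodule.exists_isCompl (LinearMap.range f')
  have hker : Module.finrank K (LinearMap.ker f) = Module.finrank K (LinearMap.ker f') := by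
    have h1 := f.finrank_range_add_finrank_ker
    have h2 := f'.finrank_range_add_finrank_ker
    omega
  have hUU : Module.finrank K U = Module.finrank K U' := by
    have h1 := Submodule.finrank_add_eq_of_isCompl hU
    have h2 := Submodule.finrank_add_eq_of_isCompl hU'
    omega
  let eR : LinearMap.range f ≃ₗ[K] LinearMap.range f' := LinearEquiv.ofFinrankEq _ _ h
  let eK : LinearMap.ker f' ≃ₗ[K] LinearMap.ker f := LinearEquiv.ofFinrankEq _ _ hker.symm
  let eU : U ≃ₗ[K] U' := LinearEquiv.ofFinrankEq _ _ hUU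
  let a : W ≃ₗ[K] LinearMap.range f :=
    (Submodule.quotientEquivOfIsCompl _ W hW).symm.trans f.quotKerEquivRange
  let a' : W' ≃ₗ[K] LinearMap.range f' :=
    (Submodule.quotientEquivOfIsCompl _ W' hW').symm.trans f'.quotKerEquivRange
  have ha : ∀ w : W, ((a w : LinearMap.range f) : V) = f w := fun w => rfl
  have ha' : ∀ w : W', ((a' w : LinearMap.range f') : V) = f' w := fun w => rfl
  let φ : W' ≃ₗ[K] W := a'.trans (eR.symm.trans a.symm)
  let e1 : V ≃ₗ[K] V := (Submodule.prodEquivOfIsCompl _ _ hW').symm.trans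
    ((eK.prodCongr φ).trans (Submodule.prodEquivOfIsCompl _ _ hW))
  let e2 : V ≃ₗ[K] V := (Submodule.prodEquivOfIsCompl _ _ hU).symm.trans
    ((eR.prodCongr eU).trans (Submodule.prodEquivOfIsCompl _ _ hU'))
  refine ⟨e1, e2, fun x => ?_⟩
  obtain ⟨⟨k, w⟩, rfl⟩ := (Submodule.prodEquivOfIsCompl _ _ hW').surjective x
  have h1 : e1 (Submodule.prodEquivOfIsCompl _ _ hW' (k, w)) = (eK k : V) + (φ w : V) := by
    show (Submodule.prodEquivOfIsCompl _ _ hW) ((eK.prodCongr φ)
      ((Submodule.prodEquivOfIsCompl _ _ hW').symm (Submodule.prodEquivOfIsCompl _ _ hW' (k, w))))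
      = _
    rw [LinearEquiv.symm_apply_apply]
    rfl
  have h2 : f (e1 (Submodule.prodEquivOfIsCompl _ _ hW' (k, w))) = ((eR.symm (a' w) :
      LinearMap.range f) : V) := by
    rw [h1, map_add, LinearMap.mem_ker.1 (eK k).2, zero_add, ← ha (φ w)]
    show ((a (a.symm (eR.symm (a' w))) : LinearMap.range f) : V) = _
    rw [LinearEquiv.apply_symm_apply]
  rw [h2]
  have h3 : ((eR.symm (a' w) : LinearMap.range f) : V) =
      (Submodule.prodEquivOfIsCompl _ _ hU) (eR.symm (a' w), 0) := by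
    simp
  have h4 : e2 ((Submodule.prodEquivOfIsCompl _ _ hU) (eR.symm (a' w), 0)) =
      ((a' w : LinearMap.range f') : V) := by
    show (Submodule.prodEquivOfIsCompl _ _ hU') ((eR.prodCongr eU)
      ((Submodule.prodEquivOfIsCompl _ _ hU).symm (Submodule.prodEquivOfIsCompl _ _ hU
        (eR.symm (a' w), 0)))) = _
    rw [LinearEquiv.symm_apply_apply, LinearEquiv.prodCongr_apply]
    simp
  rw [h3, h4, ha']
  show f' w = f' ((k : V) + (w : V))
  rw [map_add, LinearMap.mem_ker.1 k.2, zero_add]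

/-- matrices of equal rank over a field are equivalent -/
theorem rank_equiv {K : Type*} [Field K] {n : ℕ} (A B : Matrix (Fin n) (Fin n) K)
    (h : A.rank = B.rank) :
    ∃ g g' l l' : Matrix (Fin n) (Fin n) K, g * g' = 1 ∧ g' * g = 1 ∧ l * l' = 1 ∧ l' * l = 1 ∧
      g * A * l = B := by
  obtain ⟨e1, e2, he⟩ := rank_equiv_lin A.mulVecLin B.mulVecLin h
  have hmul : ∀ e : (Fin n → K) ≃ₗ[K] (Fin n → K),
      LinearMap.toMatrix' (e : (Fin n → K) →ₗ[K] (Fin n → K)) *
        LinearMap.toMatrix' (e.symm : (Fin n → K) →ₗ[K] (Fin n → K)) = 1 := by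
    intro e
    rw [← LinearMap.toMatrix'_comp]
    simp
  have hmul' : ∀ e : (Fin n → K) ≃ₗ[K] (Fin n → K),
      LinearMap.toMatrix' (e.symm : (Fin n → K) →ₗ[K] (Fin n → K)) *
        LinearMap.toMatrix' (e : (Fin n → K) →ₗ[K] (Fin n → K)) = 1 := by
    intro e
    rw [← LinearMap.toMatrix'_comp]
    simp
  refine ⟨LinearMap.toMatrix' (e2 : (Fin n → K) →ₗ[K] (Fin n → K)),
    LinearMap.toMatrix' (e2.symm : (Fin n → K) →ₗ[K] (Fin n → K)),
    LinearMap.toMatrix' (e1 : (Fin n → K) →ₗ[K] (Fin n → K)),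
    LinearMap.toMatrix' (e1.symm : (Fin n → K) →ₗ[K] (Fin n → K)),
    hmul e2, hmul' e2, hmul e1, hmul' e1, ?_⟩
  have hA : A = LinearMap.toMatrix' A.mulVecLin := by
    rw [← Matrix.toLin'_apply', LinearMap.toMatrix'_toLin']
  have hB : B = LinearMap.toMatrix' B.mulVecLin := by
    rw [← Matrix.toLin'_apply', LinearMap.toMatrix'_toLin']
  conv_rhs => rw [hB]
  conv_lhs => rw [hA]
  rw [← LinearMap.toMatrix'_comp, ← LinearMap.toMatrix'_comp]
  congr 1
  exact LinearMap.ext he

theorem two_point_rank {K : Type*} [Field K] {n : ℕ} {g g' l l' : Matrix (Fin n) (Fin n) K}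
    (hg : g * g' = 1) (hl : l * l' = 1) (M : Matrix (Fin n) (Fin n) K) :
    (g * M * l).rank = M.rank := by
  rw [Matrix.rank_mul_eq_left_of_isUnit_det _ _ (Matrix.isUnit_det_of_right_inverse hl),
    Matrix.rank_mul_eq_right_of_isUnit_det _ _ (Matrix.isUnit_det_of_right_inverse hg)]

/-- the rank metric is two-point homogeneous -/
theorem two_point {K : Type*} [Field K] {n : ℕ} (a b a' b' : Matrix (Fin n) (Fin n) K)
    (h : (a - b).rank = (a' - b').rank) :
    ∃ γ : Equiv.Perm (Matrix (Fin n) (Fin n) K), (∀ u v, (γ u - γ v).rank = (u - v).rank) ∧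
      γ a = a' ∧ γ b = b' := by
  obtain ⟨g, g', l, l', h1, h2, h3, h4, h5⟩ := rank_equiv (a - b) (a' - b') h
  refine ⟨⟨fun x => a' + g * (x - a) * l, fun y => a + g' * (y - a') * l', ?_, ?_⟩, ?_, ?_, ?_⟩
  · intro x
    show a + g' * (a' + g * (x - a) * l - a') * l' = x
    have h6 : g' * (a' + g * (x - a) * l - a') * l' = (g' * g) * (x - a) * (l * l') := by
      rw [add_sub_cancel_left]
      simp only [Matrix.mul_assoc]
    rw [h6, h2, h3, Matrix.one_mul, Matrix.mul_one]
    abel
  · intro y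
    show a' + g * (a + g' * (y - a') * l' - a) * l = y
    have h6 : g * (a + g' * (y - a') * l' - a) * l = (g * g') * (y - a') * (l' * l) := by
      rw [add_sub_cancel_left]
      simp only [Matrix.mul_assoc]
    rw [h6, h1, h4, Matrix.one_mul, Matrix.mul_one]
    abel
  · intro u v
    show ((a' + g * (u - a) * l) - (a' + g * (v - a) * l)).rank = (u - v).rank
    have h6 : (a' + g * (u - a) * l) - (a' + g * (v - a) * l) = g * (u - v) * l := by
      rw [add_sub_add_left_eq_sub, ← Matrix.sub_mul, ← Matrix.mul_sub]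
      congr 2
      abel
    rw [h6]
    exact two_point_rank h1 h3 _
  · show a' + g * (a - a) * l = a'
    simp
  · show a' + g * (b - a) * l = b'
    have h6 : g * (b - a) * l = -(g * (a - b) * l) := by
      rw [← neg_sub a b, Matrix.mul_neg, Matrix.neg_mul]
    rw [h6, h5]
    abel

theorem config_aux_card (n s : ℕ) (hs : s ≤ n) :
    Fintype.card {i : Fin n // (i : ℕ) < s} = s := by
  classical
  rw [Fintype.card_subtype]
  have : (Finset.univ.filter fun i : Fin n => (i : ℕ) < s) =
      (Finset.univ : Finset (Fin s)).map (Fin.castLEEmb hs) := by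
    ext i
    simp only [Finset.mem_filter, Finset.mem_univ, true_and, Finset.mem_map]
    constructor
    · intro h
      exact ⟨⟨i, h⟩, Fin.ext rfl⟩
    · rintro ⟨j, rfl⟩
      exact j.2
  rw [this, Finset.card_map]
  simp

theorem config_aux_diag {K : Type*} [Field K] (n s : ℕ) (hs : s ≤ n) (w : Fin n → K)
    (hw : ∀ i, w i ≠ 0 ↔ (i : ℕ) < s) : (Matrix.diagonal w).rank = s := by
  classical
  rw [Matrix.rank_diagonal, ← config_aux_card n s hs]
  exact Fintype.card_congr (Equiv.subtypeEquivRight hw)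

/-- large equidistant sets in the rank metric -/
theorem exists_cluster (K : Type*) [Field K] (n s : ℕ) (hs : s ≤ n) :
    ∃ C : Kˣ → Matrix (Fin n) (Fin n) K, ∀ a b, a ≠ b → (C a - C b).rank = s := by
  refine ⟨fun a => Matrix.diagonal fun i => if (i : ℕ) < s then (a : K) else 0, ?_⟩
  intro a b hab
  rw [Matrix.diagonal_sub]
  apply config_aux_diag n s hs
  intro i
  split_ifs with h
  · simp only [h, iff_true]
    rw [sub_ne_zero]
    exact fun h => hab (Units.ext h)
  · simp [h]

/-- the swap -/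
def configTau (n r : ℕ) (hr : 2 * r ≤ n) (i : Fin n) : Fin n :=
  if h : (i : ℕ) < r then ⟨i + r, by omega⟩ else if h : (i : ℕ) < 2 * r then ⟨i - r, by omega⟩ else i

theorem configTau_val (n r : ℕ) (hr : 2 * r ≤ n) (i : Fin n) :
    (configTau n r hr i : ℕ) = if (i : ℕ) < r then i + r else if (i : ℕ) < 2 * r then i - r else i := by
  unfold configTau
  split_ifs <;> rfl

theorem configTau_inv (n r : ℕ) (hr : 2 * r ≤ n) : Function.Involutive (configTau n r hr) := by
  intro i
  apply Fin.ext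
  rw [configTau_val, configTau_val]
  split_ifs <;> omega

/-- two large `2r`-equidistant sets, all cross distances being `r` -/
theorem exists_config (K : Type*) [Field K] (n r : ℕ) (hr : 2 * r ≤ n) :
    ∃ D O : Kˣ → Matrix (Fin n) (Fin n) K,
      (∀ a b, a ≠ b → (D a - D b).rank = 2 * r) ∧
      (∀ a b, a ≠ b → (O a - O b).rank = 2 * r) ∧
      (∀ a b, (D a - O b).rank = r) := by
  classical
  let w : Kˣ → Fin n → K := fun a i =>
    if (i : ℕ) < r then (a : K) else if (i : ℕ) < 2 * r then (a : K)⁻¹ else 0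
  let σ : Equiv.Perm (Fin n) := (configTau_inv n r hr).toPerm
  have hσ : ∀ i, σ i = configTau n r hr i := fun i => rfl
  let D : Kˣ → Matrix (Fin n) (Fin n) K := fun a => Matrix.diagonal (w a)
  let O : Kˣ → Matrix (Fin n) (Fin n) K := fun a => (D a).submatrix (Equiv.refl _) σ
  have hD : ∀ a b, a ≠ b → (D a - D b).rank = 2 * r := by
    intro a b hab
    have hab' : (a : K) ≠ b := fun h => hab (Units.ext h)
    simp only [D]
    rw [Matrix.diagonal_sub]
    apply config_aux_diag n (2 * r) hr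
    intro i
    simp only [w]
    split_ifs with h h'
    · refine iff_of_true (sub_ne_zero.2 hab') (by omega)
    · refine iff_of_true (sub_ne_zero.2 fun h => hab' (inv_injective h)) h'
    · simp [h']
  refine ⟨D, O, hD, ?_, ?_⟩
  · intro a b hab
    have : O a - O b = (D a - D b).submatrix (Equiv.refl _) σ := rfl
    rw [this, Matrix.rank_submatrix]
    exact hD a b hab
  · intro a b
    have ha : (a : K) ≠ 0 := a.ne_zero
    have hb : (b : K) ≠ 0 := b.ne_zero
    have hM : ∀ i j, (D a - O b) i j = (if i = j then w a i else 0) -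
        (if i = configTau n r hr j then w b i else 0) := by
      intro i j
      simp only [O, D, Matrix.sub_apply, Matrix.submatrix_apply, Matrix.diagonal_apply,
        Equiv.refl_apply, hσ]
    apply le_antisymm
    · let C' : Matrix (Fin n) (Fin r) K := fun i k =>
        if (i : ℕ) = k then 1 else if (i : ℕ) = k + r then -((b : K)⁻¹ * (a : K)⁻¹) else 0
      let R' : Matrix (Fin r) (Fin n) K := fun k j => (D a - O b) (Fin.castLE (by omega) k) j
      have hCR : D a - O b = C' * R' := by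
        ext i j
        rw [Matrix.mul_apply]
        have hτ := configTau_val n r hr j
        by_cases h1 : (i : ℕ) < r
        · rw [Finset.sum_eq_single (⟨i, h1⟩ : Fin r)]
          · simp [C', R']
          · intro k _ hk
            have h2 : (i : ℕ) ≠ k := fun h => hk (Fin.ext h.symm)
            have h3 : (i : ℕ) ≠ k + r := by omega
            simp [C', h2, h3]
          · simp
        · by_cases h2 : (i : ℕ) < 2 * r
          · rw [Finset.sum_eq_single (⟨i - r, by omega⟩ : Fin r)]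
            · have h3 : ¬ ((i : ℕ) = i - r) := by omega
              have h4 : (i : ℕ) = i - r + r := by omega
              simp only [C', R', h3, if_false]
              rw [if_pos h4, hM, hM]
              have e1 : (i = j) ↔ ((i : ℕ) = j) := Fin.ext_iff
              have e2 : (i = configTau n r hr j) ↔ ((i : ℕ) = configTau n r hr j) := Fin.ext_iff
              have e3 : ((Fin.castLE (by omega) (⟨i - r, by omega⟩ : Fin r) : Fin n) = j) ↔
                  ((i : ℕ) - r = j) := Fin.ext_iff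
              have e4 : ((Fin.castLE (by omega) (⟨i - r, by omega⟩ : Fin r) : Fin n) =
                  configTau n r hr j) ↔ ((i : ℕ) - r = configTau n r hr j) := Fin.ext_iff
              simp only [e1, e2, e3, e4, hτ]
              have w1 : w a i = (a : K)⁻¹ := by simp [w, h1, h2]
              have w2 : w b i = (b : K)⁻¹ := by simp [w, h1, h2]
              have h5 : (i : ℕ) - r < r := by omega
              have w3 : w a (Fin.castLE (by omega) (⟨i - r, by omega⟩ : Fin r)) = (a : K) := by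
                simp [w, h5]
              have w4 : w b (Fin.castLE (by omega) (⟨i - r, by omega⟩ : Fin r)) = (b : K) := by
                simp [w, h5]
              rw [w1, w2, w3, w4]
              split_ifs <;> first
                | omega
                | (field_simp; try ring)
            · intro k _ hk
              have h3 : (i : ℕ) ≠ k := by have := k.2; omega
              have h4 : (i : ℕ) ≠ k + r := by
                intro h
                apply hk
                apply Fin.ext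
                simp only
                omega
              simp [C', h3, h4]
            · simp
          · rw [Finset.sum_eq_zero]
            · rw [hM]
              simp [w, h1, h2]
            · intro k _
              have h3 : (i : ℕ) ≠ k := by have := k.2; omega
              have h4 : (i : ℕ) ≠ k + r := by have := k.2; omega
              simp [C', h3, h4]
      rw [hCR]
      exact (Matrix.rank_mul_le_left _ _).trans (Matrix.rank_le_width _)
    · have h1 := Matrix.rank_submatrix_le (D a - O b) (Fin.castLE (by omega : r ≤ n))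
        (Fin.castLE (by omega : r ≤ n))
      have h2 : (D a - O b).submatrix (Fin.castLE (by omega : r ≤ n))
        (Fin.castLE (by omega : r ≤ n)) = Matrix.diagonal (fun _ => (a : K)) := by
        ext k l
        rw [Matrix.submatrix_apply, hM, Matrix.diagonal_apply]
        have e1 : ((Fin.castLE (by omega : r ≤ n) k : Fin n) = Fin.castLE (by omega) l) ↔ k = l := by
          rw [Fin.ext_iff, Fin.ext_iff]; rfl
        have e2 : ¬ ((Fin.castLE (by omega : r ≤ n) k : Fin n) =
            configTau n r hr (Fin.castLE (by omega) l)) := by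
          rw [Fin.ext_iff, configTau_val]
          have := l.2
          have := k.2
          simp only [Fin.val_castLE, this, l.2, if_true]
          omega
        rw [if_neg e2, sub_zero]
        simp only [e1]
        have := k.2
        simp [w]
      rw [h2, config_aux_diag r r le_rfl] at h1
      · exact h1
      · intro i
        simp [ha]

/-- the rank metric: symmetry and triangle inequality -/
theorem rank_sub_symm {K : Type*} [Field K] {n : ℕ} (x y : Matrix (Fin n) (Fin n) K) :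
    (x - y).rank = (y - x).rank := by
  have h : x - y = (-1 : K) • (y - x) := by
    rw [neg_smul, one_smul, neg_sub]
  rw [h, Matrix.rank_smul_of_mem_nonZeroDivisors]
  exact mem_nonZeroDivisors_of_ne_zero (by simp)

theorem rank_sub_tri {K : Type*} [Field K] {n : ℕ} (x y z : Matrix (Fin n) (Fin n) K) :
    (x - z).rank ≤ (x - y).rank + (y - z).rank := by
  have h : x - z = (x - y) + (y - z) := by abel
  rw [h]
  unfold Matrix.rank
  rw [Matrix.mulVecLin_add]
  calc _ ≤ Module.finrank K ↥(LinearMap.range (x - y).mulVecLin ⊔ LinearMap.range (y - z).mulVecLin) := by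
        apply Submodule.finrank_mono
        rintro _ ⟨v, rfl⟩
        rw [LinearMap.add_apply]
        exact Submodule.add_mem_sup ⟨v, rfl⟩ ⟨v, rfl⟩
    _ ≤ _ := Submodule.finrank_add_le_finrank_add_finrank _ _

theorem sum_inj_11253 {V ι : Type*} [Fintype V] [Fintype ι]
    (C : ι → V) (hC : Function.Injective C) (f : V → ℝ)
    (hf : ∀ v, v ∉ Set.range C → f v = 0) : ∑ v, f v = ∑ i, f (C i) := by
  symm
  apply Finset.sum_of_injOn C (hC.injOn)
  · intro x _; simp
  · intro v _ hv
    apply hf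
    simpa using hv
  · intro i _
    rfl

theorem sum_diag_11253 {ι : Type*} [Fintype ι] [DecidableEq ι] (h : ι → ι → ℝ) (t₀ t₁ : ℝ)
    (h0 : ∀ a, h a a = t₀) (h1 : ∀ a b, a ≠ b → h a b = t₁) :
    ∑ a, ∑ b, h a b = Fintype.card ι * t₀ + (Fintype.card ι * (Fintype.card ι - 1)) * t₁ := by
  have : ∀ a b, h a b = t₁ + if a = b then (t₀ - t₁) else 0 := by
    intro a b
    by_cases hab : a = b
    · subst hab; simp [h0]
    · simp [hab, h1 a b hab]
  simp only [this, Finset.sum_add_distrib, Finset.sum_const, Finset.card_univ, nsmul_eq_mul,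
    Finset.sum_ite_eq, Finset.mem_univ, if_true]
  ring

theorem dsum_inj_11253 {V ι : Type*} [Fintype V] [Fintype ι]
    (C : ι → V) (hC : Function.Injective C) (f : V → V → ℝ)
    (hf : ∀ u v, u ∉ Set.range C → f u v = 0) (hf' : ∀ u v, v ∉ Set.range C → f u v = 0) :
    ∑ u, ∑ v, f u v = ∑ i, ∑ j, f (C i) (C j) := by
  rw [sum_inj_11253 C hC (fun u => ∑ v, f u v)
    (fun u hu => Finset.sum_eq_zero fun v _ => hf u v hu)]
  apply Finset.sum_congr rfl
  intro i _
  exact sum_inj_11253 C hC (fun v => f (C i) v) (fun v hv => hf' _ v hv)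

/-- evaluation on an equidistant family -/
theorem eval_cluster {V ι : Type*} [Fintype V] [DecidableEq V] [Fintype ι] [DecidableEq ι]
    (θ : V → V → ℝ) (C : ι → V) (hC : Function.Injective C) (t₀ t₁ : ℝ)
    (h0 : ∀ a, θ (C a) (C a) = t₀) (h1 : ∀ a b, a ≠ b → θ (C a) (C b) = t₁) :
    Th θ (fun v => if v ∈ Set.range C then 1 else 0) (fun v => if v ∈ Set.range C then 1 else 0) =
      Fintype.card ι * t₀ + 3 * (Fintype.card ι * (Fintype.card ι - 1)) * t₁ ∧
    Qk θ (fun v => if v ∈ Set.range C then 1 else 0) =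
      Fintype.card ι * t₀ + (Fintype.card ι * (Fintype.card ι - 1)) * t₁ := by
  have hd := sum_diag_11253 (fun a b => θ (C a) (C b)) t₀ t₁ h0 h1
  have hm : ∀ i, C i ∈ Set.range C := fun i => ⟨i, rfl⟩
  constructor
  · unfold Th
    rw [dsum_inj_11253 C hC _ (by intro u v hu; simp only [if_neg hu]; ring)
      (by intro u v hv; simp only [if_neg hv]; ring)]
    rw [sum_inj_11253 C hC _ (by intro u hu; simp only [if_neg hu]; ring)]
    simp only [hm, if_true, h0, Finset.sum_const, Finset.card_univ, nsmul_eq_mul]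
    have : ∀ i j : ι, ((1 : ℝ) ^ 2 * 1 ^ 2 + 2 * (1 * 1) * (1 * 1)) * θ (C i) (C j)
        = 3 * θ (C i) (C j) := by intro i j; ring
    simp only [this, ← Finset.mul_sum]
    rw [hd]
    ring
  · unfold Qk
    rw [dsum_inj_11253 C hC _ (by intro u v hu; simp only [if_neg hu]; ring)
      (by intro u v hv; simp only [if_neg hv]; ring)]
    simp only [hm, if_true]
    have : ∀ i j : ι, θ (C i) (C j) * ((1 : ℝ) ^ 2 * 1 ^ 2) = θ (C i) (C j) := by
      intro i j; ring
    simp only [this]
    exact hd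

/-- evaluation on a bipartite configuration -/
theorem eval_config {V ι : Type*} [Fintype V] [DecidableEq V] [Fintype ι] [DecidableEq ι]
    (θ : V → V → ℝ) (hθ : ∀ a b, θ a b = θ b a) (D O : ι → V) (hD : Function.Injective D)
    (hO : Function.Injective O) (hDO : ∀ a b, D a ≠ O b) (t₀ t₁ t₂ : ℝ)
    (h0 : ∀ a, θ (D a) (D a) = t₀) (h0' : ∀ a, θ (O a) (O a) = t₀)
    (h1 : ∀ a b, a ≠ b → θ (D a) (D b) = t₁) (h1' : ∀ a b, a ≠ b → θ (O a) (O b) = t₁)
    (h2 : ∀ a b, θ (D a) (O b) = t₂) :
    Th θ (fun v => if v ∈ Set.range D ∨ v ∈ Set.range O then 1 else 0)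
      (fun v => if v ∈ Set.range D then 1 else if v ∈ Set.range O then -1 else 0) =
      2 * Fintype.card ι * t₀ + 6 * (Fintype.card ι * (Fintype.card ι - 1)) * t₁ -
        2 * Fintype.card ι ^ 2 * t₂ := by
  have hdD := sum_diag_11253 (fun a b => θ (D a) (D b)) t₀ t₁ h0 h1
  have hdO := sum_diag_11253 (fun a b => θ (O a) (O b)) t₀ t₁ h0' h1'
  have h2' : ∀ a b, θ (O a) (D b) = t₂ := fun a b => by rw [hθ, h2]
  set C : ι ⊕ ι → V := Sum.elim D O with hCdef
  have hC : Function.Injective C := by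
    rintro (a | a) (b | b) hab
    · exact congrArg _ (hD hab)
    · exact absurd hab (hDO a b)
    · exact absurd hab.symm (hDO b a)
    · exact congrArg _ (hO hab)
  have hnot : ∀ v, v ∉ Set.range C → ¬ (v ∈ Set.range D ∨ v ∈ Set.range O) := by
    intro v hv h
    rcases h with ⟨a, rfl⟩ | ⟨a, rfl⟩
    · exact hv ⟨Sum.inl a, rfl⟩
    · exact hv ⟨Sum.inr a, rfl⟩
  have hmD : ∀ i, D i ∈ Set.range D := fun i => ⟨i, rfl⟩
  have hmO : ∀ i, O i ∈ Set.range O := fun i => ⟨i, rfl⟩
  have hmOD : ∀ i, O i ∉ Set.range D := by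
    rintro i ⟨a, ha⟩
    exact hDO a i ha
  unfold Th
  rw [dsum_inj_11253 C hC _
    (by
      intro u v hu
      have h := hnot u hu
      simp only [if_neg h]; ring)
    (by
      intro u v hv
      have h := hnot v hv
      have h' := not_or.1 h
      simp only [if_neg h, if_neg h'.1, if_neg h'.2]; ring)]
  rw [sum_inj_11253 C hC _ (by
      intro u hu
      have h := hnot u hu
      simp only [if_neg h]; ring)]
  simp only [Fintype.sum_sum_type, hCdef, Sum.elim_inl, Sum.elim_inr, hmD, hmO, hmOD, true_or,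
    or_true, if_true, if_false, h0, h0', h2, h2', Finset.sum_const, Finset.card_univ,
    nsmul_eq_mul]
  have e1 : ∀ i j : ι, ((1 : ℝ) ^ 2 * 1 ^ 2 + 2 * (1 * 1) * (1 * 1)) * θ (D i) (D j)
      = 3 * θ (D i) (D j) := by intro i j; ring
  have e2 : ∀ i j : ι, ((1 : ℝ) ^ 2 * (-1) ^ 2 + 2 * (1 * (-1)) * (1 * (-1))) * θ (O i) (O j)
      = 3 * θ (O i) (O j) := by intro i j; ring
  simp only [e1, e2, Finset.sum_add_distrib, ← Finset.mul_sum, Finset.sum_const,
    Finset.card_univ, nsmul_eq_mul]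
  rw [hdD, hdO]
  ring

/-- a crude bound -/
theorem Qk_le_card {V : Type*} [Fintype V] [DecidableEq V] (k : V → V → ℝ) (hk : IsKer k)
    (x : V → ℝ) (S : Finset V) (hx : ∀ v, |x v| ≤ 1) (hS : ∀ v, v ∉ S → x v = 0) :
    Qk k x ≤ (S.card : ℝ) ^ 2 := by
  unfold Qk
  have hx2 : ∀ v, x v ^ 2 ≤ 1 := by
    intro v
    have := hx v
    rw [← sq_abs]
    exact pow_le_one₀ (abs_nonneg _) this
  have e : ∑ u, ∑ v, k u v * (x u ^ 2 * x v ^ 2)
      = ∑ u ∈ S, ∑ v ∈ S, k u v * (x u ^ 2 * x v ^ 2) := by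
    symm
    rw [Finset.sum_subset (Finset.subset_univ S)]
    · apply Finset.sum_congr rfl
      intro u _
      apply Finset.sum_subset (Finset.subset_univ S)
      intro v _ hv
      rw [hS v hv]; ring
    · intro u _ hu
      apply Finset.sum_eq_zero
      intro v _
      rw [hS u hu]; ring
  rw [e]
  calc ∑ u ∈ S, ∑ v ∈ S, k u v * (x u ^ 2 * x v ^ 2)
      ≤ ∑ u ∈ S, ∑ v ∈ S, (1 : ℝ) := by
        apply Finset.sum_le_sum
        intro u _
        apply Finset.sum_le_sum
        intro v _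
        have h1 := hk.nonneg u v
        have h2 := hk.le_one u v
        have h3 := hx2 u
        have h4 := hx2 v
        have h5 : x u ^ 2 * x v ^ 2 ≤ 1 :=
          mul_le_one₀ h3 (sq_nonneg _) h4
        exact mul_le_one₀ h2 (by positivity) h5
    _ = (S.card : ℝ) ^ 2 := by
        simp only [Finset.sum_const, nsmul_eq_mul]
        ring

/-- the numerical contradiction -/
theorem num_contra (M c : ℝ) (hM : 0 < M) (hc : 0 < c) :
    ∃ L : ℕ, ∃ m₀ : ℕ, ∀ m : ℕ, m₀ ≤ m → 2 ≤ m → ∃ η : ℝ, 0 < η ∧ ∀ α : ℕ → ℝ, ∀ α₀ : ℝ,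
      0 ≤ α₀ → α₀ ≤ M →
      c * (m + m * (m - 1)) ≤ m * α₀ + 3 * (m * (m - 1)) * α 0 →
      m * α₀ + 3 * (m * (m - 1)) * α L ≤ M * (m + m * (m - 1) * (1 / 4) ^ L) →
      (∀ j < L, -(η * (2 * m) ^ 2) ≤
        2 * m * α₀ + 6 * (m * (m - 1)) * α (j + 1) - 2 * m ^ 2 * α j) → False := by
  obtain ⟨L, hL⟩ := exists_pow_lt_of_lt_one (show 0 < c / (8 * M) by positivity)
    (show (3 / 4 : ℝ) < 1 by norm_num)
  obtain ⟨m₀, hm₀⟩ := exists_nat_gt (24 * 3 ^ L * M / c)
  refine ⟨L, m₀, fun m hm hm2 => ⟨c / (8 * 3 ^ (L + 1)), by positivity, ?_⟩⟩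
  intro α α₀ h0 h0M h1 h2 h3
  set η : ℝ := c / (8 * 3 ^ (L + 1)) with hη
  have hη0 : 0 < η := by positivity
  have hmR : (2 : ℝ) ≤ m := by exact_mod_cast hm2
  have hmm : (m₀ : ℝ) ≤ m := by exact_mod_cast hm
  have hm0 : (0 : ℝ) < m := by linarith
  have hm1 : (0 : ℝ) < (m : ℝ) - 1 := by linarith
  set s : ℝ := ((m : ℝ) - 1) / m with hs
  have hs0 : 0 ≤ s := by positivity
  have hs1 : s ≤ 1 := by rw [hs, div_le_one hm0]; linarith
  have hsm : s * m = m - 1 := by rw [hs]; field_simp
  set K : ℝ := M / m + 2 * η with hK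
  have hK0 : 0 ≤ K := by positivity
  have hstep : ∀ j < L, α j ≤ K + 3 * s * α (j + 1) := by
    intro j hj
    have h4 := h3 j hj
    have e1 : 2 * (m : ℝ) ^ 2 * α j ≤
        2 * (m : ℝ) ^ 2 * (K + 3 * s * α (j + 1)) := by
      have e2 : 2 * (m : ℝ) ^ 2 * (K + 3 * s * α (j + 1)) =
          2 * m * M + η * (2 * m) ^ 2 + 6 * (m * (s * m)) * α (j + 1) := by
        rw [hK]; field_simp; ring
      rw [e2, hsm]
      have e3 : 2 * (m : ℝ) * α₀ ≤ 2 * m * M := mul_le_mul_of_nonneg_left h0M (by positivity)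
      linarith
    exact le_of_mul_le_mul_left e1 (by positivity)
  have hiter : ∀ j ≤ L, α 0 ≤ K * (∑ i ∈ Finset.range j, (3 : ℝ) ^ i) + (3 * s) ^ j * α j := by
    intro j
    induction j with
    | zero => intro _; simp
    | succ j ih =>
      intro hj
      have h4 := ih (by omega)
      have h5 := hstep j (by omega)
      have h6 : (3 * s) ^ j * α j ≤ (3 * s) ^ j * (K + 3 * s * α (j + 1)) :=
        mul_le_mul_of_nonneg_left h5 (by positivity)
      have h7 : (3 * s) ^ j ≤ 3 ^ j := pow_le_pow_left₀ (by positivity) (by linarith) j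
      have h8 : (3 * s) ^ j * K ≤ 3 ^ j * K := mul_le_mul_of_nonneg_right h7 hK0
      rw [Finset.sum_range_succ]
      have e : (3 * s) ^ (j + 1) * α (j + 1) = (3 * s) ^ j * (3 * s * α (j + 1)) := by ring
      rw [e]
      nlinarith
  have hgeo : ∀ j : ℕ, ∑ i ∈ Finset.range j, (3 : ℝ) ^ i ≤ 3 ^ j := by
    intro j
    induction j with
    | zero => simp
    | succ j ih =>
      rw [Finset.sum_range_succ, pow_succ]
      have : (0 : ℝ) < 3 ^ j := by positivity
      linarith
  set b : ℝ := M / 3 * (1 / ((m : ℝ) - 1) + (1 / 4) ^ L) with hb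
  have hb0 : 0 ≤ b := by positivity
  have hαL : α L ≤ b := by
    have e1 : 3 * ((m : ℝ) * (m - 1)) * α L ≤ 3 * ((m : ℝ) * (m - 1)) * b := by
      have e2 : 3 * ((m : ℝ) * (m - 1)) * b = M * (m + m * (m - 1) * (1 / 4) ^ L) := by
        rw [hb]; field_simp
      rw [e2]
      have : 0 ≤ (m : ℝ) * α₀ := by positivity
      linarith
    exact le_of_mul_le_mul_left e1 (by positivity)
  have hL3 : (3 * s) ^ L * α L ≤ 3 ^ L * b := by
    have h7 : (3 * s) ^ L ≤ 3 ^ L := pow_le_pow_left₀ (by positivity) (by linarith) L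
    calc (3 * s) ^ L * α L ≤ (3 * s) ^ L * b := mul_le_mul_of_nonneg_left hαL (by positivity)
      _ ≤ 3 ^ L * b := mul_le_mul_of_nonneg_right h7 hb0
  have hα0 : α 0 ≤ K * 3 ^ L + 3 ^ L * b := by
    have h4 := hiter L le_rfl
    have h5 := mul_le_mul_of_nonneg_left (hgeo L) hK0
    linarith
  have hR0 : 0 ≤ K * 3 ^ L + 3 ^ L * b := by positivity
  have hc1 : c ≤ M / m + 3 * (K * 3 ^ L + 3 ^ L * b) := by
    have e1 : (m : ℝ) ^ 2 * c ≤ (m : ℝ) ^ 2 * (M / m + 3 * (K * 3 ^ L + 3 ^ L * b)) := by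
      have e2 : (m : ℝ) ^ 2 * (M / m + 3 * (K * 3 ^ L + 3 ^ L * b)) =
          m * M + 3 * (m * m) * (K * 3 ^ L + 3 ^ L * b) := by
        field_simp
      rw [e2]
      have e3 : 3 * ((m : ℝ) * (m - 1)) * α 0 ≤ 3 * (m * (m - 1)) * (K * 3 ^ L + 3 ^ L * b) :=
        mul_le_mul_of_nonneg_left hα0 (by positivity)
      have e4 : 3 * ((m : ℝ) * (m - 1)) * (K * 3 ^ L + 3 ^ L * b) ≤
          3 * (m * m) * (K * 3 ^ L + 3 ^ L * b) :=
        mul_le_mul_of_nonneg_right (by nlinarith) hR0
      have e5 : (m : ℝ) * α₀ ≤ m * M := mul_le_mul_of_nonneg_left h0M hm0.le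
      nlinarith
    exact le_of_mul_le_mul_left e1 (by positivity)
  -- numerical estimates
  have hML : M * (3 / 4) ^ L < c / 8 := by
    rw [lt_div_iff₀ (by positivity)] at hL
    linarith
  have hη3 : 3 * (2 * η * 3 ^ L) = c / 4 := by
    rw [hη, pow_succ]; field_simp; ring
  have hMm : M / m * (6 * 3 ^ L) < c / 4 := by
    have h4 : 24 * 3 ^ L * M / c < m := lt_of_lt_of_le hm₀ hmm
    rw [div_lt_iff₀ hc] at h4
    rw [div_mul_eq_mul_div, div_lt_iff₀ hm0]
    linarith
  have hm1' : 1 / ((m : ℝ) - 1) ≤ 2 / m := by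
    rw [div_le_div_iff₀ hm1 hm0]; linarith
  have h3b : 3 * (3 ^ L * b) = M * (3 ^ L * (1 / ((m : ℝ) - 1))) + M * (3 / 4) ^ L := by
    have e : (3 / 4 : ℝ) ^ L = 3 ^ L * (1 / 4) ^ L := by
      rw [← mul_pow]; norm_num
    rw [hb, e]; ring
  have h3L : (1 : ℝ) ≤ 3 ^ L := one_le_pow₀ (by norm_num)
  have h4 : M * (3 ^ L * (1 / ((m : ℝ) - 1))) ≤ M * (3 ^ L * (2 / m)) := by
    gcongr
  have h5 : M * (3 ^ L * (2 / (m : ℝ))) = M / m * (2 * 3 ^ L) := by ring
  have h6 : 3 * (K * 3 ^ L) = M / m * (3 * 3 ^ L) + 3 * (2 * η * 3 ^ L) := by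
    rw [hK]; ring
  have h7 : M / m ≤ M / m * 3 ^ L := le_mul_of_one_le_right (by positivity) h3L
  have h8 : c ≤ M / m + 3 * (K * 3 ^ L) + 3 * (3 ^ L * b) := by linarith
  rw [h6, h3b, hη3] at h8
  rw [h5] at h4
  set X : ℝ := M / m * 3 ^ L with hX
  have e1 : M / m * (3 * 3 ^ L) = 3 * X := by rw [hX]; ring
  have e2 : M / m * (2 * 3 ^ L) = 2 * X := by rw [hX]; ring
  have e3 : M / m * (6 * 3 ^ L) = 6 * X := by rw [hX]; ring
  rw [e1] at h8
  rw [e2] at h4
  rw [e3] at hMm
  linarith

/-- the kernel of the rank metric -/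
noncomputable def kR (n : ℕ) (p : ℕ) [Fact p.Prime] (A B : Matrix (Fin n) (Fin n) (ZMod p)) : ℝ :=
  (1 / 4 : ℝ) ^ Nat.clog 2 (A - B).rank

theorem kR_isKer (n : ℕ) (p : ℕ) [Fact p.Prime] : IsKer (kR n p) :=
  isKer_metric (fun A B : Matrix (Fin n) (Fin n) (ZMod p) => (A - B).rank) (by simp)
    (fun x y => rank_sub_symm x y) (fun x y z => rank_sub_tri x y z)

theorem comb_core (L p n : ℕ) [hpF : Fact p.Prime] (hn : n = 2 ^ L) (M c η : ℝ) (hc : 0 < c)
    (hη : 0 < η)
    (hα : ∀ α : ℕ → ℝ, ∀ α₀ : ℝ,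
      0 ≤ α₀ → α₀ ≤ M →
      c * (((p - 1 : ℕ) : ℝ) + ((p - 1 : ℕ) : ℝ) * (((p - 1 : ℕ) : ℝ) - 1)) ≤
        ((p - 1 : ℕ) : ℝ) * α₀ + 3 * (((p - 1 : ℕ) : ℝ) * (((p - 1 : ℕ) : ℝ) - 1)) * α 0 →
      ((p - 1 : ℕ) : ℝ) * α₀ + 3 * (((p - 1 : ℕ) : ℝ) * (((p - 1 : ℕ) : ℝ) - 1)) * α L ≤
        M * (((p - 1 : ℕ) : ℝ) + ((p - 1 : ℕ) : ℝ) * (((p - 1 : ℕ) : ℝ) - 1) * (1 / 4) ^ L) →
      (∀ j < L, -(η * (2 * ((p - 1 : ℕ) : ℝ)) ^ 2) ≤
        2 * ((p - 1 : ℕ) : ℝ) * α₀ +
        6 * (((p - 1 : ℕ) : ℝ) * (((p - 1 : ℕ) : ℝ) - 1)) * α (j + 1) -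
        2 * ((p - 1 : ℕ) : ℝ) ^ 2 * α j) → False)
    (A : (Matrix (Fin n) (Fin n) (ZMod p) → ℝ) →
        (Matrix (Fin n) (Fin n) (ZMod p) → ℝ) →
        (Matrix (Fin n) (Fin n) (ZMod p) → ℝ) →
        (Matrix (Fin n) (Fin n) (ZMod p) → ℝ) → ℝ) (hA : Alg4 A)
    (hU : ∀ x, A x x x x ≤ M * Qk (kR n p) x) (hL : ∀ x, c * Qk (kR n p) x ≤ A x x x x)
    (hC : ∀ x y, -(η * Real.sqrt (Qk (kR n p) x * Qk (kR n p) y)) ≤ A x x y y) :
    False := by
  obtain ⟨β, hβs, hβU, hβL, hβC, hβinv⟩ := theta_avg (kR n p) M c η A hA hU hL hC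
  -- the coefficients depend on the rank only
  have hfac : Function.FactorsThrough
      (fun ab : Matrix (Fin n) (Fin n) (ZMod p) × Matrix (Fin n) (Fin n) (ZMod p) => β ab.1 ab.2)
      (fun ab => (ab.1 - ab.2).rank) := by
    rintro ⟨a, b⟩ ⟨a', b'⟩ h
    obtain ⟨γ, hγ, h1, h2⟩ := two_point a b a' b' h
    have := hβinv γ (fun u v => by simp only [kR, hγ]) a b
    simp only
    rw [← this, h1, h2]
  let α' : ℕ → ℝ := Function.extend
    (fun ab : Matrix (Fin n) (Fin n) (ZMod p) × Matrix (Fin n) (Fin n) (ZMod p) =>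
      (ab.1 - ab.2).rank) (fun ab => β ab.1 ab.2) 0
  have hβα : ∀ a b, β a b = α' (a - b).rank := by
    intro a b
    have := hfac.extend_apply 0 (a, b)
    exact this.symm
  have hβ0 : ∀ a, β a a = α' 0 := by
    intro a; rw [hβα]; simp
  have hcard : (Fintype.card (ZMod p)ˣ : ℝ) = ((p - 1 : ℕ) : ℝ) := by
    rw [ZMod.card_units]
  have hk0 : ∀ a, kR n p a a = 1 := by
    intro a; simp [kR]
  -- one point
  have hone := eval_cluster β (fun _ : Unit => (0 : Matrix (Fin n) (Fin n) (ZMod p)))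
    (fun _ _ _ => rfl) (α' 0) 0 (fun _ => hβ0 _) (fun a b hab => absurd rfl hab)
  have honek := eval_cluster (kR n p) (fun _ : Unit => (0 : Matrix (Fin n) (Fin n) (ZMod p)))
    (fun _ _ _ => rfl) 1 0 (fun _ => hk0 _) (fun a b hab => absurd rfl hab)
  have hα0U := hβU (fun v => if v ∈ Set.range (fun _ : Unit => (0 : Matrix (Fin n) (Fin n) (ZMod p))) then 1 else 0)
  have hα0L := hβL (fun v => if v ∈ Set.range (fun _ : Unit => (0 : Matrix (Fin n) (Fin n) (ZMod p))) then 1 else 0)
  rw [hone.1, honek.2] at hα0U hα0L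
  simp only [Fintype.card_unit, Nat.cast_one, sub_self, mul_zero, zero_mul, add_zero, one_mul,
    mul_one] at hα0U hα0L
  -- clusters
  have hclus : ∀ s : ℕ, 1 ≤ s → s ≤ n →
      c * (((p - 1 : ℕ) : ℝ) + ((p - 1 : ℕ) : ℝ) * (((p - 1 : ℕ) : ℝ) - 1) *
        (1 / 4) ^ Nat.clog 2 s) ≤
        ((p - 1 : ℕ) : ℝ) * α' 0 + 3 * (((p - 1 : ℕ) : ℝ) * (((p - 1 : ℕ) : ℝ) - 1)) * α' s ∧
      ((p - 1 : ℕ) : ℝ) * α' 0 + 3 * (((p - 1 : ℕ) : ℝ) * (((p - 1 : ℕ) : ℝ) - 1)) * α' s ≤
      M * (((p - 1 : ℕ) : ℝ) + ((p - 1 : ℕ) : ℝ) * (((p - 1 : ℕ) : ℝ) - 1) *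
        (1 / 4) ^ Nat.clog 2 s) := by
    intro s hs1 hsn
    obtain ⟨C, hCr⟩ := exists_cluster (ZMod p) n s hsn
    have hCinj : Function.Injective C := by
      intro a b hab
      by_contra hne
      have := hCr a b hne
      rw [hab] at this
      simp at this
      omega
    have e1 := eval_cluster β C hCinj (α' 0) (α' s) (fun _ => hβ0 _)
      (fun a b hab => by rw [hβα, hCr a b hab])
    have e2 := eval_cluster (kR n p) C hCinj 1 ((1 / 4) ^ Nat.clog 2 s) (fun _ => hk0 _)
      (fun a b hab => by simp only [kR]; rw [hCr a b hab])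
    have u := hβU (fun v => if v ∈ Set.range C then 1 else 0)
    have l := hβL (fun v => if v ∈ Set.range C then 1 else 0)
    rw [e1.1, e2.2, hcard] at u l
    rw [mul_one] at u l
    exact ⟨l, u⟩
  -- the contradiction
  refine hα (fun j => α' (2 ^ j)) (α' 0) ?_ ?_ ?_ ?_ ?_
  · linarith
  · linarith
  · have := (hclus 1 le_rfl (by rw [hn]; exact Nat.one_le_two_pow)).1
    simpa using this
  · have := (hclus (2 ^ L) Nat.one_le_two_pow hn.ge).2
    rw [Nat.clog_pow 2 L (by norm_num)] at this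
    exact this
  · intro j hj
    have hr : 2 * 2 ^ j ≤ n := by
      rw [hn, ← pow_succ']
      exact Nat.pow_le_pow_right (by norm_num) hj
    obtain ⟨D, O, hDD, hOO, hDO⟩ := exists_config (ZMod p) n (2 ^ j) hr
    have hpos : 0 < 2 ^ j := by positivity
    have hDinj : Function.Injective D := by
      intro a b hab
      by_contra hne
      have := hDD a b hne
      rw [hab] at this
      simp at this
    have hOinj : Function.Injective O := by
      intro a b hab
      by_contra hne
      have := hOO a b hne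
      rw [hab] at this
      simp at this
    have hne : ∀ a b, D a ≠ O b := by
      intro a b hab
      have := hDO a b
      rw [hab] at this
      simp at this
      omega
    have e := eval_config β hβs D O hDinj hOinj hne (α' 0) (α' (2 ^ (j + 1))) (α' (2 ^ j))
      (fun _ => hβ0 _) (fun _ => hβ0 _)
      (fun a b hab => by rw [hβα, hDD a b hab, pow_succ'])
      (fun a b hab => by rw [hβα, hOO a b hab, pow_succ'])
      (fun a b => by rw [hβα, hDO a b])
    have hCc := hβC (fun v => if v ∈ Set.range D ∨ v ∈ Set.range O then 1 else 0)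
      (fun v => if v ∈ Set.range D then 1 else if v ∈ Set.range O then -1 else 0)
    rw [e, hcard] at hCc
    classical
    let S : Finset (Matrix (Fin n) (Fin n) (ZMod p)) :=
      Finset.univ.image D ∪ Finset.univ.image O
    have hScard : (S.card : ℝ) ≤ 2 * ((p - 1 : ℕ) : ℝ) := by
      have h1 : S.card ≤ (Finset.univ.image D).card + (Finset.univ.image O).card :=
        Finset.card_union_le _ _
      have h2 : (Finset.univ.image D).card ≤ Fintype.card (ZMod p)ˣ := Finset.card_image_le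
      have h3 : (Finset.univ.image O).card ≤ Fintype.card (ZMod p)ˣ := Finset.card_image_le
      rw [ZMod.card_units] at h2 h3
      have : S.card ≤ 2 * (p - 1) := by omega
      exact_mod_cast this
    have q1 := Qk_le_card (kR n p) (kR_isKer n p)
      (fun v => if v ∈ Set.range D ∨ v ∈ Set.range O then 1 else 0) S
      (fun v => by split_ifs <;> norm_num)
      (fun v hv => by
        rw [if_neg]
        rintro (⟨a, rfl⟩ | ⟨a, rfl⟩)
        · exact hv (Finset.mem_union_left _ (Finset.mem_image_of_mem _ (Finset.mem_univ _)))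
        · exact hv (Finset.mem_union_right _ (Finset.mem_image_of_mem _ (Finset.mem_univ _))))
    have q2 := Qk_le_card (kR n p) (kR_isKer n p)
      (fun v => if v ∈ Set.range D then 1 else if v ∈ Set.range O then -1 else 0) S
      (fun v => by split_ifs <;> norm_num)
      (fun v hv => by
        rw [if_neg, if_neg]
        · rintro ⟨a, rfl⟩
          exact hv (Finset.mem_union_right _ (Finset.mem_image_of_mem _ (Finset.mem_univ _)))
        · rintro ⟨a, rfl⟩
          exact hv (Finset.mem_union_left _ (Finset.mem_image_of_mem _ (Finset.mem_univ _))))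
    have hSsq : (S.card : ℝ) ^ 2 ≤ (2 * ((p - 1 : ℕ) : ℝ)) ^ 2 :=
      pow_le_pow_left₀ (Nat.cast_nonneg _) hScard 2
    have hsq : Real.sqrt (Qk (kR n p) (fun v => if v ∈ Set.range D ∨ v ∈ Set.range O then 1 else 0)
        * Qk (kR n p) (fun v => if v ∈ Set.range D then 1 else if v ∈ Set.range O then -1 else 0))
        ≤ (2 * ((p - 1 : ℕ) : ℝ)) ^ 2 := by
      have hq1 := q1.trans hSsq
      have hq2 := q2.trans hSsq
      have h0 : 0 ≤ Qk (kR n p) (fun v => if v ∈ Set.range D then (1 : ℝ) else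
          if v ∈ Set.range O then -1 else 0) := by
        unfold Qk
        refine Finset.sum_nonneg fun u _ => Finset.sum_nonneg fun v _ => ?_
        have := (kR_isKer n p).nonneg u v
        positivity
      rw [show (2 * ((p - 1 : ℕ) : ℝ)) ^ 2 =
        Real.sqrt ((2 * ((p - 1 : ℕ) : ℝ)) ^ 2 * (2 * ((p - 1 : ℕ) : ℝ)) ^ 2) by
          rw [Real.sqrt_mul_self (by positivity)]]
      exact Real.sqrt_le_sqrt (mul_le_mul hq1 hq2 h0 (by positivity))
    have := mul_le_mul_of_nonneg_left hsq hη.le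
    linarith

theorem comb_contra (M c : ℝ) (hM : 0 < M) (hc : 0 < c) :
    ∃ (L p : ℕ) (hp : Fact p.Prime), ∃ η : ℝ, 0 < η ∧
      ∀ A : (Matrix (Fin (2 ^ L)) (Fin (2 ^ L)) (ZMod p) → ℝ) →
        (Matrix (Fin (2 ^ L)) (Fin (2 ^ L)) (ZMod p) → ℝ) →
        (Matrix (Fin (2 ^ L)) (Fin (2 ^ L)) (ZMod p) → ℝ) →
        (Matrix (Fin (2 ^ L)) (Fin (2 ^ L)) (ZMod p) → ℝ) → ℝ, Alg4 A →
      (∀ x, A x x x x ≤ M * Qk (kR (2 ^ L) p) x) → (∀ x, c * Qk (kR (2 ^ L) p) x ≤ A x x x x) →
      (∀ x y, -(η * Real.sqrt (Qk (kR (2 ^ L) p) x * Qk (kR (2 ^ L) p) y)) ≤ A x x y y) →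
      False := by
  obtain ⟨L, m₀, hnum⟩ := num_contra M c hM hc
  obtain ⟨p, hpge, hp⟩ := Nat.exists_infinite_primes (m₀ + 3)
  have hpF : Fact p.Prime := ⟨hp⟩
  obtain ⟨η, hη, hα⟩ := hnum (p - 1) (by omega) (by omega)
  exact ⟨L, p, hpF, η, hη, fun A hA hU hL hC =>
    comb_core L p (2 ^ L) rfl M c η hc hη hα A hA hU hL hC⟩


end Pool.Agent.Helper964.Ros
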