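import Mathlib
import Pool.Agent.Helper964.Ros.Defs

set_option autoImplicit false

namespace Pool.Agent.Helper964.Ros

open Set

/-- separability of `ℓ₄` sums -/
theorem lp_sep {I : Type} [Countable I] (E : I → Type) [∀ i, NormedAddCommGroup (E i)]
    [∀ i, NormedSpace ℝ (E i)] [∀ i, TopologicalSpace.SeparableSpace (E i)]
    [Fact ((1 : ENNReal) ≤ 4)] : TopologicalSpace.SeparableSpace (lp E 4) := by
  classical
  have h1 : TopologicalSpace.IsSeparable (⋃ i : I, Set.range (lp.single (E := E) 4 i)) :=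
    TopologicalSpace.IsSeparable.iUnion fun i =>
      TopologicalSpace.isSeparable_range (lp.isometry_single (E := E) (p := 4) i).continuous
  have h2 := (h1.span (R := ℝ)).closure
  rw [← TopologicalSpace.isSeparable_univ_iff]
  refine h2.mono ?_
  intro f _
  have hf := lp.hasSum_single (E := E) (p := 4) (by simp) f
  refine mem_closure_of_tendsto hf (Filter.Eventually.of_forall fun s => ?_)
  refine Submodule.sum_mem _ fun i _ => Submodule.subset_span ?_
  exact Set.mem_iUnion.2 ⟨i, _, rfl⟩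

/-- the norm of an `ℓ₄` sum -/
theorem lp_norm4 {I : Type} (E : I → Type) [∀ i, NormedAddCommGroup (E i)]
    [∀ i, NormedSpace ℝ (E i)] [Fact ((1 : ENNReal) ≤ 4)] (x : lp E 4) :
    HasSum (fun i => ‖x i‖ ^ 4) (‖x‖ ^ 4) := by
  have h4 : (4 : ENNReal).toReal = ((4 : ℕ) : ℝ) := by
    norm_num
  have h := lp.hasSum_norm (E := E) (p := 4) (by rw [h4]; norm_num) x
  rw [h4] at h
  simpa only [Real.rpow_natCast] using h

/-- head and tail subspaces of an `ℓ₄` sum -/
theorem exists_lpSys {I : Type} (E : I → Type) [∀ i, NormedAddCommGroup (E i)]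
    [∀ i, NormedSpace ℝ (E i)] [Fact ((1 : ENNReal) ≤ 4)] :
    ∃ Y : L4Sys (lp E 4) I, (∀ S (x : lp E 4), x ∈ Y.H S ↔ ∀ i, i ∉ S → x i = 0) ∧
      (∀ S (x : lp E 4), x ∈ Y.T S ↔ ∀ i ∈ S, x i = 0) := by
  let H : Finset I → Submodule ℝ (lp E 4) := fun S =>
    { carrier := {x | ∀ i, i ∉ S → x i = 0}
      add_mem' := by
        intro a b ha hb i hi
        rw [lp.coeFn_add, Pi.add_apply, ha i hi, hb i hi, add_zero]
      zero_mem' := by
        intro i _
        rw [lp.coeFn_zero]; rfl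
      smul_mem' := by
        intro r a ha i hi
        rw [lp.coeFn_smul, Pi.smul_apply, ha i hi, smul_zero] }
  let T : Finset I → Submodule ℝ (lp E 4) := fun S =>
    { carrier := {x | ∀ i ∈ S, x i = 0}
      add_mem' := by
        intro a b ha hb i hi
        rw [lp.coeFn_add, Pi.add_apply, ha i hi, hb i hi, add_zero]
      zero_mem' := by
        intro i _
        rw [lp.coeFn_zero]; rfl
      smul_mem' := by
        intro r a ha i hi
        rw [lp.coeFn_smul, Pi.smul_apply, ha i hi, smul_zero] }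
  have hHm : ∀ S (x : lp E 4), x ∈ H S ↔ ∀ i, i ∉ S → x i = 0 := fun S x => Iff.rfl
  have hTm : ∀ S (x : lp E 4), x ∈ T S ↔ ∀ i ∈ S, x i = 0 := fun S x => Iff.rfl
  refine ⟨{ H := H, T := T, H_mono := ?_, T_anti := ?_, add4 := ?_ }, hHm, hTm⟩
  · intro S S' hS x hx
    rw [hHm] at hx ⊢
    exact fun i hi => hx i (fun h => hi (hS h))
  · intro S S' hS x hx
    rw [hTm] at hx ⊢
    exact fun i hi => hx i (hS hi)
  · intro S p hp z hz
    rw [hHm] at hp
    rw [hTm] at hz
    have h1 := (lp_norm4 E p).add (lp_norm4 E z)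
    have h2 := lp_norm4 E (p + z)
    refine h2.unique ?_
    convert h1 using 1
    funext i
    by_cases hi : i ∈ S
    · rw [lp.coeFn_add, Pi.add_apply, hz i hi]; simp
    · rw [lp.coeFn_add, Pi.add_apply, hp i hi]; simp

/-- isometric copies -/
theorem exists_copies {J : Type} (E : J → Type) [∀ i, NormedAddCommGroup (E i)]
    [∀ i, NormedSpace ℝ (E i)] [Fact ((1 : ENNReal) ≤ 4)]
    (Y : L4Sys (lp (fun i : J × ℕ => E i.1) 4) (J × ℕ))
    (hH : ∀ S (x : lp (fun i : J × ℕ => E i.1) 4), x ∈ Y.H S ↔ ∀ i, i ∉ S → x i = 0)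
    (hT : ∀ S (x : lp (fun i : J × ℕ => E i.1) 4), x ∈ Y.T S ↔ ∀ i ∈ S, x i = 0) (j : J) :
    Nonempty (Copies Y (E j)) := by
  classical
  let e : ℕ → E j →ₗᵢ[ℝ] lp (fun i : J × ℕ => E i.1) 4 := fun c =>
    { toLinearMap := lp.lsingle (𝕜 := ℝ) (E := fun i : J × ℕ => E i.1) 4 (j, c)
      norm_map' := by
        intro x
        exact lp.norm_single (E := fun i : J × ℕ => E i.1) (p := 4) (by norm_num) (j, c) x }
  have he : ∀ c z (i : J × ℕ), i ≠ (j, c) → (e c z : ∀ i : J × ℕ, E i.1) i = 0 := by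
    intro c z i hi
    exact lp.single_apply_ne (E := fun i : J × ℕ => E i.1) 4 (j, c) z hi
  refine ⟨{ e := e, φ := fun c => (j, c), inj := ?_, memH := ?_, memT := ?_ }⟩
  · intro a b hab
    exact (Prod.mk.inj hab).2
  · intro c z
    rw [hH]
    intro i hi
    exact he c z i (fun h => hi (by rw [h]; exact Finset.mem_singleton_self _))
  · intro c z S hS
    rw [hT]
    intro i hi
    exact he c z i (fun h => hS (by rw [← h]; exact hi))

private theorem amgm4 (a b c d : ℝ) :
    a * b * c * d ≤ (a ^ 4 + b ^ 4 + c ^ 4 + d ^ 4) / 4 := by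
  nlinarith [sq_nonneg (a * b - c * d), sq_nonneg (a ^ 2 - b ^ 2), sq_nonneg (c ^ 2 - d ^ 2)]

/-- MAIN TARGET: the `ℓ₄` sum of uniformly bounded four-linear forms -/
theorem lp_form {I : Type} (E : I → Type) [∀ i, NormedAddCommGroup (E i)]
    [∀ i, NormedSpace ℝ (E i)] [Fact ((1 : ENNReal) ≤ 4)] (Cq : ℝ)
    (T : ∀ i, MultilinearMap ℝ (fun _ : Fin 4 => E i) ℝ)
    (hT : ∀ i (m : Fin 4 → E i), |T i m| ≤ Cq * ∏ j, ‖m j‖) :
    ∃ P : ContinuousMultilinearMap ℝ (fun _ : Fin 4 => lp E 4) ℝ,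
      ∀ x : lp E 4, HasSum (fun i => T i (fun _ => x i)) (P (fun _ => x)) := by
  classical
  have hbd : ∀ (m : Fin 4 → lp E 4) (i : I),
      |T i (fun j => m j i)| ≤ |Cq| / 4 * ∑ j, ‖m j i‖ ^ 4 := by
    intro m i
    refine (hT i _).trans ?_
    have h1 : ∏ j, ‖m j i‖ ≤ (∑ j, ‖m j i‖ ^ 4) / 4 := by
      rw [Fin.prod_univ_four, Fin.sum_univ_four]
      exact amgm4 _ _ _ _
    have h0 : 0 ≤ ∏ j, ‖m j i‖ := Finset.prod_nonneg fun j _ => norm_nonneg _
    calc Cq * ∏ j, ‖m j i‖ ≤ |Cq| * ∏ j, ‖m j i‖ :=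
          mul_le_mul_of_nonneg_right (le_abs_self _) h0
      _ ≤ |Cq| * ((∑ j, ‖m j i‖ ^ 4) / 4) := mul_le_mul_of_nonneg_left h1 (abs_nonneg _)
      _ = _ := by ring
  have hS : ∀ m : Fin 4 → lp E 4, HasSum (fun i => |Cq| / 4 * ∑ j, ‖m j i‖ ^ 4)
      (|Cq| / 4 * ∑ j, ‖m j‖ ^ 4) := by
    intro m
    exact (hasSum_sum fun j _ => lp_norm4 E (m j)).mul_left _
  have hsum : ∀ m : Fin 4 → lp E 4, Summable (fun i => T i (fun j => m j i)) := by
    intro m
    refine Summable.of_norm_bounded (hS m).summable ?_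
    intro i
    rw [Real.norm_eq_abs]
    exact hbd m i
  have hupd : ∀ (dec : DecidableEq (Fin 4)) (m : Fin 4 → lp E 4) (j0 : Fin 4) (z : lp E 4)
      (i : I), (fun j => (@Function.update (Fin 4) (fun _ => lp E 4) dec m j0 z j : lp E 4) i) =
        @Function.update (Fin 4) (fun _ => E i) dec (fun j => (m j : lp E 4) i) j0 (z i) := by
    intro dec m j0 z i
    funext j
    by_cases h : j = j0
    · subst h; simp
    · simp [h]
  let B : MultilinearMap ℝ (fun _ : Fin 4 => lp E 4) ℝ :=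
    { toFun := fun m => ∑' i, T i (fun j => m j i)
      map_update_add' := by
        intro inst m j0 x y
        rw [← (hsum (Function.update m j0 x)).tsum_add (hsum (Function.update m j0 y))]
        congr 1
        funext i
        have h1 := hupd inst m j0 (x + y) i
        have h2 := hupd inst m j0 x i
        have h3 := hupd inst m j0 y i
        simp only [h1, h2, h3]
        exact (T i).map_update_add _ _ _ _
      map_update_smul' := by
        intro inst m j0 c x
        rw [smul_eq_mul, ← tsum_mul_left]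
        congr 1
        funext i
        have h1 := hupd inst m j0 (c • x) i
        have h2 := hupd inst m j0 x i
        simp only [h1, h2]
        exact (T i).map_update_smul _ _ _ _ }
  have hB : ∀ m, B m = ∑' i, T i (fun j => m j i) := fun m => rfl
  have hB1 : ∀ m : Fin 4 → lp E 4, |B m| ≤ |Cq| / 4 * ∑ j, ‖m j‖ ^ 4 := by
    intro m
    rw [hB, ← Real.norm_eq_abs]
    exact tsum_of_norm_bounded (hS m) (fun i => by rw [Real.norm_eq_abs]; exact hbd m i)
  have hB2 : ∀ m : Fin 4 → lp E 4, ‖B m‖ ≤ |Cq| * ∏ j, ‖m j‖ := by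
    intro m
    rw [Real.norm_eq_abs]
    by_cases h0 : ∃ j, m j = 0
    · obtain ⟨j, hj⟩ := h0
      rw [B.map_coord_zero j hj]
      simp only [abs_zero]
      exact mul_nonneg (abs_nonneg _) (Finset.prod_nonneg fun j _ => norm_nonneg _)
    · push Not at h0
      have hn : ∀ j, ‖m j‖ ≠ 0 := fun j => norm_ne_zero_iff.mpr (h0 j)
      have hm : m = fun j => ‖m j‖ • (‖m j‖⁻¹ • m j) := by
        funext j
        rw [smul_smul, mul_inv_cancel₀ (hn j), one_smul]
      have h1 : B m = (∏ j, ‖m j‖) • B (fun j => ‖m j‖⁻¹ • m j) := by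
        conv_lhs => rw [hm]
        exact B.map_smul_univ _ _
      have h2 := hB1 (fun j => ‖m j‖⁻¹ • m j)
      have h3 : ∀ j, ‖‖m j‖⁻¹ • m j‖ = 1 := by
        intro j
        rw [norm_smul, norm_inv, norm_norm, inv_mul_cancel₀ (hn j)]
      simp only [h3, one_pow, Finset.sum_const, Finset.card_univ, Fintype.card_fin,
        nsmul_eq_mul, mul_one] at h2
      have h4 : |B (fun j => ‖m j‖⁻¹ • m j)| ≤ |Cq| := by
        refine h2.trans (le_of_eq ?_)
        push_cast; ring
      rw [h1, smul_eq_mul, abs_mul,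
        abs_of_nonneg (Finset.prod_nonneg fun j _ => norm_nonneg _), mul_comm |Cq|]
      exact mul_le_mul_of_nonneg_left h4 (Finset.prod_nonneg fun j _ => norm_nonneg _)
  refine ⟨B.mkContinuous |Cq| hB2, ?_⟩
  intro x
  exact (hsum (fun _ => x)).hasSum

/-- a coercive continuous four-linear form gives a separating polynomial in the required form -/
theorem sep_poly {X : Type} [NormedAddCommGroup X] [NormedSpace ℝ X] (c : ℝ) (hc : 0 < c)
    (P : ContinuousMultilinearMap ℝ (fun _ : Fin 4 => X) ℝ)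
    (hP : ∀ x : X, c * ‖x‖ ^ 4 ≤ P (fun _ => x)) :
    ∃ (n : ℕ) (p : FormalMultilinearSeries ℝ X ℝ),
      (∑ k ∈ Finset.range (n + 1), p k (fun _ => (0 : X))) = 0 ∧
      ∃ c : ℝ, 0 < c ∧ ∀ x : X, ‖x‖ = 1 → c ≤ ∑ k ∈ Finset.range (n + 1), p k (fun _ => x) := by
  refine ⟨4, fun k => match k with
    | 4 => P
    | _ => 0, ?_, c, hc, ?_⟩
  · simp only [Finset.sum_range_succ, Finset.sum_range_zero]
    have : P (fun _ => (0 : X)) = 0 := P.map_coord_zero 0 rfl
    simp [this]
  · intro x hx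
    have h := hP x
    rw [hx, one_pow, mul_one] at h
    simp only [Finset.sum_range_succ, Finset.sum_range_zero]
    simpa using h


end Pool.Agent.Helper964.Ros
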