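import Mathlib
import Pool.Agent.Helper964.Ros.Defs
import Pool.Agent.Helper964.Ros.Kernel

set_option autoImplicit false

namespace Pool.Agent.Helper964.Ros

open Set

/-- data of a kernel space -/
structure KerData where
  V : Type
  fin : Fintype V
  k : V → V → ℝ
  isKer : IsKer k

attribute [instance] KerData.fin

/-- the norm of a kernel space -/
noncomputable def KerData.N (D : KerData) : Seminorm ℝ (D.V → ℝ) :=
  Classical.choose (exists_norm D.k D.isKer)

theorem KerData.N_lower (D : KerData) (x : D.V → ℝ) : Qk D.k x ≤ D.N x ^ 4 :=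
  (Classical.choose_spec (exists_norm D.k D.isKer) x).1

theorem KerData.N_upper (D : KerData) (x : D.V → ℝ) : D.N x ^ 4 ≤ 64 * Qk D.k x :=
  (Classical.choose_spec (exists_norm D.k D.isKer) x).2

theorem KerData.N_eq_zero (D : KerData) (x : D.V → ℝ) (h : D.N x = 0) : x = 0 := by
  by_contra hx
  have h1 := Qk_pos D.k D.isKer x hx
  have h2 := D.N_lower x
  rw [h] at h2
  norm_num at h2
  linarith

/-- the kernel space -/
def KE (D : KerData) : Type := D.V → ℝ

noncomputable instance (D : KerData) : AddCommGroup (KE D) :=
  inferInstanceAs (AddCommGroup (D.V → ℝ))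

noncomputable instance (D : KerData) : Module ℝ (KE D) :=
  inferInstanceAs (Module ℝ (D.V → ℝ))

/-- the group norm of a kernel space -/
noncomputable def KerData.gn (D : KerData) : AddGroupNorm (KE D) where
  toFun x := D.N x
  map_zero' := map_zero D.N
  add_le' x y := map_add_le_add D.N x y
  neg' x := map_neg_eq_map D.N x
  eq_zero_of_map_eq_zero' x h := D.N_eq_zero x h

noncomputable instance (D : KerData) : NormedAddCommGroup (KE D) :=
  D.gn.toNormedAddCommGroup

theorem KE_norm (D : KerData) (x : KE D) : ‖x‖ = D.N x := rfl

noncomputable instance (D : KerData) : NormedSpace ℝ (KE D) where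
  norm_smul_le r x := le_of_eq (map_smul_eq_mul D.N r x)

instance (D : KerData) : FiniteDimensional ℝ (KE D) :=
  inferInstanceAs (FiniteDimensional ℝ (D.V → ℝ))

instance (D : KerData) : CompleteSpace (KE D) := FiniteDimensional.complete ℝ _

instance (D : KerData) : TopologicalSpace.SeparableSpace (KE D) := by
  haveI : ProperSpace (KE D) := FiniteDimensional.proper ℝ _
  infer_instance


end Pool.Agent.Helper964.Ros
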