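import Mathlib
import Pool.Agent.Helper964.Ros.Defs
import Pool.Agent.Helper964.Ros.Analysis
import Pool.Agent.Helper964.Ros.Kernel
import Pool.Agent.Helper964.Ros.LpPart
import Pool.Agent.Helper964.Ros.Comb
import Pool.Agent.Helper964.Ros.Space

set_option autoImplicit false

namespace Pool.Agent.Helper964.Ros

open Set

/-- the analytic half: uniform quartic forms on all far copies -/
theorem extract {X : Type*} [NormedAddCommGroup X] [NormedSpace ℝ X] [CompleteSpace X]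
    {I : Type*} [DecidableEq I] (Y : L4Sys X I) (f : X → ℝ)
    (hadd : ∀ x y, f (x + y) ≤ f x + f y) (hsm : ∀ (r : ℝ) (x : X), f (r • x) = |r| * f x)
    (a : ℝ) (ha : 0 < a) (hlow : ∀ x, a * ‖x‖ ≤ f x)
    (hC : ContDiffOn ℝ 5 f ({0}ᶜ : Set X))
    (x₀ : X) (hx₀ : x₀ ≠ 0) (S : Finset I) (hx₀S : x₀ ∈ Y.H S) :
    ∃ M c₁ : ℝ, 0 < M ∧ 0 < c₁ ∧ ∀ (E : Type) [NormedAddCommGroup E] [NormedSpace ℝ E],
      Copies Y E → Ext E M c₁ := by
  obtain ⟨G₀, S₀, r, ε, R, hr, hε, hR, hconv, hjet, hgrow⟩ :=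
    localise Y f hadd hsm a ha hlow (fun K hK h0 => goodAt_compact f hC K hK h0) x₀ hx₀ S hx₀S
  obtain ⟨c₁, hc₁, h⟩ := path_ext Y G₀ S₀ (1 / r) r ε R (by positivity) hr hε hR hconv hjet hgrow
  exact ⟨1 / r, c₁, by positivity, hc₁, h⟩

/-- the kernel spaces of the rank metrics -/
noncomputable def DJ (j : ℕ × Nat.Primes) : KerData :=
  haveI : Fact (j.2 : ℕ).Prime := ⟨j.2.2⟩
  { V := Matrix (Fin (2 ^ j.1)) (Fin (2 ^ j.1)) (ZMod j.2)
    fin := inferInstance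
    k := kR (2 ^ j.1) j.2
    isKer := kR_isKer _ _ }

/-- reformulation of the extracted data in terms of the quartic form of the kernel -/
theorem ext_data (D : KerData) (M c₁ η : ℝ) (hM : 0 < M) (hc : 0 < c₁) (hη : 0 < η)
    (hExt : Ext (KE D) M c₁) :
    ∃ A : KE D → KE D → KE D → KE D → ℝ, Alg4 A ∧
      (∀ x : KE D, A x x x x ≤ 64 * M * Qk D.k x) ∧
      (∀ x : KE D, c₁ * Qk D.k x ≤ A x x x x) ∧
      (∀ x y : KE D, -(η * Real.sqrt (Qk D.k x * Qk D.k y)) ≤ A x x y y) := by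
  obtain ⟨A, hA, hA1, hA2⟩ := hExt (η / 64) (by positivity)
  have hlo : ∀ x : KE D, Qk D.k x ≤ ‖x‖ ^ 4 := fun x => D.N_lower x
  have hup : ∀ x : KE D, ‖x‖ ^ 4 ≤ 64 * Qk D.k x := fun x => D.N_upper x
  have hQ0 : ∀ x : KE D, 0 ≤ Qk D.k x := by
    intro x
    unfold Qk
    refine Finset.sum_nonneg fun u _ => Finset.sum_nonneg fun v _ => ?_
    have := D.isKer.nonneg u v
    positivity
  have hsm4 : ∀ (s t : ℝ) (x y : KE D), A (s • x) (s • x) (t • y) (t • y) =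
      s ^ 2 * t ^ 2 * A x x y y := by
    intro s t x y
    have h1 : A x x (t • y) (t • y) = t * A x x y (t • y) := by
      rw [hA.alg.s23, hA.alg.s12, hA.alg.smul, hA.alg.s12, hA.alg.s23]
    have h2 : A x x y (t • y) = t * A x x y y := by
      rw [hA.alg.s34, hA.alg.s23, hA.alg.s12, hA.alg.smul, hA.alg.s12, hA.alg.s23, hA.alg.s34]
    rw [hA.alg.smul, hA.alg.s12, hA.alg.smul, h1, h2]
    ring
  have h0 : ∀ y : KE D, A 0 0 y y = 0 := by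
    intro y
    have := hsm4 0 1 0 y
    simpa using this
  have h0' : ∀ y : KE D, A y y 0 0 = 0 := by
    intro y
    have := hsm4 1 0 y 0
    simpa using this
  refine ⟨A, hA.alg, ?_, ?_, ?_⟩
  · intro x
    have h1 := hA.bd x x x x
    have h3 : A x x x x ≤ M * ‖x‖ ^ 4 := by
      refine (le_abs_self _).trans (h1.trans (le_of_eq ?_))
      ring
    calc A x x x x ≤ M * ‖x‖ ^ 4 := h3
      _ ≤ M * (64 * Qk D.k x) := mul_le_mul_of_nonneg_left (hup x) hM.le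
      _ = 64 * M * Qk D.k x := by ring
  · intro x
    by_cases hx : x = 0
    · have h3 : A x x x x = 0 := by
        rw [hx]; exact h0 0
      have h4 : Qk D.k x = 0 := by
        have h5 : ‖x‖ ^ 4 = 0 := by rw [hx, norm_zero]; norm_num
        exact le_antisymm ((hlo x).trans h5.le) (hQ0 x)
      rw [h3, h4, mul_zero]
    · have hn : 0 < ‖x‖ := norm_pos_iff.2 hx
      have hy1 : ‖(‖x‖)⁻¹ • x‖ = 1 := by
        rw [norm_smul, norm_inv, norm_norm, inv_mul_cancel₀ hn.ne']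
      have hxy : x = ‖x‖ • ((‖x‖)⁻¹ • x) := by
        rw [smul_smul, mul_inv_cancel₀ hn.ne', one_smul]
      have h3 := hA2 _ hy1
      have h4 := hsm4 ‖x‖ ‖x‖ ((‖x‖)⁻¹ • x) ((‖x‖)⁻¹ • x)
      rw [← hxy] at h4
      rw [h4]
      calc c₁ * Qk D.k x ≤ c₁ * ‖x‖ ^ 4 := mul_le_mul_of_nonneg_left (hlo x) hc.le
        _ = ‖x‖ ^ 2 * ‖x‖ ^ 2 * c₁ := by ring
        _ ≤ ‖x‖ ^ 2 * ‖x‖ ^ 2 * A ((‖x‖)⁻¹ • x) ((‖x‖)⁻¹ • x) ((‖x‖)⁻¹ • x) ((‖x‖)⁻¹ • x) :=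
          mul_le_mul_of_nonneg_left h3 (by positivity)
  · intro x y
    by_cases hx : x = 0
    · have h3 : A x x y y = 0 := by
        rw [hx]; exact h0 y
      rw [h3]
      have := mul_nonneg hη.le (Real.sqrt_nonneg (Qk D.k x * Qk D.k y))
      linarith
    by_cases hy : y = 0
    · have h3 : A x x y y = 0 := by
        rw [hy]; exact h0' x
      rw [h3]
      have := mul_nonneg hη.le (Real.sqrt_nonneg (Qk D.k x * Qk D.k y))
      linarith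
    have hnx : 0 < ‖x‖ := norm_pos_iff.2 hx
    have hny : 0 < ‖y‖ := norm_pos_iff.2 hy
    have hx1 : ‖(‖x‖)⁻¹ • x‖ = 1 := by
      rw [norm_smul, norm_inv, norm_norm, inv_mul_cancel₀ hnx.ne']
    have hy1 : ‖(‖y‖)⁻¹ • y‖ = 1 := by
      rw [norm_smul, norm_inv, norm_norm, inv_mul_cancel₀ hny.ne']
    have hxx : x = ‖x‖ • ((‖x‖)⁻¹ • x) := by
      rw [smul_smul, mul_inv_cancel₀ hnx.ne', one_smul]
    have hyy : y = ‖y‖ • ((‖y‖)⁻¹ • y) := by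
      rw [smul_smul, mul_inv_cancel₀ hny.ne', one_smul]
    have h3 := hA1 _ _ hx1 hy1
    have h4 := hsm4 ‖x‖ ‖y‖ ((‖x‖)⁻¹ • x) ((‖y‖)⁻¹ • y)
    rw [← hxx, ← hyy] at h4
    have h5 : ‖x‖ ^ 2 * ‖y‖ ^ 2 ≤ 64 * Real.sqrt (Qk D.k x * Qk D.k y) := by
      have h6 : ‖x‖ ^ 2 * ‖y‖ ^ 2 = Real.sqrt (‖x‖ ^ 4 * ‖y‖ ^ 4) := by
        rw [show ‖x‖ ^ 4 * ‖y‖ ^ 4 = (‖x‖ ^ 2 * ‖y‖ ^ 2) ^ 2 by ring,
          Real.sqrt_sq (by positivity)]
      have h7 : 64 * Real.sqrt (Qk D.k x * Qk D.k y) =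
          Real.sqrt ((64 * Qk D.k x) * (64 * Qk D.k y)) := by
        have hs : Real.sqrt ((64 : ℝ) ^ 2) = 64 := Real.sqrt_sq (by norm_num)
        rw [show (64 * Qk D.k x) * (64 * Qk D.k y) = 64 ^ 2 * (Qk D.k x * Qk D.k y) by ring,
          Real.sqrt_mul (show (0 : ℝ) ≤ 64 ^ 2 by norm_num) (Qk D.k x * Qk D.k y), hs]
      rw [h6, h7]
      apply Real.sqrt_le_sqrt
      exact mul_le_mul (hup x) (hup y) (by positivity)
        (mul_nonneg (by norm_num) (hQ0 x))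
    rw [h4]
    have h8 : 0 ≤ ‖x‖ ^ 2 * ‖y‖ ^ 2 := by positivity
    have h9 := mul_le_mul_of_nonneg_left h3 h8
    have h10 : ‖x‖ ^ 2 * ‖y‖ ^ 2 * (η / 64) ≤
        64 * Real.sqrt (Qk D.k x * Qk D.k y) * (η / 64) :=
      mul_le_mul_of_nonneg_right h5 (by positivity)
    linarith

/-- the combinatorial half: no uniform quartic forms on all these spaces -/
theorem no_ext (M c₁ : ℝ) (hM : 0 < M) (hc : 0 < c₁) :
    ∃ j : ℕ × Nat.Primes, ¬ Ext (KE (DJ j)) M c₁ := by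
  obtain ⟨L, p, hp, η, hη, hno⟩ := comb_contra (64 * M) c₁ (by positivity) hc
  refine ⟨(L, ⟨p, hp.out⟩), fun hExt => ?_⟩
  obtain ⟨A, hA, h1, h2, h3⟩ := ext_data (DJ (L, ⟨p, hp.out⟩)) M c₁ η hM hc hη hExt
  exact hno A ⟨hA.add, hA.smul, hA.s12, hA.s23, hA.s34⟩ h1 h2 h3

/-- the space -/
theorem main_thm :
    ¬ (∀ (X : Type) [NormedAddCommGroup X] [NormedSpace ℝ X] [CompleteSpace X]
      [TopologicalSpace.SeparableSpace X],
      (∃ (n : ℕ) (p : FormalMultilinearSeries ℝ X ℝ),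
          (∑ k ∈ Finset.range (n + 1), p k (fun _ => (0 : X))) = 0 ∧
          ∃ c : ℝ, 0 < c ∧ ∀ x : X, ‖x‖ = 1 →
            c ≤ ∑ k ∈ Finset.range (n + 1), p k (fun _ => x)) →
      ∃ N : X → ℝ,
        (∀ x y : X, N (x + y) ≤ N x + N y) ∧
        (∀ (r : ℝ) (x : X), N (r • x) = |r| * N x) ∧
        (∃ a b : ℝ, 0 < a ∧ 0 < b ∧ ∀ x : X, a * ‖x‖ ≤ N x ∧ N x ≤ b * ‖x‖) ∧
        ContDiffOn ℝ 5 N ({0}ᶜ : Set X)) := by
  intro H
  have : Fact ((1 : ENNReal) ≤ 4) := ⟨by norm_num⟩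
  let E : (ℕ × Nat.Primes) × ℕ → Type := fun i => KE (DJ i.1)
  have hsep : TopologicalSpace.SeparableSpace (lp E 4) := lp_sep E
  -- polynomial
  have hpoly : ∃ (n : ℕ) (p : FormalMultilinearSeries ℝ (lp E 4) ℝ),
      (∑ k ∈ Finset.range (n + 1), p k (fun _ => (0 : lp E 4))) = 0 ∧
      ∃ c : ℝ, 0 < c ∧ ∀ x : lp E 4, ‖x‖ = 1 →
        c ≤ ∑ k ∈ Finset.range (n + 1), p k (fun _ => x) := by
    have hfour : ∀ i : (ℕ × Nat.Primes) × ℕ, ∃ T : MultilinearMap ℝ (fun _ : Fin 4 => E i) ℝ,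
        ∀ m : Fin 4 → E i, T m = ∑ u, ∑ v, (DJ i.1).k u v * (m 0 u * m 1 u * (m 2 v * m 3 v)) :=
      fun i => exists_four (DJ i.1).k
    choose T hT using hfour
    obtain ⟨P, hP⟩ := lp_form E 8 T (by
      intro i m
      rw [hT i m, Fin.prod_univ_four]
      exact four_bound (DJ i.1).k (DJ i.1).isKer (DJ i.1).N (DJ i.1).N_lower (m 0) (m 1) (m 2)
        (m 3))
    refine sep_poly (1 / 64) (by norm_num) P ?_
    intro x
    have h1 := hP x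
    have h2 := (lp_norm4 E x).mul_left (1 / 64)
    refine hasSum_le ?_ h2 h1
    intro i
    have h3 := (DJ i.1).N_upper (x i)
    have h4 : T i (fun _ => x i) = Qk (DJ i.1).k (x i) := by
      rw [hT]
      unfold Qk
      refine Finset.sum_congr rfl fun u _ => Finset.sum_congr rfl fun v _ => ?_
      ring
    rw [h4]
    have h5 : ‖x i‖ ^ 4 ≤ 64 * Qk (DJ i.1).k (x i) := h3
    linarith
  obtain ⟨N, hadd, hsm, ⟨a, b, ha, hb, hab⟩, hC⟩ := H (lp E 4) hpoly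
  obtain ⟨Y, hYH, hYT⟩ := exists_lpSys E
  classical
  -- a nonzero finitely supported vector
  obtain ⟨x₀, S, hx₀, hx₀S⟩ : ∃ (x₀ : lp E 4) (S : Finset ((ℕ × Nat.Primes) × ℕ)),
      x₀ ≠ 0 ∧ x₀ ∈ Y.H S := by
    obtain ⟨C⟩ := exists_copies (fun j : ℕ × Nat.Primes => KE (DJ j)) Y hYH hYT (0, ⟨2, Nat.prime_two⟩)
    let z : KE (DJ (0, ⟨2, Nat.prime_two⟩)) := fun _ => (1 : ℝ)
    have hz : z ≠ 0 := by
      intro h
      have := congrFun (f := z) (g := fun _ => (0 : ℝ)) h (0 : Matrix _ _ _)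
      exact one_ne_zero this
    refine ⟨C.e 0 z, {C.φ 0}, ?_, C.memH 0 z⟩
    intro h
    apply hz
    have h1 := (C.e 0).norm_map z
    rw [h, norm_zero] at h1
    exact norm_eq_zero.1 h1.symm
  obtain ⟨M, c₁, hM, hc₁, hall⟩ := extract Y N hadd hsm a ha (fun x => (hab x).1) hC x₀ hx₀ S hx₀S
  obtain ⟨j, hj⟩ := no_ext M c₁ hM hc₁
  obtain ⟨C⟩ := exists_copies (fun j : ℕ × Nat.Primes => KE (DJ j)) Y hYH hYT j
  exact hj (hall _ C)

end Pool.Agent.Helper964.Ros
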