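import Mathlib
import Pool.Agent.Helper964.Ros.Main
import Pool.Agent.Helper964.Ros.Space5
import Pool.Agent.Helper964.Ros.Analysis4

set_option autoImplicit false

namespace Pool.Agent.Helper964.Ros

open Set

/-- the analytic half, for `C^4` norms -/
theorem extract4 {X : Type*} [NormedAddCommGroup X] [NormedSpace ℝ X] [CompleteSpace X]
    {I : Type*} [DecidableEq I] (Y : L4Sys X I) (f : X → ℝ)
    (hadd : ∀ x y, f (x + y) ≤ f x + f y) (hsm : ∀ (r : ℝ) (x : X), f (r • x) = |r| * f x)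
    (a : ℝ) (ha : 0 < a) (hlow : ∀ x, a * ‖x‖ ≤ f x)
    (hC : ContDiffOn ℝ 4 f ({0}ᶜ : Set X))
    (x₀ : X) (hx₀ : x₀ ≠ 0) (S : Finset I) (hx₀S : x₀ ∈ Y.H S) :
    ∃ M c₁ : ℝ, 0 < M ∧ 0 < c₁ ∧ ∀ (E : Type) [NormedAddCommGroup E] [NormedSpace ℝ E],
      Copies Y E → Ext E M c₁ := by
  obtain ⟨G₀, S₀, P₀, ρ₀, r, ε, hr, hε, hinv, hgood, hgrow⟩ :=
    localise4 Y f hadd hsm a ha hlow (fun p r r' h0 h1 h => goodR_mono f p r r' h0 h1 h)
      (fun K hK h0 => goodR_compact f hC K hK h0) x₀ hx₀ S hx₀S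
  obtain ⟨c₁, hc₁, h⟩ := path_ext4 Y f G₀ S₀ P₀ ρ₀ r ε hr hε hinv hgood hgrow
  exact ⟨1 / r, c₁, by positivity, hc₁, h⟩

/-- the space, with its coercive four-linear form, and no `C^4` norm -/
theorem exists_space4 :
    ∃ (X : Type) (_ : NormedAddCommGroup X) (_ : NormedSpace ℝ X),
      CompleteSpace X ∧ TopologicalSpace.SeparableSpace X ∧ (∃ x : X, x ≠ 0) ∧
      (∃ P : ContinuousMultilinearMap ℝ (fun _ : Fin 4 => X) ℝ,
        ∀ x : X, 1 / 64 * ‖x‖ ^ 4 ≤ P (fun _ => x)) ∧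
      ¬ ∃ N : X → ℝ,
        (∀ x y : X, N (x + y) ≤ N x + N y) ∧
        (∀ (r : ℝ) (x : X), N (r • x) = |r| * N x) ∧
        (∃ a b : ℝ, 0 < a ∧ 0 < b ∧ ∀ x : X, a * ‖x‖ ≤ N x ∧ N x ≤ b * ‖x‖) ∧
        ContDiffOn ℝ 4 N ({0}ᶜ : Set X) := by
  have : Fact ((1 : ENNReal) ≤ 4) := ⟨by norm_num⟩
  let E : (ℕ × Nat.Primes) × ℕ → Type := fun i => KE (DJ i.1)
  have hsep : TopologicalSpace.SeparableSpace (lp E 4) := lp_sep E
  obtain ⟨Y, hYH, hYT⟩ := exists_lpSys E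
  -- a nonzero finitely supported vector
  obtain ⟨x₀, S, hx₀, hx₀S⟩ : ∃ (x₀ : lp E 4) (S : Finset ((ℕ × Nat.Primes) × ℕ)),
      x₀ ≠ 0 ∧ x₀ ∈ Y.H S := by
    obtain ⟨C⟩ := exists_copies (fun j : ℕ × Nat.Primes => KE (DJ j)) Y hYH hYT (0, ⟨2, Nat.prime_two⟩)
    let z : KE (DJ (0, ⟨2, Nat.prime_two⟩)) := fun _ => (1 : ℝ)
    have hz : z ≠ 0 := by
      intro h
      have := congrFun (f := z) (g := fun _ => (0 : ℝ)) h (0 : Matrix _ _ _)
      exact one_ne_zero this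
    refine ⟨C.e 0 z, {C.φ 0}, ?_, C.memH 0 z⟩
    intro h
    apply hz
    have h1 := (C.e 0).norm_map z
    rw [h, norm_zero] at h1
    exact norm_eq_zero.1 h1.symm
  refine ⟨lp E 4, inferInstance, inferInstance, inferInstance, hsep, ⟨x₀, hx₀⟩, ?_, ?_⟩
  · have hfour : ∀ i : (ℕ × Nat.Primes) × ℕ, ∃ T : MultilinearMap ℝ (fun _ : Fin 4 => E i) ℝ,
        ∀ m : Fin 4 → E i, T m = ∑ u, ∑ v, (DJ i.1).k u v * (m 0 u * m 1 u * (m 2 v * m 3 v)) :=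
      fun i => exists_four (DJ i.1).k
    choose T hT using hfour
    obtain ⟨P, hP⟩ := lp_form E 8 T (by
      intro i m
      rw [hT i m, Fin.prod_univ_four]
      exact four_bound (DJ i.1).k (DJ i.1).isKer (DJ i.1).N (DJ i.1).N_lower (m 0) (m 1) (m 2)
        (m 3))
    refine ⟨P, ?_⟩
    intro x
    have h1 := hP x
    have h2 := (lp_norm4 E x).mul_left (1 / 64)
    refine hasSum_le ?_ h2 h1
    intro i
    have h3 := (DJ i.1).N_upper (x i)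
    have h4 : T i (fun _ => x i) = Qk (DJ i.1).k (x i) := by
      rw [hT]
      unfold Qk
      refine Finset.sum_congr rfl fun u _ => Finset.sum_congr rfl fun v _ => ?_
      ring
    rw [h4]
    have h5 : ‖x i‖ ^ 4 ≤ 64 * Qk (DJ i.1).k (x i) := h3
    linarith
  · rintro ⟨N, hadd, hsm, ⟨a, b, ha, hb, hab⟩, hC⟩
    classical
    obtain ⟨M, c₁, hM, hc₁, hall⟩ :=
      extract4 Y N hadd hsm a ha (fun x => (hab x).1) hC x₀ hx₀ S hx₀S
    obtain ⟨j, hj⟩ := no_ext M c₁ hM hc₁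
    obtain ⟨C⟩ := exists_copies (fun j : ℕ × Nat.Primes => KE (DJ j)) Y hYH hYT j
    exact hj (hall _ C)


end Pool.Agent.Helper964.Ros
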